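import Pool.Agent.Lib.MP_d131fa_co.Col

/-!
# What equality of the q-dichromates says about the colourings with a given cut value
-/

namespace Pool.D131

open Finset

variable {V W : Type} [Fintype V] [DecidableEq V] [Fintype W] [DecidableEq W]

/-- The weight of the colourings with `x` colours and cut value `c`. -/
noncomputable def wcol (q : ℝ) (μ : Sym2 V → ℕ) (x c : ℕ) : ℝ :=
  ∑ φ : V → Fin x, if cut μ φ = c then q ^ (∑ v, (φ v : ℕ)) else 0

theorem Bq_one {q : ℝ} (hq : 1 < q) (μ : Sym2 V → ℕ) (y : ℝ) :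
    Bq q μ 1 y = (1 + y) ^ size μ := by
  have h := Bq_eq hq μ 1 y
  rw [Nat.cast_one] at h
  rw [h, Fintype.sum_unique]
  have h1 : cut μ (default : V → Fin 1) = 0 := by
    unfold cut
    apply Finset.sum_eq_zero
    intro s _
    rw [if_pos]
    induction s with
    | h a b =>
      show (s((default : V → Fin 1) a, (default : V → Fin 1) b)).IsDiag
      rw [Sym2.mk_isDiag_iff]
      exact Subsingleton.elim _ _
  rw [h1]
  have h2 : ∑ v, (((default : V → Fin 1) v : Fin 1) : ℕ) = 0 := by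
    apply Finset.sum_eq_zero
    intro v _
    exact Nat.lt_one_iff.1 (Fin.is_lt _)
  rw [h2, pow_zero, one_mul, Nat.sub_zero]

theorem size_eq {q : ℝ} (hq : 1 < q) (μ : Sym2 V → ℕ) (ν : Sym2 W → ℕ)
    (h : ∀ x y : ℝ, Bq q μ x y = Bq q ν x y) : size μ = size ν := by
  have h1 := h 1 1
  rw [Bq_one hq, Bq_one hq] at h1
  norm_num at h1
  exact h1

theorem sum_two {q : ℝ} : ∑ φ : V → Fin 2, q ^ (∑ v, (φ v : ℕ)) = (1 + q) ^ Fintype.card V := by
  have h1 : ∀ φ : V → Fin 2, q ^ (∑ v, (φ v : ℕ)) = ∏ v, q ^ (φ v : ℕ) := by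
    intro φ
    rw [Finset.prod_pow_eq_pow_sum]
  have h2 := Finset.prod_univ_sum (fun _ : V => (univ : Finset (Fin 2)))
    (fun _ i => q ^ (i : ℕ))
  rw [Fintype.piFinset_univ] at h2
  rw [Finset.sum_congr rfl fun φ _ => h1 φ, ← h2]
  simp

theorem card_eq {q : ℝ} (hq : 1 < q) (μ : Sym2 V → ℕ) (ν : Sym2 W → ℕ)
    (h : ∀ x y : ℝ, Bq q μ x y = Bq q ν x y) : Fintype.card V = Fintype.card W := by
  have h1 := h (2 : ℕ) 0
  rw [Bq_eq hq, Bq_eq hq] at h1
  simp only [add_zero, one_pow, mul_one] at h1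
  rw [sum_two, sum_two] at h1
  exact pow_right_injective₀ (by linarith) (by linarith) h1

theorem coef {q : ℝ} (hq : 1 < q) (μ : Sym2 V → ℕ) (ν : Sym2 W → ℕ)
    (h : ∀ x y : ℝ, Bq q μ x y = Bq q ν x y) (x c : ℕ) : wcol q μ x c = wcol q ν x c := by
  classical
  have hs := size_eq hq μ ν h
  -- the polynomials
  have hP : ∀ {X : Type} [Fintype X] [DecidableEq X] (κ : Sym2 X → ℕ) (z : ℝ),
      (∑ φ : X → Fin x, Polynomial.C (q ^ (∑ v, (φ v : ℕ))) *
        Polynomial.X ^ (size κ - cut κ φ)).eval z = Bq q κ x (z - 1) := by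
    intro X _ _ κ z
    rw [Bq_eq hq, Polynomial.eval_finsetSum]
    apply Finset.sum_congr rfl
    intro φ _
    simp
  have hE : (∑ φ : V → Fin x, Polynomial.C (q ^ (∑ v, (φ v : ℕ))) *
        Polynomial.X ^ (size μ - cut μ φ)) =
      (∑ φ : W → Fin x, Polynomial.C (q ^ (∑ v, (φ v : ℕ))) *
        Polynomial.X ^ (size ν - cut ν φ)) := by
    apply Polynomial.funext
    intro z
    rw [hP, hP, h]
  by_cases hc : c ≤ size μ
  · have hC : ∀ {X : Type} [Fintype X] [DecidableEq X] (κ : Sym2 X → ℕ), size κ = size μ →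
        (∑ φ : X → Fin x, Polynomial.C (q ^ (∑ v, (φ v : ℕ))) *
          Polynomial.X ^ (size κ - cut κ φ)).coeff (size μ - c) = wcol q κ x c := by
      intro X _ _ κ hκ
      rw [Polynomial.finsetSum_coeff]
      unfold wcol
      apply Finset.sum_congr rfl
      intro φ _
      rw [Polynomial.coeff_C_mul, Polynomial.coeff_X_pow]
      have h1 := cut_le κ φ
      by_cases h2 : cut κ φ = c
      · rw [if_pos h2, if_pos (by omega), mul_one]
      · rw [if_neg h2, if_neg (by omega), mul_zero]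
    rw [← hC μ rfl, ← hC ν hs.symm, hE]
  · have hZ : ∀ {X : Type} [Fintype X] [DecidableEq X] (κ : Sym2 X → ℕ), size κ = size μ →
        wcol q κ x c = 0 := by
      intro X _ _ κ hκ
      unfold wcol
      apply Finset.sum_eq_zero
      intro φ _
      have h1 := cut_le κ φ
      rw [if_neg (by omega)]
    rw [hZ μ rfl, hZ ν hs.symm]

/-- A cut value that occurs for `μ` occurs for `ν` too. -/
theorem exists_col {q : ℝ} (hq : 1 < q) (μ : Sym2 V → ℕ) (ν : Sym2 W → ℕ)
    (h : ∀ x y : ℝ, Bq q μ x y = Bq q ν x y) (x : ℕ) (φ : V → Fin x) :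
    ∃ ψ : W → Fin x, cut ν ψ = cut μ φ := by
  by_contra hn
  push Not at hn
  have h1 : wcol q ν x (cut μ φ) = 0 := by
    unfold wcol
    apply Finset.sum_eq_zero
    intro ψ _
    rw [if_neg (hn ψ)]
  have h2 : 0 < wcol q μ x (cut μ φ) := by
    unfold wcol
    apply Finset.sum_pos'
    · intro ψ _
      split_ifs
      · positivity
      · exact le_rfl
    · refine ⟨φ, Finset.mem_univ _, ?_⟩
      rw [if_pos rfl]
      positivity
  rw [coef hq μ ν h x, h1] at h2
  exact lt_irrefl _ h2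

end Pool.D131
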