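import Pool.Agent.Lib.MP_d131fa_co.Defs

/-!
# The colouring formula for the q-dichromate at natural numbers `x`
-/

namespace Pool.D131

open Finset

variable {V : Type} [Fintype V] [DecidableEq V]

theorem qnum_nat {Q : ℝ} (hQ : Q ≠ 1) (x : ℕ) : qnum Q x = ∑ i : Fin x, Q ^ (i : ℕ) := by
  unfold qnum
  rw [Real.rpow_natCast, ← geom_sum_eq hQ, Finset.sum_range]

open Classical in
theorem prod_comp {q : ℝ} (hq : 1 < q) (H : SimpleGraph V) (x : ℕ) :
    ∏ᶠ c : H.ConnectedComponent, qnum (q ^ c.supp.ncard) x =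
      ∑ φ : V → Fin x, if (∀ a b, H.Adj a b → φ a = φ b) then q ^ (∑ v, (φ v : ℕ)) else 0 := by
  classical
  have hF : Fintype H.ConnectedComponent := Fintype.ofFinite _
  rw [finprod_eq_prod_of_fintype]
  have h1 : ∀ c : H.ConnectedComponent, qnum (q ^ c.supp.ncard) x =
      ∑ i : Fin x, (q ^ c.supp.ncard) ^ (i : ℕ) := by
    intro c
    apply qnum_nat
    have h2 : 0 < c.supp.ncard := by
      rw [Set.ncard_pos (Set.toFinite _)]
      exact c.nonempty_supp
    exact (one_lt_pow₀ hq h2.ne').ne'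
  rw [Finset.prod_congr rfl fun c _ => h1 c, Finset.prod_univ_sum, Fintype.piFinset_univ,
    ← Finset.sum_filter]
  refine Finset.sum_bij (fun ψ _ => fun v => ψ (H.connectedComponentMk v)) ?_ ?_ ?_ ?_
  · intro ψ _
    rw [Finset.mem_filter]
    refine ⟨Finset.mem_univ _, fun a b hab => ?_⟩
    show ψ (H.connectedComponentMk a) = ψ (H.connectedComponentMk b)
    rw [SimpleGraph.ConnectedComponent.sound hab.reachable]
  · intro ψ _ ψ' _ h
    funext c
    obtain ⟨v, rfl⟩ := c.exists_rep
    exact congrFun h v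
  · intro φ hφ
    rw [Finset.mem_filter] at hφ
    have h2 : ∀ a b, H.Reachable a b → φ a = φ b := by
      intro a b hab
      obtain ⟨p⟩ := hab
      induction p with
      | nil => rfl
      | cons h _ ih => exact (hφ.2 _ _ h).trans ih
    refine ⟨fun c => c.lift φ fun a b p _ => h2 a b ⟨p⟩, Finset.mem_univ _, ?_⟩
    funext v
    rfl
  · intro ψ _
    show ∏ c : H.ConnectedComponent, (q ^ c.supp.ncard) ^ (ψ c : ℕ) =
      q ^ (∑ v, (ψ (H.connectedComponentMk v) : ℕ))
    have h3 : ∑ v, (ψ (H.connectedComponentMk v) : ℕ) =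
        ∑ c : H.ConnectedComponent, c.supp.ncard * (ψ c : ℕ) := by
      rw [← Finset.sum_fiberwise (s := (univ : Finset V)) (g := fun v => H.connectedComponentMk v)]
      apply Finset.sum_congr rfl
      intro c _
      rw [Finset.sum_congr rfl (g := fun _ => (ψ c : ℕ)), Finset.sum_const, smul_eq_mul]
      · congr 1
        rw [Set.ncard_eq_toFinset_card']
        congr 1
        ext v
        simp [SimpleGraph.ConnectedComponent.mem_supp_iff]
      · intro v hv
        rw [(Finset.mem_filter.1 hv).2]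
    rw [h3, ← Finset.prod_pow_eq_pow_sum]
    apply Finset.prod_congr rfl
    intro c _
    rw [pow_mul]

/-- The number of edges whose ends have the same colour. -/
theorem card_mono {C : Type} [DecidableEq C] (μ : Sym2 V → ℕ) (φ : V → C) :
    (univ.filter fun e : Edge μ => (e.1.map φ).IsDiag).card = size μ - cut μ φ := by
  have h : (univ.filter fun e : Edge μ => (e.1.map φ).IsDiag).card + cut μ φ = size μ := by
    rw [Finset.card_filter, Fintype.sum_sigma]
    unfold cut size
    rw [← Finset.sum_add_distrib]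
    apply Finset.sum_congr rfl
    intro s _
    by_cases hs : (s.map φ).IsDiag
    · simp [hs]
    · simp [hs]
  omega

theorem cut_le {C : Type} [DecidableEq C] (μ : Sym2 V → ℕ) (φ : V → C) : cut μ φ ≤ size μ := by
  unfold cut size
  apply Finset.sum_le_sum
  intro s _
  split_ifs
  · exact Nat.zero_le _
  · exact le_rfl

theorem sub_iff {C : Type} [DecidableEq C] {μ : Sym2 V → ℕ} (A : Finset (Edge μ)) (φ : V → C) :
    (∀ a b, (sub A).Adj a b → φ a = φ b) ↔
      A ⊆ univ.filter fun e : Edge μ => (e.1.map φ).IsDiag := by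
  constructor
  · intro h e he
    rw [Finset.mem_filter]
    refine ⟨Finset.mem_univ _, ?_⟩
    obtain ⟨s, i⟩ := e
    induction s with
    | h a b =>
      show (s(φ a, φ b)).IsDiag
      rw [Sym2.mk_isDiag_iff]
      by_cases hab : a = b
      · rw [hab]
      · apply h
        unfold sub
        rw [SimpleGraph.fromEdgeSet_adj]
        exact ⟨⟨_, he, rfl⟩, hab⟩
  · intro h a b hab
    unfold sub at hab
    rw [SimpleGraph.fromEdgeSet_adj] at hab
    obtain ⟨⟨e, he, hs⟩, -⟩ := hab
    have h1 := (Finset.mem_filter.1 (h he)).2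
    rw [hs] at h1
    exact h1

/-- The colouring formula. -/
theorem Bq_eq {q : ℝ} (hq : 1 < q) (μ : Sym2 V → ℕ) (x : ℕ) (y : ℝ) :
    Bq q μ x y =
      ∑ φ : V → Fin x, q ^ (∑ v, (φ v : ℕ)) * (1 + y) ^ (size μ - cut μ φ) := by
  classical
  unfold Bq
  have h1 : ∀ A : Finset (Edge μ),
      y ^ A.card * ∏ᶠ c : (sub A).ConnectedComponent, qnum (q ^ c.supp.ncard) x =
      ∑ φ : V → Fin x, if A ⊆ univ.filter (fun e : Edge μ => (e.1.map φ).IsDiag) then
        q ^ (∑ v, (φ v : ℕ)) * y ^ A.card else 0 := by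
    intro A
    rw [prod_comp hq, Finset.mul_sum]
    apply Finset.sum_congr rfl
    intro φ _
    by_cases h : A ⊆ univ.filter (fun e : Edge μ => (e.1.map φ).IsDiag)
    · rw [if_pos h, if_pos ((sub_iff A φ).2 h), mul_comm]
    · rw [if_neg h, if_neg (fun h' => h ((sub_iff A φ).1 h')), mul_zero]
  rw [Finset.sum_congr rfl fun A _ => h1 A, Finset.sum_comm]
  apply Finset.sum_congr rfl
  intro φ _
  rw [← Finset.sum_filter, ← Finset.mul_sum, ← card_mono μ φ]
  congr 1
  have h2 : (univ.filter fun A : Finset (Edge μ) =>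
      A ⊆ univ.filter (fun e : Edge μ => (e.1.map φ).IsDiag)) =
      (univ.filter (fun e : Edge μ => (e.1.map φ).IsDiag)).powerset := by
    ext A
    simp
  rw [h2, add_comm (1 : ℝ) y, ← Finset.sum_pow_mul_eq_add_pow]
  apply Finset.sum_congr rfl
  intro A _
  rw [one_pow, mul_one]

end Pool.D131
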