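import Mathlib

/-!
# The q-dichromate and the U-polynomial: definitions and the colouring formula

A finite graph with loops and parallel edges on the vertex set `V` is given by the number `μ s` of
edges with ends `s`, for `s : Sym2 V` (for `s = s(v, v)` these are the loops at `v`).
-/

namespace Pool.D131

open Finset

/-- The edges of the graph with multiplicities `μ`. -/
abbrev Edge {V : Type} (μ : Sym2 V → ℕ) : Type := Σ s : Sym2 V, Fin (μ s)

/-- The spanning subgraph `(V, A)`, without its loops and without multiplicities: it has the same
connected components as `(V, A)`. -/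
def sub {V : Type} {μ : Sym2 V → ℕ} (A : Finset (Edge μ)) : SimpleGraph V :=
  SimpleGraph.fromEdgeSet {s | ∃ e ∈ A, e.1 = s}

/-- The quantum number `(x)_Q = (Q ^ x - 1) / (Q - 1)`. -/
noncomputable def qnum (Q x : ℝ) : ℝ := (Q ^ x - 1) / (Q - 1)

/-- The q-dichromate `B_q(G; x, y)`: the sum over all sets `A` of edges of `y ^ |A|` times the
product of `(x)_{q ^ k}` over the components of `(V, A)`, where `k` is the number of vertices of the
component. -/
noncomputable def Bq {V : Type} [Fintype V] [DecidableEq V] (q : ℝ) (μ : Sym2 V → ℕ) (x y : ℝ) : ℝ :=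
  ∑ A : Finset (Edge μ), y ^ A.card * ∏ᶠ c : (sub A).ConnectedComponent, qnum (q ^ c.supp.ncard) x

/-- The U-polynomial `U(G; x_1, x_2, ..., y)`, as a polynomial in `y` over the ring of the
polynomials in the `x_i`: the sum over all sets `A` of edges of the product of `x_k` over the
components of `(V, A)` (`k` the number of vertices of the component) times
`(y - 1) ^ (|A| - r(A))`, where `r(A)` is `|V|` minus the number of components. -/
noncomputable def U {V : Type} [Fintype V] [DecidableEq V] (μ : Sym2 V → ℕ) :
    Polynomial (MvPolynomial ℕ ℤ) :=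
  ∑ A : Finset (Edge μ),
    Polynomial.C (∏ᶠ c : (sub A).ConnectedComponent, MvPolynomial.X c.supp.ncard) *
      (Polynomial.X - 1) ^ (A.card - (Fintype.card V - Nat.card (sub A).ConnectedComponent))

/-- The number of edges whose ends get different colours. -/
def cut {V C : Type} [Fintype V] [DecidableEq V] [DecidableEq C] (μ : Sym2 V → ℕ) (φ : V → C) : ℕ :=
  ∑ s : Sym2 V, if (s.map φ).IsDiag then 0 else μ s

/-- The number of edges. -/
def size {V : Type} [Fintype V] [DecidableEq V] (μ : Sym2 V → ℕ) : ℕ := ∑ s : Sym2 V, μ s

end Pool.D131
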