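import Pool.Agent.Lib.MP_d131fa_co.Defs

/-!
# Isomorphic graphs (up to the position of the loops) have the same U-polynomial
-/

namespace Pool.D131

open Finset

set_option linter.unusedSectionVars false

variable {V W : Type} [Fintype V] [DecidableEq V] [Fintype W] [DecidableEq W]

theorem card_loop (μ : Sym2 V → ℕ) :
    Fintype.card {x : Edge μ // x.1.IsDiag} = ∑ s : Sym2 V, if s.IsDiag then μ s else 0 := by
  rw [Fintype.card_subtype, Finset.card_filter, Fintype.sum_sigma]
  apply Finset.sum_congr rfl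
  intro s _
  split_ifs <;> simp

theorem card_nonloop (μ : Sym2 V → ℕ) :
    Fintype.card {x : Edge μ // ¬ x.1.IsDiag} = ∑ s : Sym2 V, if s.IsDiag then 0 else μ s := by
  rw [Fintype.card_subtype, Finset.card_filter, Fintype.sum_sigma]
  apply Finset.sum_congr rfl
  intro s _
  split_ifs <;> simp_all

theorem diag_map (e : V ≃ W) (s : Sym2 V) : (s.map e).IsDiag ↔ s.IsDiag := by
  induction s with
  | h a b =>
    show (s(e a, e b)).IsDiag ↔ (s(a, b)).IsDiag
    rw [Sym2.mk_isDiag_iff, Sym2.mk_isDiag_iff]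
    exact e.injective.eq_iff

/-- The equivalence of the pairs. -/
def symE (e : V ≃ W) : Sym2 V ≃ Sym2 W where
  toFun := Sym2.map e
  invFun := Sym2.map e.symm
  left_inv := by
    intro s
    induction s with
    | h a b => simp
  right_inv := by
    intro s
    induction s with
    | h a b => simp

/-- The equivalence of the edges. -/
theorem exists_edge_equiv (e : V ≃ W) (μ : Sym2 V → ℕ) (ν : Sym2 W → ℕ)
    (h : ∀ s : Sym2 V, ¬ s.IsDiag → ν (s.map e) = μ s) (hs : size μ = size ν) :
    ∃ E : Edge μ ≃ Edge ν, (∀ x, ¬ x.1.IsDiag → (E x).1 = x.1.map e) ∧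
      ∀ x, x.1.IsDiag → (E x).1.IsDiag := by
  classical
  let f : {x : Edge μ // ¬ x.1.IsDiag} → {x : Edge ν // ¬ x.1.IsDiag} := fun x =>
    ⟨⟨x.1.1.map e, ⟨x.1.2.1, by rw [h _ x.2]; exact x.1.2.2⟩⟩, fun h' => x.2 ((diag_map e _).1 h')⟩
  have hf : Function.Injective f := by
    rintro ⟨⟨s, i⟩, hx⟩ ⟨⟨t, j⟩, hy⟩ hxy
    have h1 : (⟨s.map e, ⟨i.1, by rw [h _ hx]; exact i.2⟩⟩ : Edge ν) =
        ⟨t.map e, ⟨j.1, by rw [h _ hy]; exact j.2⟩⟩ := congrArg Subtype.val hxy
    have h2 : s.map e = t.map e := congrArg Sigma.fst h1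
    have h3 : s = t := Sym2.map.injective e.injective h2
    subst h3
    have h4 := eq_of_heq (Sigma.mk.inj h1).2
    have h5' := Fin.ext_iff.1 h4
    have h5 : i.1 = j.1 := h5'
    have h6 : i = j := Fin.ext h5
    subst h6
    rfl
  have hnl : Fintype.card {x : Edge μ // ¬ x.1.IsDiag} =
      Fintype.card {x : Edge ν // ¬ x.1.IsDiag} := by
    rw [card_nonloop, card_nonloop]
    refine Fintype.sum_equiv (symE e) _ _ ?_
    intro s
    have h1 : symE e s = s.map e := rfl
    rw [h1]
    by_cases hd : s.IsDiag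
    · rw [if_pos hd, if_pos ((diag_map e s).2 hd)]
    · rw [if_neg hd, if_neg (fun h' => hd ((diag_map e s).1 h')), h s hd]
  have hl : Fintype.card {x : Edge μ // x.1.IsDiag} = Fintype.card {x : Edge ν // x.1.IsDiag} := by
    have h1 : ∀ {X : Type} [Fintype X] [DecidableEq X] (κ : Sym2 X → ℕ),
        Fintype.card {x : Edge κ // x.1.IsDiag} + Fintype.card {x : Edge κ // ¬ x.1.IsDiag} =
          size κ := by
      intro X _ _ κ
      rw [card_loop, card_nonloop, ← Finset.sum_add_distrib]
      unfold size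
      apply Finset.sum_congr rfl
      intro s _
      split_ifs <;> omega
    have h2 := h1 μ
    have h3 := h1 ν
    omega
  have hfb : Function.Bijective f := (Fintype.bijective_iff_injective_and_card f).2 ⟨hf, hnl⟩
  let F := Equiv.ofBijective f hfb
  let G := Fintype.equivOfCardEq hl
  let E : Edge μ ≃ Edge ν :=
    (Equiv.sumCompl (fun x : Edge μ => x.1.IsDiag)).symm.trans
      ((Equiv.sumCongr G F).trans (Equiv.sumCompl (fun x : Edge ν => x.1.IsDiag)))
  refine ⟨E, ?_, ?_⟩
  · intro x hx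
    have h1 : E x = (f ⟨x, hx⟩).1 := by
      show (Equiv.sumCompl (fun x : Edge ν => x.1.IsDiag)) ((Equiv.sumCongr G F)
        ((Equiv.sumCompl (fun x : Edge μ => x.1.IsDiag)).symm x)) = _
      rw [Equiv.sumCompl_symm_apply_of_neg (p := fun x : Edge μ => x.1.IsDiag) hx]
      rfl
    rw [h1]
  · intro x hx
    have h1 : E x = (G ⟨x, hx⟩).1 := by
      show (Equiv.sumCompl (fun x : Edge ν => x.1.IsDiag)) ((Equiv.sumCongr G F)
        ((Equiv.sumCompl (fun x : Edge μ => x.1.IsDiag)).symm x)) = _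
      rw [Equiv.sumCompl_symm_apply_of_pos (p := fun x : Edge μ => x.1.IsDiag) hx]
      rfl
    rw [h1]
    exact (G ⟨x, hx⟩).2

/-- The isomorphism of the spanning subgraphs. -/
theorem sub_adj (e : V ≃ W) {μ : Sym2 V → ℕ} {ν : Sym2 W → ℕ} (E : Edge μ ≃ Edge ν)
    (h1 : ∀ x, ¬ x.1.IsDiag → (E x).1 = x.1.map e) (h2 : ∀ x, x.1.IsDiag → (E x).1.IsDiag)
    (A : Finset (Edge μ)) (a b : V) :
    (sub (A.map E.toEmbedding)).Adj (e a) (e b) ↔ (sub A).Adj a b := by
  unfold sub
  rw [SimpleGraph.fromEdgeSet_adj, SimpleGraph.fromEdgeSet_adj]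
  constructor
  · rintro ⟨⟨x', hx', hs⟩, hne⟩
    obtain ⟨x, hx, rfl⟩ := Finset.mem_map.1 hx'
    refine ⟨⟨x, hx, ?_⟩, fun h => hne (congrArg e h)⟩
    have h3 : ¬ x.1.IsDiag := by
      intro hd
      have h4 := h2 x hd
      have h5 : (E x).1 = s(e a, e b) := hs
      rw [h5] at h4
      exact hne (Sym2.mk_isDiag_iff.1 h4)
    have h5 : (E x).1 = s(e a, e b) := hs
    rw [h1 x h3] at h5
    exact Sym2.map.injective e.injective h5
  · rintro ⟨⟨x, hx, hs⟩, hne⟩
    refine ⟨⟨E x, Finset.mem_map.2 ⟨x, hx, rfl⟩, ?_⟩, fun h => hne (e.injective h)⟩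
    rw [h1 x, hs]
    · rfl
    · rw [hs]
      exact fun h => hne (Sym2.mk_isDiag_iff.1 h)

theorem ncard_comp {G : SimpleGraph V} {H : SimpleGraph W} (g : G ≃g H)
    (c : G.ConnectedComponent) : (g.connectedComponentEquiv c).supp.ncard = c.supp.ncard := by
  obtain ⟨v, rfl⟩ := c.exists_rep
  have h1 : (g.connectedComponentEquiv (Quot.mk G.Reachable v)).supp =
      g '' (SimpleGraph.ConnectedComponent.supp (Quot.mk G.Reachable v)) := by
    ext w
    obtain ⟨u, rfl⟩ := g.surjective w
    constructor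
    · intro hw
      refine ⟨u, ?_, rfl⟩
      have h2 : H.connectedComponentMk (g u) = H.connectedComponentMk (g v) := hw
      have h3 := SimpleGraph.ConnectedComponent.exact h2
      have h4 : G.Reachable u v := g.reachable_iff.1 h3
      exact SimpleGraph.ConnectedComponent.sound h4
    · rintro ⟨u', hu', h⟩
      have h2 : u' = u := g.injective h
      subst h2
      have h3 : G.connectedComponentMk u' = G.connectedComponentMk v := hu'
      have h4 := SimpleGraph.ConnectedComponent.exact h3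
      show H.connectedComponentMk (g u') = H.connectedComponentMk (g v)
      exact SimpleGraph.ConnectedComponent.sound (g.reachable_iff.2 h4)
  rw [h1]
  exact Set.ncard_image_of_injective _ g.injective

theorem U_eq (e : V ≃ W) (μ : Sym2 V → ℕ) (ν : Sym2 W → ℕ)
    (h : ∀ s : Sym2 V, ¬ s.IsDiag → ν (s.map e) = μ s) (hs : size μ = size ν) : U μ = U ν := by
  classical
  obtain ⟨E, h1, h2⟩ := exists_edge_equiv e μ ν h hs
  unfold U
  refine Fintype.sum_equiv (Equiv.finsetCongr E) _ _ ?_
  intro A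
  have h3 : (Equiv.finsetCongr E) A = A.map E.toEmbedding := rfl
  rw [h3, Finset.card_map]
  let g : sub A ≃g sub (A.map E.toEmbedding) := ⟨e, fun {a b} => sub_adj e E h1 h2 A a b⟩
  have h4 : Nat.card (sub A).ConnectedComponent =
      Nat.card (sub (A.map E.toEmbedding)).ConnectedComponent :=
    Nat.card_congr g.connectedComponentEquiv
  have h5 : Fintype.card V = Fintype.card W := Fintype.card_congr e
  rw [h4, h5]
  congr 2
  rw [← finprod_comp_equiv g.connectedComponentEquiv]
  apply finprod_congr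
  intro c
  rw [ncard_comp]

end Pool.D131
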