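import Pool.Agent.Lib.MP_d131fa_co.Rec
import Pool.Agent.Lib.MP_d131fa_co.UEq

/-!
# Determined graphs: explicit examples and almost all multigraphs
-/

namespace Pool.D131

open Finset

set_option linter.unusedSectionVars false

variable {V W : Type} [Fintype V] [DecidableEq V] [Fintype W] [DecidableEq W]

/-- The graph is determined by each of its q-dichromates, `q > 1`, up to the position of its loops,
and every graph with the same q-dichromate for one `q > 1` has the same U-polynomial. -/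
def Determined (μ : Sym2 V → ℕ) : Prop :=
  ∀ (q : ℝ), 1 < q → ∀ (W : Type) [Fintype W] [DecidableEq W] (ν : Sym2 W → ℕ),
    (∀ x y : ℝ, Bq q μ x y = Bq q ν x y) →
      U μ = U ν ∧ size μ = size ν ∧ ∃ e : V ≃ W, ∀ s : Sym2 V, ¬ s.IsDiag → ν (s.map e) = μ s

theorem determined {μ : Sym2 V → ℕ} (hi : Indep μ) (hc : Conn μ) : Determined μ := by
  intro q hq W _ _ ν h
  obtain ⟨e, he⟩ := exists_iso hq hi hc ν h
  exact ⟨U_eq e μ ν he (size_eq hq μ ν h), size_eq hq μ ν h, e, he⟩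

/-- Distinct powers of `7` are independent. -/
theorem indep_pow {μ : Sym2 V → ℕ} (h1 : ∀ s, ¬ s.IsDiag → μ s ≠ 0 → ∃ k, μ s = 7 ^ k)
    (h2 : ∀ s t, ¬ s.IsDiag → ¬ t.IsDiag → μ s ≠ 0 → μ s = μ t → s = t) : Indep μ := by
  classical
  intro c hc hsum s hs h0
  by_contra hcs
  let T : Finset (Sym2 V) := univ.filter fun s => ¬ s.IsDiag ∧ μ s ≠ 0 ∧ c s ≠ 0
  have hT : T.Nonempty := ⟨s, by
    rw [Finset.mem_filter]
    exact ⟨Finset.mem_univ _, hs, h0, hcs⟩⟩
  obtain ⟨t, ht, hmin⟩ := Finset.exists_min_image T μ hT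
  obtain ⟨-, ht1, ht2, ht3⟩ := Finset.mem_filter.1 ht
  obtain ⟨k, hk⟩ := h1 t ht1 ht2
  have hdvd : (7 : ℤ) ^ (k + 1) ∣ ∑ s ∈ univ.erase t, if s.IsDiag then 0 else c s * (μ s : ℤ) := by
    apply Finset.dvd_sum
    intro s hs
    have hst := (Finset.mem_erase.1 hs).1
    split_ifs with hd
    · exact dvd_zero _
    · by_cases h3 : μ s = 0
      · rw [h3]
        simp
      by_cases h4 : c s = 0
      · rw [h4]
        simp
      have h5 : s ∈ T := Finset.mem_filter.2 ⟨Finset.mem_univ _, hd, h3, h4⟩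
      have h6 := hmin s h5
      obtain ⟨j, hj⟩ := h1 s hd h3
      have h7 : k ≠ j := by
        intro hkj
        apply hst
        apply h2 s t hd ht1 h3
        rw [hj, hk, hkj]
      have h8 : k ≤ j := by
        rw [hj, hk] at h6
        exact (Nat.pow_le_pow_iff_right (by norm_num)).1 h6
      apply Dvd.dvd.mul_left
      rw [hj]
      push_cast
      exact pow_dvd_pow _ (by omega)
  rw [← Finset.add_sum_erase _ _ (Finset.mem_univ t), if_neg ht1, hk] at hsum
  have h9 : (7 : ℤ) ^ (k + 1) ∣ c t * ((7 ^ k : ℕ) : ℤ) := by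
    rw [← dvd_add_left hdvd, hsum]
    exact dvd_zero _
  have h10 : (7 : ℤ) ∣ c t := by
    push_cast at h9
    rw [pow_succ, mul_comm ((7 : ℤ) ^ k) 7] at h9
    exact Int.dvd_of_mul_dvd_mul_right (by positivity) h9
  have h11 := hc t
  obtain ⟨d, hd⟩ := h10
  rw [abs_le] at h11
  omega

/-- The complete graph is connected. -/
theorem conn_of_all {n : ℕ} (hn : 1 ≤ n) (μ : Sym2 (Fin n) → ℕ)
    (h : ∀ s, ¬ s.IsDiag → μ s ≠ 0) : Conn μ := by
  unfold Conn
  have h1 : Nonempty (Fin n) := ⟨⟨0, hn⟩⟩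
  refine { preconnected := ?_, nonempty := h1 }
  intro a b
  by_cases hab : a = b
  · rw [hab]
  · apply SimpleGraph.Adj.reachable
    rw [SimpleGraph.fromEdgeSet_adj]
    exact ⟨h _ (fun h' => hab (Sym2.mk_isDiag_iff.1 h')), hab⟩

/-- The multigraphs with multiplicities at most `M` that satisfy the relation `c`. -/
def Rel {n M : ℕ} (c : {s : Sym2 (Fin n) // ¬ s.IsDiag} → Fin 7) (μ : Sym2 (Fin n) → Fin (M + 1)) :
    Prop :=
  (∑ s : {s : Sym2 (Fin n) // ¬ s.IsDiag}, (((c s : ℕ) : ℤ) - 3) * ((μ s.1 : ℕ) : ℤ)) = 0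

theorem card_rel {n M : ℕ} (c : {s : Sym2 (Fin n) // ¬ s.IsDiag} → Fin 7)
    (hc : ∃ s, c s ≠ 3) :
    (M + 1) * Nat.card {μ : Sym2 (Fin n) → Fin (M + 1) // Rel c μ} ≤
      (M + 1) ^ ((n + 1).choose 2) := by
  classical
  obtain ⟨s0, hs0⟩ := hc
  let g : Fin (M + 1) × {μ : Sym2 (Fin n) → Fin (M + 1) // Rel c μ} →
      (Sym2 (Fin n) → Fin (M + 1)) := fun x => Function.update x.2.1 s0.1 x.1
  have hg : Function.Injective g := by
    rintro ⟨t, μ, hμ⟩ ⟨t', μ', hμ'⟩ h
    have h1 : ∀ s, Function.update μ s0.1 t s = Function.update μ' s0.1 t' s := fun s =>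
      congrFun h s
    have h2 : t = t' := by
      have h3 := h1 s0.1
      rw [Function.update_self, Function.update_self] at h3
      exact h3
    have h4 : ∀ s, s ≠ s0.1 → μ s = μ' s := by
      intro s hs
      have h3 := h1 s
      rw [Function.update_of_ne hs, Function.update_of_ne hs] at h3
      exact h3
    have h5 : μ s0.1 = μ' s0.1 := by
      unfold Rel at hμ hμ'
      rw [← Finset.add_sum_erase _ _ (Finset.mem_univ s0)] at hμ hμ'
      have h6 : ∑ s ∈ univ.erase s0, (((c s : ℕ) : ℤ) - 3) * ((μ s.1 : ℕ) : ℤ) =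
          ∑ s ∈ univ.erase s0, (((c s : ℕ) : ℤ) - 3) * ((μ' s.1 : ℕ) : ℤ) := by
        apply Finset.sum_congr rfl
        intro s hs
        rw [h4 s.1 (fun h => (Finset.mem_erase.1 hs).1 (Subtype.ext h))]
      rw [h6] at hμ
      have h7 : (((c s0 : ℕ) : ℤ) - 3) * ((μ s0.1 : ℕ) : ℤ) =
          (((c s0 : ℕ) : ℤ) - 3) * ((μ' s0.1 : ℕ) : ℤ) := by linarith
      have h8 : (((c s0 : ℕ) : ℤ) - 3) ≠ 0 := by
        intro h9
        apply hs0
        have h10 : (c s0 : ℕ) = 3 := by omega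
        exact Fin.ext h10
      have h11 := mul_left_cancel₀ h8 h7
      exact Fin.ext (by exact_mod_cast h11)
    subst h2
    have h6 : μ = μ' := by
      funext s
      by_cases hs : s = s0.1
      · rw [hs, h5]
      · exact h4 s hs
    subst h6
    rfl
  have h1 := Nat.card_le_card_of_injective g hg
  rw [Nat.card_prod, Nat.card_eq_fintype_card (α := Fin (M + 1)), Fintype.card_fin,
    Nat.card_eq_fintype_card (α := Sym2 (Fin n) → Fin (M + 1)), Fintype.card_fun,
    Fintype.card_fin, Sym2.card, Fintype.card_fin] at h1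
  exact h1

theorem bad_subset {n M : ℕ} (hn : 1 ≤ n) (μ : Sym2 (Fin n) → Fin (M + 1))
    (h : ∀ c : {s : Sym2 (Fin n) // ¬ s.IsDiag} → Fin 7, (∃ s, c s ≠ 3) → ¬ Rel c μ) :
    Determined (fun s => (μ s : ℕ)) := by
  classical
  have key : ∀ c : Sym2 (Fin n) → ℤ, (∀ s, |c s| ≤ 3) →
      (∑ s, if s.IsDiag then 0 else c s * ((μ s : ℕ) : ℤ)) = 0 → ∀ s, ¬ s.IsDiag → c s = 0 := by
    intro c hc hsum s hs
    by_contra hcs
    refine h (fun s => ⟨(c s.1 + 3).toNat, ?_⟩) ⟨⟨s, hs⟩, ?_⟩ ?_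
    · have h1 := abs_le.1 (hc s.1)
      omega
    · intro h2
      have h3 := congrArg Fin.val h2
      have h1 := abs_le.1 (hc s)
      have h4 : (c s + 3).toNat = 3 := h3
      omega
    · unfold Rel
      have h5 : ∀ s : {s : Sym2 (Fin n) // ¬ s.IsDiag},
          ((((⟨(c s.1 + 3).toNat, by
            have h1 := abs_le.1 (hc s.1)
            omega⟩ : Fin 7) : ℕ) : ℤ) - 3) * ((μ s.1 : ℕ) : ℤ) = c s.1 * ((μ s.1 : ℕ) : ℤ) := by
        intro s
        have h1 := abs_le.1 (hc s.1)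
        have h2 : (((c s.1 + 3).toNat : ℕ) : ℤ) = c s.1 + 3 := Int.toNat_of_nonneg (by omega)
        show ((((c s.1 + 3).toNat : ℕ) : ℤ) - 3) * ((μ s.1 : ℕ) : ℤ) = _
        rw [h2]
        ring
      rw [Finset.sum_congr rfl fun s _ => h5 s]
      rw [← hsum]
      have h6 : ∀ s : Sym2 (Fin n), (if s.IsDiag then 0 else c s * ((μ s : ℕ) : ℤ)) =
          if ¬ s.IsDiag then c s * ((μ s : ℕ) : ℤ) else 0 := by
        intro s
        split_ifs <;> rfl
      rw [Finset.sum_congr rfl fun s _ => h6 s, ← Finset.sum_filter]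
      exact (Finset.sum_subtype _ (by simp) (fun s => c s * ((μ s : ℕ) : ℤ))).symm
  have hi : Indep (fun s => (μ s : ℕ)) := fun c hc hsum s hs _ => key c hc hsum s hs
  have hall : ∀ s, ¬ s.IsDiag → (μ s : ℕ) ≠ 0 := by
    intro s hs h0
    have h1 := key (fun t => if t = s then 1 else 0) (by
      intro t
      split_ifs <;> norm_num) (by
      apply Finset.sum_eq_zero
      intro t _
      by_cases hts : t = s
      · rw [hts, h0]
        simp
      · simp [hts]) s hs
    rw [if_pos rfl] at h1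
    exact one_ne_zero h1
  exact determined hi (conn_of_all hn _ hall)

theorem density {n M : ℕ} (hn : 1 ≤ n) :
    (M + 1) * Nat.card {μ : Sym2 (Fin n) → Fin (M + 1) // ¬ Determined (fun s => (μ s : ℕ))} ≤
      7 ^ (n.choose 2) * (M + 1) ^ ((n + 1).choose 2) := by
  classical
  have h1 : (univ.filter fun μ : Sym2 (Fin n) → Fin (M + 1) =>
      ¬ Determined (fun s => (μ s : ℕ))) ⊆
      (univ.filter fun c : {s : Sym2 (Fin n) // ¬ s.IsDiag} → Fin 7 => ∃ s, c s ≠ 3).biUnion
        fun c => univ.filter fun μ : Sym2 (Fin n) → Fin (M + 1) => Rel c μ := by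
    intro μ hμ
    rw [Finset.mem_filter] at hμ
    by_contra hn'
    apply hμ.2
    apply bad_subset hn
    intro c hc hr
    apply hn'
    rw [Finset.mem_biUnion]
    exact ⟨c, Finset.mem_filter.2 ⟨Finset.mem_univ _, hc⟩,
      Finset.mem_filter.2 ⟨Finset.mem_univ _, hr⟩⟩
  have h2 : Nat.card {μ : Sym2 (Fin n) → Fin (M + 1) // ¬ Determined (fun s => (μ s : ℕ))} =
      (univ.filter fun μ : Sym2 (Fin n) → Fin (M + 1) =>
      ¬ Determined (fun s => (μ s : ℕ))).card := by
    rw [Nat.card_eq_fintype_card, Fintype.card_subtype]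
  have h3 : ∀ c : {s : Sym2 (Fin n) // ¬ s.IsDiag} → Fin 7,
      Nat.card {μ : Sym2 (Fin n) → Fin (M + 1) // Rel c μ} =
      (univ.filter fun μ : Sym2 (Fin n) → Fin (M + 1) => Rel c μ).card := by
    intro c
    rw [Nat.card_eq_fintype_card, Fintype.card_subtype]
  rw [h2]
  calc (M + 1) * (univ.filter fun μ : Sym2 (Fin n) → Fin (M + 1) =>
      ¬ Determined (fun s => (μ s : ℕ))).card
      ≤ (M + 1) * ∑ c ∈ univ.filter fun c : {s : Sym2 (Fin n) // ¬ s.IsDiag} → Fin 7 =>
          ∃ s, c s ≠ 3, (univ.filter fun μ : Sym2 (Fin n) → Fin (M + 1) => Rel c μ).card :=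
        Nat.mul_le_mul_left _ ((Finset.card_le_card h1).trans Finset.card_biUnion_le)
    _ = ∑ c ∈ univ.filter fun c : {s : Sym2 (Fin n) // ¬ s.IsDiag} → Fin 7 =>
          ∃ s, c s ≠ 3, (M + 1) *
            (univ.filter fun μ : Sym2 (Fin n) → Fin (M + 1) => Rel c μ).card := by
        rw [Finset.mul_sum]
    _ ≤ ∑ c ∈ univ.filter fun c : {s : Sym2 (Fin n) // ¬ s.IsDiag} → Fin 7 =>
          ∃ s, c s ≠ 3, (M + 1) ^ ((n + 1).choose 2) := by
        apply Finset.sum_le_sum
        intro c hc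
        rw [← h3]
        exact card_rel c (Finset.mem_filter.1 hc).2
    _ ≤ 7 ^ (n.choose 2) * (M + 1) ^ ((n + 1).choose 2) := by
        rw [Finset.sum_const, smul_eq_mul]
        apply Nat.mul_le_mul_right
        refine (Finset.card_le_univ _).trans ?_
        rw [Fintype.card_fun, Fintype.card_fin, Sym2.card_subtype_not_diag, Fintype.card_fin]

end Pool.D131
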