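import Pool.Agent.Lib.MP_d131fa_co.Sp3

/-!
# The numbers of vertex sets of given size and given small boundary are determined
-/

namespace Pool.D131

open Finset

set_option linter.unusedSectionVars false

variable {V W : Type} [Fintype V] [DecidableEq V] [Fintype W] [DecidableEq W]

/-- The colourings with cut value `c` take exactly two values. -/
def TwoV (μ : Sym2 V → ℕ) (c : ℕ) : Prop :=
  ∀ (x : ℕ) (φ : V → Fin x), cut μ φ = c → ∃ a b, φ a ≠ φ b ∧ ∀ v, φ v = φ a ∨ φ v = φ b

theorem wcol_succ' (q : ℝ) {μ : Sym2 V → ℕ} {c : ℕ} (hT : TwoV μ c) (hc1 : 1 ≤ c) (x : ℕ) :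
    wcol q μ (x + 1) c = wcol q μ x c +
      ∑ φ ∈ (univ : Finset (V → Fin 2)).filter (fun φ => cut μ φ = c),
        ∑ i : Fin x, q ^ (x * (∑ v, (φ v : ℕ)) + i * ∑ v, ((φ + 1) v : ℕ)) := by
  classical
  unfold wcol
  rw [← Finset.sum_filter, ← Finset.sum_filter,
    ← Finset.sum_filter_add_sum_filter_not (univ.filter fun φ : V → Fin (x + 1) => cut μ φ = c)
      (fun φ => ∀ v, φ v ≠ Fin.last x)]
  congr 1
  · symm
    refine Finset.sum_bij (fun φ _ => fun v => (φ v).castSucc) ?_ ?_ ?_ ?_
    · intro φ hφ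
      rw [Finset.mem_filter, Finset.mem_filter]
      refine ⟨⟨Finset.mem_univ _, ?_⟩, fun v => (Fin.castSucc_lt_last _).ne⟩
      rw [cut_castSucc]
      exact (Finset.mem_filter.1 hφ).2
    · intro φ _ ψ _ h
      funext v
      exact Fin.castSucc_injective x (congrFun h v)
    · intro φ hφ
      rw [Finset.mem_filter, Finset.mem_filter] at hφ
      refine ⟨fun v => (φ v).castPred (hφ.2 v), ?_, ?_⟩
      · rw [Finset.mem_filter]
        refine ⟨Finset.mem_univ _, ?_⟩
        rw [← cut_castSucc]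
        have h1 : (fun v => ((φ v).castPred (hφ.2 v)).castSucc) = φ := by
          funext v
          exact Fin.castSucc_castPred _ _
        rw [h1]
        exact hφ.1.2
      · funext v
        exact Fin.castSucc_castPred _ _
    · intro φ _
      rfl
  · rw [← Finset.sum_product']
    symm
    refine Finset.sum_bij (fun p _ => ext1 p.1 p.2) ?_ ?_ ?_ ?_
    · rintro ⟨φ, i⟩ hp
      rw [Finset.mem_product, Finset.mem_filter] at hp
      rw [Finset.mem_filter, Finset.mem_filter]
      refine ⟨⟨Finset.mem_univ _, ?_⟩, ?_⟩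
      · rw [cut_ext1]
        exact hp.1.2
      · push Not
        by_contra hn
        push Not at hn
        have h1 : cut μ φ = 0 := by
          apply cut_const
          intro a b
          rw [← ext1_eq φ i a b]
          have h2 : ∀ v, φ v = 0 := by
            intro v
            have h3 := hn v
            unfold ext1 at h3
            by_contra h4
            have h5 : φ v = 1 := by
              revert h4
              generalize φ v = t
              revert t
              decide
            exact h3 (if_pos h5)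
          rw [ext1_eq, h2, h2]
        have h2 : cut μ φ = c := hp.1.2
        omega
    · rintro ⟨φ, i⟩ hp ⟨ψ, j⟩ _ h
      have h1 : ∀ v, ext1 φ i v = ext1 ψ j v := fun v => congrFun h v
      have h2 : φ = ψ := by
        funext v
        have h3 := h1 v
        unfold ext1 at h3
        have h4 : ∀ t : Fin 2, t = 0 ∨ t = 1 := by decide
        have hi : i.castSucc ≠ Fin.last x := (Fin.castSucc_lt_last i).ne
        have hj : j.castSucc ≠ Fin.last x := (Fin.castSucc_lt_last j).ne
        rcases h4 (φ v) with ha | ha <;> rcases h4 (ψ v) with hb | hb <;> rw [ha, hb] <;>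
          rw [ha, hb] at h3
        · rw [if_neg (by decide), if_pos rfl] at h3
          exact absurd h3 hi
        · rw [if_pos rfl, if_neg (by decide)] at h3
          exact absurd h3.symm hj
      subst h2
      have h5 : ∃ v, φ v = 0 := by
        by_contra hn
        push Not at hn
        have h6 : cut μ φ = 0 := by
          apply cut_const
          intro a b
          have h7 : ∀ t : Fin 2, t ≠ 0 → t = 1 := by decide
          rw [h7 _ (hn a), h7 _ (hn b)]
        rw [Finset.mem_product, Finset.mem_filter] at hp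
        have h8 : cut μ φ = c := hp.1.2
        omega
      obtain ⟨v, hv⟩ := h5
      have h6 := h1 v
      unfold ext1 at h6
      rw [hv, if_neg (by decide), if_neg (by decide)] at h6
      have h7 := Fin.castSucc_injective x h6
      rw [h7]
    · intro φ hφ
      rw [Finset.mem_filter, Finset.mem_filter] at hφ
      obtain ⟨⟨-, h1⟩, h2⟩ := hφ
      push Not at h2
      obtain ⟨v1, hv1⟩ := h2
      obtain ⟨a, b, hab, h3⟩ := hT (x + 1) φ h1
      have h4 : ∃ u, φ u ≠ Fin.last x ∧ ∀ v, φ v = Fin.last x ∨ φ v = φ u := by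
        rcases h3 v1 with h5 | h5
        · refine ⟨b, ?_, ?_⟩
          · rw [← hv1, h5]
            exact Ne.symm hab
          · intro v
            rw [← hv1, h5]
            exact h3 v
        · refine ⟨a, ?_, ?_⟩
          · rw [← hv1, h5]
            exact hab
          · intro v
            rw [← hv1, h5]
            exact (h3 v).symm
      obtain ⟨u, hu1, hu2⟩ := h4
      have h6 : ext1 (fun v => if φ v = Fin.last x then 1 else 0) ((φ u).castPred hu1) = φ := by
        funext v
        unfold ext1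
        beta_reduce
        by_cases h7 : φ v = Fin.last x
        · rw [if_pos h7, if_pos rfl, h7]
        · rw [if_neg h7, if_neg (by decide), Fin.castSucc_castPred]
          exact ((hu2 v).resolve_left h7).symm
      refine ⟨(fun v => if φ v = Fin.last x then 1 else 0, (φ u).castPred hu1), ?_, h6⟩
      rw [Finset.mem_product, Finset.mem_filter]
      refine ⟨⟨Finset.mem_univ _, ?_⟩, Finset.mem_univ _⟩
      rw [← cut_ext1 μ _ ((φ u).castPred hu1), h6]
      exact h1
    · rintro ⟨φ, i⟩ _
      show q ^ (x * (∑ v, (φ v : ℕ)) + i * ∑ v, ((φ + 1) v : ℕ)) = q ^ (∑ v, (ext1 φ i v : ℕ))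
      rw [wt_ext1]

/-- The number of vertex sets of size `s` with `c` boundary edges. -/
def cc (μ : Sym2 V → ℕ) (c s : ℕ) : ℕ :=
  ((univ : Finset (V → Fin 2)).filter fun φ : V → Fin 2 => cut μ φ = c ∧ ∑ v, (φ v : ℕ) = s).card

theorem wt_lt' {μ : Sym2 V → ℕ} {c : ℕ} (hc1 : 1 ≤ c) {φ : V → Fin 2} (h : cut μ φ = c) :
    0 < ∑ v, ((φ + 1) v : ℕ) := by
  by_contra hn
  have h1 : ∑ v, ((φ + 1) v : ℕ) = 0 := by omega
  have h2 : cut μ (φ + 1) = 0 := by
    apply cut_const
    intro a b
    have h3 := Finset.sum_eq_zero_iff.1 h1 a (Finset.mem_univ _)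
    have h4 := Finset.sum_eq_zero_iff.1 h1 b (Finset.mem_univ _)
    exact Fin.ext (h3.trans h4.symm)
  rw [cut_add_one] at h2
  omega

/-- The polynomial whose value at `q ^ x` is the difference of the weights at `x + 1` and `x`. -/
noncomputable def rpc (q : ℝ) (μ : Sym2 V → ℕ) (c : ℕ) : Polynomial ℝ :=
  ∑ φ ∈ (univ : Finset (V → Fin 2)).filter (fun φ => cut μ φ = c),
    Polynomial.C (1 / (q ^ (∑ v, ((φ + 1) v : ℕ)) - 1)) *
      (Polynomial.X ^ (Fintype.card V) - Polynomial.X ^ (∑ v, (φ v : ℕ)))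

theorem rpc_eval {q : ℝ} (hq : 1 < q) {μ : Sym2 V → ℕ} {c : ℕ} (hT : TwoV μ c) (hc1 : 1 ≤ c)
    (x : ℕ) : (rpc q μ c).eval (q ^ x) = wcol q μ (x + 1) c - wcol q μ x c := by
  rw [wcol_succ' q hT hc1, add_sub_cancel_left]
  unfold rpc
  rw [Polynomial.eval_finsetSum]
  apply Finset.sum_congr rfl
  intro φ hφ
  have h1 := wt_lt' hc1 (Finset.mem_filter.1 hφ).2
  have h2 := wt_add φ
  simp only [Polynomial.eval_mul, Polynomial.eval_C, Polynomial.eval_sub, Polynomial.eval_pow,
    Polynomial.eval_X]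
  revert h1 h2
  generalize ∑ v, ((φ + 1) v : ℕ) = t
  generalize ∑ v, (φ v : ℕ) = s
  intro h1 h2
  have hqt : q ^ t ≠ 1 := (one_lt_pow₀ hq h1.ne').ne'
  have h3 : ∑ i : Fin x, q ^ (x * s + i * t) = q ^ (x * s) * ∑ i ∈ range x, (q ^ t) ^ i := by
    rw [Finset.sum_range, Finset.mul_sum]
    apply Finset.sum_congr rfl
    intro i _
    rw [pow_add, ← pow_mul, mul_comm t (i : ℕ)]
  rw [h3, geom_sum_eq hqt, ← h2]
  have h4 : q ^ t - 1 ≠ 0 := sub_ne_zero.2 hqt
  field_simp
  rw [← pow_mul, ← pow_mul, ← pow_mul]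
  rw [mul_sub, ← pow_add]
  ring_nf

theorem rpc_coeff {q : ℝ} (μ : Sym2 V → ℕ) (c : ℕ) {s : ℕ} (hs : s < Fintype.card V) :
    (rpc q μ c).coeff s = - ((cc μ c s : ℝ) * (1 / (q ^ (Fintype.card V - s) - 1))) := by
  unfold rpc
  rw [Polynomial.finsetSum_coeff]
  have h1 : ∀ φ : V → Fin 2, (Polynomial.C (1 / (q ^ (∑ v, ((φ + 1) v : ℕ)) - 1)) *
      (Polynomial.X ^ (Fintype.card V) - Polynomial.X ^ (∑ v, (φ v : ℕ)))).coeff s =
      if ∑ v, (φ v : ℕ) = s then - (1 / (q ^ (Fintype.card V - s) - 1)) else 0 := by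
    intro φ
    rw [Polynomial.coeff_C_mul, Polynomial.coeff_sub, Polynomial.coeff_X_pow,
      Polynomial.coeff_X_pow, if_neg (by omega)]
    have h2 := wt_add φ
    split_ifs with h3 h4 h4
    · have h5 : Fintype.card V - s = ∑ v, ((φ + 1) v : ℕ) := by omega
      rw [h5]
      ring
    · omega
    · omega
    · ring
  rw [Finset.sum_congr rfl fun φ _ => h1 φ, ← Finset.sum_filter, Finset.filter_filter,
    Finset.sum_const]
  unfold cc
  rw [nsmul_eq_mul]
  ring

/-- The numbers `cc` agree. -/
theorem cc_eq {q : ℝ} (hq : 1 < q) {μ : Sym2 V → ℕ} {c : ℕ} (hT : TwoV μ c) (hc1 : 1 ≤ c)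
    (ν : Sym2 W → ℕ) (hT' : TwoV ν c)
    (h : ∀ x y : ℝ, Bq q μ x y = Bq q ν x y) {s : ℕ} (hs : s < Fintype.card V) :
    cc μ c s = cc ν c s := by
  have hcard := card_eq hq μ ν h
  have h1 : rpc q μ c = rpc q ν c := by
    apply Polynomial.eq_of_infinite_eval_eq
    have h2 : (Set.range fun x : ℕ => q ^ x).Infinite :=
      Set.infinite_range_of_injective (pow_right_injective₀ (by linarith) (by linarith))
    refine h2.mono ?_
    rintro _ ⟨x, rfl⟩
    show (rpc q μ c).eval (q ^ x) = (rpc q ν c).eval (q ^ x)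
    rw [rpc_eval hq hT hc1, rpc_eval hq hT' hc1, coef hq μ ν h, coef hq μ ν h]
  have h3 : (rpc q μ c).coeff s = (rpc q ν c).coeff s := by rw [h1]
  rw [rpc_coeff μ c hs, rpc_coeff ν c (hcard ▸ hs), ← hcard] at h3
  have h4 : (1 / (q ^ (Fintype.card V - s) - 1)) ≠ 0 := by
    apply one_div_ne_zero
    apply sub_ne_zero.2
    exact (one_lt_pow₀ hq (by omega)).ne'
  have h5 := mul_right_cancel₀ h4 (neg_injective h3)
  exact_mod_cast h5

end Pool.D131
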