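import Pool.Agent.Lib.MP_d131fa_co.Sp7
import Pool.Agent.Lib.MP_d131fa_co.Dens

/-!
# Spiders are determined by their q-dichromates
-/

namespace Pool.D131

open Finset

set_option linter.unusedSectionVars false

variable {V W : Type} [Fintype V] [DecidableEq V] [Fintype W] [DecidableEq W]

theorem exists_sigma {A B : Type} [Fintype A] [Fintype B] [DecidableEq A] [DecidableEq B]
    (f : A → ℕ) (g : B → ℕ)
    (h : ∀ s, (univ.filter fun a => f a = s).card = (univ.filter fun b => g b = s).card) :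
    ∃ σ : A ≃ B, ∀ a, g (σ a) = f a := by
  have h1 : ∀ s, Fintype.card {a // f a = s} = Fintype.card {b // g b = s} := by
    intro s
    rw [Fintype.card_subtype, Fintype.card_subtype]
    exact h s
  refine ⟨(Equiv.sigmaFiberEquiv f).symm.trans
    ((Equiv.sigmaCongrRight fun s => Fintype.equivOfCardEq (h1 s)).trans
      (Equiv.sigmaFiberEquiv g)), ?_⟩
  intro a
  exact ((Fintype.equivOfCardEq (h1 (f a))) ⟨a, rfl⟩).2

/-- Two trees with centres and the same numbers of legs of each length are isomorphic. -/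
theorem spider_iso {c : V} {p : V → V} {d : V → ℕ} {c' : W} {p' : W → W} {d' : W → ℕ}
    (h : Sp c p d) (h' : Sp c' p' d') {μ : Sym2 V → ℕ} {ν : Sym2 W → ℕ}
    (ht : IsTree μ) (ht' : IsTree ν)
    (hadj : ∀ a b, a ≠ b → (μ s(a, b) ≠ 0 ↔ (a ≠ c ∧ p a = b) ∨ (b ≠ c ∧ p b = a)))
    (hadj' : ∀ a b, a ≠ b → (ν s(a, b) ≠ 0 ↔ (a ≠ c' ∧ p' a = b) ∨ (b ≠ c' ∧ p' b = a)))
    (hcard : Fintype.card V = Fintype.card W)
    (hlam : ∀ s, 1 ≤ s → lam c p d s = lam c' p' d' s) :
    ∃ e : V ≃ W, ∀ s : Sym2 V, ¬ s.IsDiag → ν (s.map e) = μ s := by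
  classical
  obtain ⟨σ, hσ⟩ := exists_sigma (fun i : {i : V // d i = 1} => len c p d i.1)
    (fun i : {i : W // d' i = 1} => len c' p' d' i.1) (by
      intro s
      have key : ∀ {X : Type} [Fintype X] [DecidableEq X] (c : X) (p : X → X) (d : X → ℕ),
          (univ.filter fun i : {i : X // d i = 1} => len c p d i.1 = s).card =
            (univ.filter fun i : X => d i = 1 ∧ len c p d i = s).card := by
        intro X _ _ c p d
        refine Finset.card_bij (fun i _ => i.1) ?_ ?_ ?_
        · intro i hi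
          exact Finset.mem_filter.2 ⟨Finset.mem_univ _, i.2, (Finset.mem_filter.1 hi).2⟩
        · intro i _ j _ hij
          exact Subtype.ext hij
        · intro i hi
          obtain ⟨-, h1, h2⟩ := Finset.mem_filter.1 hi
          exact ⟨⟨i, h1⟩, Finset.mem_filter.2 ⟨Finset.mem_univ _, h2⟩, rfl⟩
      rw [key, key]
      rcases Nat.eq_zero_or_pos s with hs | hs
      · rw [Finset.card_eq_zero.2, Finset.card_eq_zero.2]
        · rw [Finset.filter_eq_empty_iff]
          rintro i - ⟨h1, h2⟩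
          have := h'.len_pos h1
          omega
        · rw [Finset.filter_eq_empty_iff]
          rintro i - ⟨h1, h2⟩
          have := h.len_pos h1
          omega
      · have h1 := h.fiber_card hs
        have h2 := h'.fiber_card hs
        rw [hlam s hs, hlam (s + 1) (by omega)] at h1
        omega)
  have hex : ∀ v, ∃ w, (v = c → w = c') ∧ ∀ hv : v ≠ c,
      w ≠ c' ∧ rt p' d' w = (σ ⟨rt p d v, h.d_rt hv⟩).1 ∧ d' w = d v := by
    intro v
    by_cases hv : v = c
    · exact ⟨c', fun _ => rfl, fun h => absurd hv h⟩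
    · obtain ⟨w, hw1, hw2, hw3⟩ := h'.exists_of (i := (σ ⟨rt p d v, h.d_rt hv⟩).1) (k := d v)
        (h.pos hv) (by
          have h1 := hσ ⟨rt p d v, h.d_rt hv⟩
          rw [h1]
          exact h.d_le hv)
      exact ⟨w, fun h => absurd h hv, fun _ => ⟨hw1, hw2, hw3⟩⟩
  choose e he1 he2 using hex
  have hec : e c = c' := he1 c rfl
  have hinj : Function.Injective e := by
    intro v w hvw
    by_cases hv : v = c
    · by_cases hw : w = c
      · rw [hv, hw]
      · exfalso
        have h1 := (he2 w hw).1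
        rw [← hvw, he1 v hv] at h1
        exact h1 rfl
    · by_cases hw : w = c
      · exfalso
        have h1 := (he2 v hv).1
        rw [hvw, he1 w hw] at h1
        exact h1 rfl
      · obtain ⟨h1, h2, h3⟩ := he2 v hv
        obtain ⟨h4, h5, h6⟩ := he2 w hw
        rw [hvw] at h2 h3
        have h7 := σ.injective (Subtype.ext (h2.symm.trans h5))
        exact h.eq_of hv (congrArg Subtype.val h7) (h3.symm.trans h6)
  have hbij : Function.Bijective e := (Fintype.bijective_iff_injective_and_card e).2 ⟨hinj, hcard⟩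
  have hep : ∀ v, v ≠ c → e (p v) = p' (e v) := by
    intro v hv
    obtain ⟨h1, h2, h3⟩ := he2 v hv
    have hdv := h.pos hv
    by_cases hpv : p v = c
    · rw [hpv, hec]
      symm
      rw [← h'.d0, h'.dp, h3, ← h.dp, hpv]
      exact (h.d0 c).2 rfl
    · have h4 := h.pos hpv
      rw [h.dp] at h4
      obtain ⟨h5, h6, h7⟩ := he2 (p v) hpv
      apply h'.eq_of h5
      · rw [h6, h'.rt_p (by omega), h2]
        have h8 : (⟨rt p d (p v), h.d_rt hpv⟩ : {i : V // d i = 1}) = ⟨rt p d v, h.d_rt hv⟩ :=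
          Subtype.ext (h.rt_p (by omega))
        rw [h8]
      · rw [h7, h.dp, h'.dp, h3]
  refine ⟨Equiv.ofBijective e hbij, ?_⟩
  intro s hs
  induction s with
  | h a b =>
    have hab : a ≠ b := fun h => hs (Sym2.mk_isDiag_iff.2 h)
    have heab : e a ≠ e b := fun h => hab (hinj h)
    show ν s(e a, e b) = μ s(a, b)
    have hc' : ∀ v, e v ≠ c' ↔ v ≠ c := by
      intro v
      rw [← hec]
      exact ⟨fun h1 h2 => h1 (congrArg e h2), fun h1 h2 => h1 (hinj h2)⟩
    have h1 : ν s(e a, e b) ≠ 0 ↔ μ s(a, b) ≠ 0 := by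
      rw [hadj a b hab, hadj' (e a) (e b) heab, hc', hc']
      constructor
      · rintro (⟨h2, h3⟩ | ⟨h2, h3⟩)
        · left
          rw [← hep a h2] at h3
          exact ⟨h2, hinj h3⟩
        · right
          rw [← hep b h2] at h3
          exact ⟨h2, hinj h3⟩
      · rintro (⟨h2, h3⟩ | ⟨h2, h3⟩)
        · left
          rw [← hep a h2, h3]
          exact ⟨h2, rfl⟩
        · right
          rw [← hep b h2, h3]
          exact ⟨h2, rfl⟩
    have h2 := tree_le ht s(a, b)
    have h3 := tree_le ht' s(e a, e b)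
    omega

/-- A spider has a centre of degree `1` or at least `3`, given by the excess. -/
theorem good_center {κ : Sym2 V → ℕ} (ht : IsTree κ) (h2 : 2 ≤ Fintype.card V)
    (hcen : ∃ c, ∀ v, v ≠ c → dg κ v ≤ 2) :
    ∃ c, (∀ v, v ≠ c → dg κ v ≤ 2) ∧ dg κ c = if exS κ = 0 then 1 else exS κ + 2 := by
  obtain ⟨c, hc⟩ := hcen
  have h3 : exS κ = dg κ c - 2 := by
    unfold exS
    apply Finset.sum_eq_single c
    · intro b _ hb
      have := hc b hb
      omega
    · intro hn
      exact absurd (Finset.mem_univ c) hn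
  by_cases h0 : exS κ = 0
  · rw [if_pos h0]
    have h4 : ∀ v, dg κ v ≤ 2 := by
      intro v
      by_cases hv : v = c
      · rw [hv]
        omega
      · exact hc v hv
    have h5 : ∃ v, dg κ v = 1 := by
      by_contra hn
      push Not at hn
      have h6 : ∀ v, dg κ v = 2 := by
        intro v
        have := h4 v
        have := hn v
        have := dg_pos ht.1 h2 v
        omega
      have h7 := sum_dg κ
      rw [(tree_sq ht).2.2] at h7
      have h8 : (∑ v, (dg κ v : ℤ)) = 2 * Fintype.card V := by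
        rw [Finset.sum_congr rfl fun v _ => by rw [h6 v]]
        simp [mul_comm]
      have h9 := ht.2
      rw [h8] at h7
      omega
    obtain ⟨v, hv⟩ := h5
    exact ⟨v, fun w _ => h4 w, hv⟩
  · rw [if_neg h0]
    exact ⟨c, hc, by omega⟩

/-- Every graph with the same q-dichromate as a spider is isomorphic to it. -/
theorem spider_unique {q : ℝ} (hq : 1 < q) {μ : Sym2 V → ℕ} (ht : IsTree μ)
    (hcen : ∃ c, ∀ v, v ≠ c → dg μ v ≤ 2) (ν : Sym2 W → ℕ)
    (h : ∀ x y : ℝ, Bq q μ x y = Bq q ν x y) :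
    ∃ e : V ≃ W, ∀ s : Sym2 V, ¬ s.IsDiag → ν (s.map e) = μ s := by
  classical
  have ht' := tree_of hq ht ν h
  have hcard := card_eq hq μ ν h
  obtain ⟨v0⟩ := ht.1.nonempty
  rcases Nat.lt_or_ge (Fintype.card V) 2 with h2 | h2
  · refine ⟨Fintype.equivOfCardEq hcard, fun s hs => ?_⟩
    exfalso
    have h3 : Subsingleton V := Fintype.card_le_one_iff_subsingleton.1 (by omega)
    induction s with
    | h a b => exact hs (Sym2.mk_isDiag_iff.2 (Subsingleton.elim a b))
  have hcen' : ∃ c', ∀ w, w ≠ c' → dg ν w ≤ 2 := by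
    obtain ⟨c, hc⟩ := hcen
    exact exists_center hq ht hc ν h
  obtain ⟨c, hc, hdc⟩ := good_center ht h2 hcen
  obtain ⟨c', hc', hdc'⟩ := good_center ht' (hcard ▸ h2) hcen'
  obtain ⟨p, d, hsp, hadj, hcut⟩ := exists_parent ht hc
  obtain ⟨p', d', hsp', hadj', hcut'⟩ := exists_parent ht' hc'
  have hS : exS μ = exS ν := by
    have hsum : ∑ v, dg μ v = ∑ v, dg ν v := by
      have h3 := sum_dg μ
      have h4 := sum_dg ν
      rw [(tree_sq ht).2.2] at h3
      rw [(tree_sq ht').2.2, ← size_eq hq μ ν h, ← h3] at h4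
      exact_mod_cast h4.symm
    have h3 := exS_eq ht.1 h2
    have h4 := exS_eq ht'.1 (hcard ▸ h2)
    rw [c1_eq hq ht.1 ν h (by omega), hcard, hsum] at h3
    omega
  refine spider_iso hsp hsp' ht ht' hadj hadj' hcard ?_
  intro s hs
  refine lam_unique (n := Fintype.card V) (f := lam c p d) (g := lam c' p' d')
    (fun s t h1 h2 => hsp.lam_anti h1 h2) (fun s t h1 h2 => hsp'.lam_anti h1 h2)
    hsp.lam_sum (by rw [hcard]; exact hsp'.lam_sum)
    (fun s h1 => hsp.lam_zero h1 (by omega))
    (fun s h1 => hsp'.lam_zero (by rw [← hcard]; exact h1) (by omega)) ?_ ?_ ?_ hs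
  · intro s h1 h3
    rw [← hsp.c1_lam hcut (by omega), hcard, ← hsp'.c1_lam hcut' (by omega)]
    exact c1_eq hq ht.1 ν h (by omega)
  · rw [hsp.lam_one hcut, hsp'.lam_one hcut', hdc, hdc', hS]
  · rw [hsp.lam_one hcut, hdc]
    split_ifs with h0
    · exact Or.inl rfl
    · right
      omega

/-- Spiders are determined by each q-dichromate, `q > 1`. -/
theorem spider_determined {μ : Sym2 V → ℕ} (ht : IsTree μ)
    (hcen : ∃ c, ∀ v, v ≠ c → dg μ v ≤ 2) : Determined μ := by
  intro q hq W _ _ ν h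
  obtain ⟨e, he⟩ := spider_unique hq ht hcen ν h
  exact ⟨U_eq e μ ν he (size_eq hq μ ν h), size_eq hq μ ν h, e, he⟩

end Pool.D131
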