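import Pool.Agent.Lib.MP_d131fa_co.Dn1
import Pool.Agent.Lib.MP_d131fa_co.Sp8

/-!
# Graphs whose degrees are small compared with the edge connectivity
-/

namespace Pool.D131

open Finset

set_option linter.unusedSectionVars false

variable {V W : Type} [Fintype V] [DecidableEq V] [Fintype W] [DecidableEq W]

/-- All nontrivial cuts have at least `L` edges. -/
def EC (μ : Sym2 V → ℕ) (L : ℕ) : Prop := ∀ φ : V → Fin 2, (∃ a b, φ a ≠ φ b) → L ≤ cut μ φ

/-- Colour class. -/
def cls {C : Type} [DecidableEq C] (φ : V → C) (i : C) : V → Fin 2 := fun v => if φ v = i then 1 else 0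

theorem cls_eq {C : Type} [DecidableEq C] (φ : V → C) (i : C) (x y : V) :
    cls φ i x = cls φ i y ↔ (φ x = i ↔ φ y = i) := by
  unfold cls
  by_cases h1 : φ x = i <;> by_cases h2 : φ y = i <;> simp [h1, h2]

theorem nm_cls {C : Type} [DecidableEq C] (φ : V → C) {i j k : C} (hij : i ≠ j) (hik : i ≠ k)
    (hjk : j ≠ k) (s : Sym2 V) :
    nm (cls φ i) s + nm (cls φ j) s + nm (cls φ k) s ≤ 2 * nm φ s := by
  induction s with
  | h x y =>
    rw [nm_mk, nm_mk, nm_mk, nm_mk]
    simp only [cls_eq]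
    by_cases h : φ x = φ y
    · simp [h]
    · rw [if_neg h]
      have h1 : (φ x = i ↔ φ y = i) ∨ (φ x = j ↔ φ y = j) ∨ (φ x = k ↔ φ y = k) := by
        by_contra hn
        push Not at hn
        obtain ⟨h1, h2, h3⟩ := hn
        rcases h1 with ⟨a1, b1⟩ | ⟨a1, b1⟩ <;> rcases h2 with ⟨a2, b2⟩ | ⟨a2, b2⟩ <;>
          rcases h3 with ⟨a3, b3⟩ | ⟨a3, b3⟩ <;>
          first
          | exact hij (a1.symm.trans a2)
          | exact hik (a1.symm.trans a3)
          | exact hjk (a2.symm.trans a3)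
          | exact hij (b1.symm.trans b2)
          | exact hik (b1.symm.trans b3)
          | exact hjk (b2.symm.trans b3)
      rcases h1 with h1 | h1 | h1
      · rw [if_pos h1]
        split_ifs <;> norm_num
      · rw [if_pos h1]
        split_ifs <;> norm_num
      · rw [if_pos h1]
        split_ifs <;> norm_num

theorem nm_nonneg {C : Type} [DecidableEq C] (φ : V → C) (s : Sym2 V) : 0 ≤ nm φ s := by
  unfold nm
  split_ifs <;> norm_num

theorem cut_cls {C : Type} [DecidableEq C] (μ : Sym2 V → ℕ) (φ : V → C) {i j k : C} (hij : i ≠ j)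
    (hik : i ≠ k) (hjk : j ≠ k) :
    cut μ (cls φ i) + cut μ (cls φ j) + cut μ (cls φ k) ≤ 2 * cut μ φ := by
  have h1 : (cut μ (cls φ i) : ℤ) + cut μ (cls φ j) + cut μ (cls φ k) ≤ 2 * cut μ φ := by
    rw [cut_int, cut_int, cut_int, cut_int, Finset.mul_sum, ← Finset.sum_add_distrib,
      ← Finset.sum_add_distrib]
    apply Finset.sum_le_sum
    intro s _
    split_ifs
    · norm_num
    · have h2 := nm_cls φ hij hik hjk s
      have h3 : (0 : ℤ) ≤ μ s := Int.natCast_nonneg _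
      nlinarith
  exact_mod_cast h1

theorem twoV_of {μ : Sym2 V → ℕ} {L c : ℕ} (hL : EC μ L) (hc : 1 ≤ c) (h2 : 2 * c < 3 * L) :
    TwoV μ c := by
  intro x φ hφ
  have h1 : ∃ a b, φ a ≠ φ b := by
    by_contra hn
    push Not at hn
    have := cut_const μ hn
    omega
  obtain ⟨a, b, hab⟩ := h1
  refine ⟨a, b, hab, fun v => ?_⟩
  by_contra hn
  push Not at hn
  have h3 := cut_cls μ φ hab (Ne.symm hn.1) (Ne.symm hn.2)
  have h4 : ∀ (u w : V), φ u ≠ φ w → L ≤ cut μ (cls φ (φ u)) := by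
    intro u w huw
    apply hL
    refine ⟨u, w, ?_⟩
    unfold cls
    rw [if_pos rfl, if_neg (Ne.symm huw)]
    exact one_ne_zero
  have h5 := h4 a b hab
  have h6 := h4 b a (Ne.symm hab)
  have h7 := h4 v a hn.1
  omega

theorem conn_of_ec {μ : Sym2 V → ℕ} {L : ℕ} (hL : EC μ L) (h1 : 1 ≤ L) [hV : Nonempty V] :
    Conn μ := by
  classical
  unfold Conn
  refine { preconnected := ?_, nonempty := hV }
  intro a b
  by_contra hab
  let ψ : V → Fin 2 := fun w =>
    if (SimpleGraph.fromEdgeSet {s | μ s ≠ 0}).Reachable a w then 1 else 0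
  have ha : ψ a = 1 := if_pos (SimpleGraph.Reachable.refl a)
  have hb : ψ b = 0 := if_neg hab
  have h2 : cut μ ψ = 0 := by
    unfold cut
    apply Finset.sum_eq_zero
    intro s _
    induction s with
    | h c d =>
      by_cases h3 : μ s(c, d) = 0
      · rw [h3]
        simp
      rw [if_pos]
      show (s(ψ c, ψ d)).IsDiag
      rw [Sym2.mk_isDiag_iff]
      by_cases hcd : c = d
      · rw [hcd]
      have h4 : (SimpleGraph.fromEdgeSet {s | μ s ≠ 0}).Adj c d := by
        rw [SimpleGraph.fromEdgeSet_adj]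
        exact ⟨h3, hcd⟩
      have h5 : (SimpleGraph.fromEdgeSet {s | μ s ≠ 0}).Reachable a c ↔
          (SimpleGraph.fromEdgeSet {s | μ s ≠ 0}).Reachable a d :=
        ⟨fun h => h.trans h4.reachable, fun h => h.trans h4.symm.reachable⟩
      show (if _ then _ else _) = (if _ then _ else _)
      simp only [h5]
  have h3 := hL ψ ⟨a, b, by rw [ha, hb]; exact one_ne_zero⟩
  omega

theorem ec_transfer {q : ℝ} (hq : 1 < q) {μ : Sym2 V → ℕ} {L : ℕ} (hL : EC μ L) (h1 : 1 ≤ L)
    (ν : Sym2 W → ℕ) (h : ∀ x y : ℝ, Bq q μ x y = Bq q ν x y) : EC ν L := by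
  intro ψ hψ
  obtain ⟨φ, hφ⟩ := exists_col hq ν μ (fun x y => (h x y).symm) 2 ψ
  by_cases hc : ∃ a b, φ a ≠ φ b
  · rw [← hφ]
    exact hL φ hc
  · push Not at hc
    exfalso
    have h2 := cut_const μ hc
    rw [hφ] at h2
    obtain ⟨a, b, hab⟩ := hψ
    have hcard := card_eq hq μ ν h
    have hV : Nonempty V := by
      rw [← Fintype.card_pos_iff, hcard]
      exact Fintype.card_pos_iff.2 ⟨a⟩
    have h3 := conn_of hq (conn_of_ec hL h1) ν h
    exact hab (const_of_cut_zero h3 h2 a b)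

theorem cc_one (μ : Sym2 V → ℕ) (c : ℕ) : cc μ c 1 = (univ.filter fun v => dg μ v = c).card := by
  unfold cc
  symm
  refine Finset.card_bij (fun v _ => one v) ?_ ?_ ?_
  · intro v hv
    rw [Finset.mem_filter] at hv ⊢
    exact ⟨Finset.mem_univ _, hv.2, wt_one v⟩
  · intro a _ b _ hab
    exact one_inj hab
  · intro φ hφ
    rw [Finset.mem_filter] at hφ
    obtain ⟨a, rfl⟩ := one_of_wt φ hφ.2.2
    exact ⟨a, Finset.mem_filter.2 ⟨Finset.mem_univ _, hφ.2.1⟩, rfl⟩

/-- The degree sequence is determined. -/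
theorem deg_equiv {q : ℝ} (hq : 1 < q) {μ : Sym2 V → ℕ} {L : ℕ} (hL : EC μ L) (hL1 : 1 ≤ L)
    (h2 : 2 ≤ Fintype.card V) (hd : ∀ v, 2 * dg μ v < 3 * L) (ν : Sym2 W → ℕ)
    (h : ∀ x y : ℝ, Bq q μ x y = Bq q ν x y) : ∃ e : V ≃ W, ∀ v, dg ν (e v) = dg μ v := by
  classical
  have hL' := ec_transfer hq hL hL1 ν h
  have hcard := card_eq hq μ ν h
  have hV : Nonempty V := Fintype.card_pos_iff.1 (by omega)
  have hpos : ∀ v, 1 ≤ dg μ v := fun v => dg_pos (conn_of_ec hL hL1) h2 v
  have key : ∀ c, 1 ≤ c → 2 * c < 3 * L →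
      (univ.filter fun v => dg μ v = c).card = (univ.filter fun w => dg ν w = c).card := by
    intro c hc1 hc2
    rw [← cc_one, ← cc_one]
    exact cc_eq hq (twoV_of hL hc1 hc2) hc1 ν (twoV_of hL' hc1 hc2) h (by omega)
  let R : Finset ℕ := (Finset.range (3 * L)).filter fun c => 1 ≤ c ∧ 2 * c < 3 * L
  have hR : ∀ c, c ∈ R ↔ 1 ≤ c ∧ 2 * c < 3 * L := by
    intro c
    rw [Finset.mem_filter, Finset.mem_range]
    constructor
    · exact fun h => h.2
    · intro h
      exact ⟨by omega, h⟩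
  have h3 : (univ : Finset V).card = ∑ c ∈ R, (univ.filter fun v => dg μ v = c).card :=
    Finset.card_eq_sum_card_fiberwise fun v _ => (hR _).2 ⟨hpos v, hd v⟩
  have h4 : (univ.filter fun w => dg ν w ∈ R).card =
      ∑ c ∈ R, (univ.filter fun w => dg ν w = c).card := by
    rw [Finset.card_eq_sum_card_fiberwise (s := univ.filter fun w => dg ν w ∈ R)
      (f := fun w => dg ν w) (t := R) (fun w hw => (Finset.mem_filter.1 hw).2)]
    apply Finset.sum_congr rfl
    intro c hc
    congr 1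
    ext w
    simp only [Finset.mem_filter, Finset.mem_univ, true_and]
    constructor
    · exact fun h => h.2
    · intro h
      exact ⟨by rw [h]; exact hc, h⟩
  have h5 : (univ.filter fun w => dg ν w ∈ R) = univ := by
    apply Finset.eq_univ_of_card
    rw [h4, ← hcard, ← Finset.card_univ, h3]
    apply Finset.sum_congr rfl
    intro c hc
    exact (key c ((hR c).1 hc).1 ((hR c).1 hc).2).symm
  have h6 : ∀ w, dg ν w ∈ R := by
    intro w
    have h7 : w ∈ (univ.filter fun w => dg ν w ∈ R) := by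
      rw [h5]
      exact Finset.mem_univ w
    exact (Finset.mem_filter.1 h7).2
  apply exists_sigma (dg μ) (dg ν)
  intro c
  by_cases hc : 1 ≤ c ∧ 2 * c < 3 * L
  · exact key c hc.1 hc.2
  · rw [Finset.card_eq_zero.2, Finset.card_eq_zero.2]
    · rw [Finset.filter_eq_empty_iff]
      intro w _ hw
      have := (hR _).1 (h6 w)
      rw [hw] at this
      exact hc this
    · rw [Finset.filter_eq_empty_iff]
      intro v _ hv
      apply hc
      rw [← hv]
      exact ⟨hpos v, hd v⟩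

/-- The graph has no loops and no parallel edges. -/
def Simple (μ : Sym2 V → ℕ) : Prop := ∀ s, μ s ≤ 1 ∧ (s.IsDiag → μ s = 0)

theorem simple_size {μ : Sym2 V → ℕ} (h : ∀ s, s.IsDiag → μ s = 0) :
    (∑ s : {s : Sym2 V // ¬ s.IsDiag}, μ s.1) = size μ := by
  rw [← sum_nd μ]
  unfold size
  apply Finset.sum_congr rfl
  intro s _
  by_cases hs : s.IsDiag
  · rw [if_pos hs, h s hs]
  · rw [if_neg hs]

/-- Simplicity is determined if the degrees are. -/
theorem simple_transfer {q : ℝ} (hq : 1 < q) {μ : Sym2 V → ℕ} (hs : Simple μ) (ν : Sym2 W → ℕ)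
    (h : ∀ x y : ℝ, Bq q μ x y = Bq q ν x y) (e : V ≃ W) (he : ∀ v, dg ν (e v) = dg μ v) :
    Simple ν := by
  have hsz := size_eq hq μ ν h
  have hcard := card_eq hq μ ν h
  have h1 := simple_size fun s h => (hs s).2 h
  have h2 : (∑ s : {s : Sym2 W // ¬ s.IsDiag}, ν s.1) = size ν := by
    have h3 := sum_dg μ
    have h4 := sum_dg ν
    have h5 : (∑ w, (dg ν w : ℤ)) = ∑ v, (dg μ v : ℤ) := by
      rw [← Equiv.sum_comp e]
      apply Finset.sum_congr rfl
      intro v _
      rw [he]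
    rw [h5, h3] at h4
    have h6 : ((∑ s : {s : Sym2 V // ¬ s.IsDiag}, μ s.1 : ℕ) : ℤ) =
        ((∑ s : {s : Sym2 W // ¬ s.IsDiag}, ν s.1 : ℕ) : ℤ) := by
      push_cast
      linarith
    rw [← hsz, ← h1]
    exact_mod_cast h6.symm
  have hloop : ∀ s, s.IsDiag → ν s = 0 := by
    have h3 : ∑ s : Sym2 W, (if s.IsDiag then 0 else ν s) = ∑ s : Sym2 W, ν s := by
      rw [sum_nd ν, h2]
      rfl
    have h4 : ∀ s ∈ (univ : Finset (Sym2 W)), (if s.IsDiag then 0 else ν s) ≤ ν s := by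
      intro s _
      split_ifs
      · exact Nat.zero_le _
      · exact le_rfl
    intro s hd
    have h5 := (Finset.sum_eq_sum_iff_of_le h4).1 h3 s (Finset.mem_univ _)
    rw [if_pos hd] at h5
    exact h5.symm
  have h7 : (∑ s : {s : Sym2 W // ¬ s.IsDiag}, (ν s.1 : ℝ) ^ 2) =
      ∑ s : {s : Sym2 W // ¬ s.IsDiag}, (ν s.1 : ℝ) := by
    have a1 := second_moment q μ
    have a2 := second_moment q ν
    have a3 : (∑ s : {s : Sym2 V // ¬ s.IsDiag}, (μ s.1 : ℝ)) = size μ := by
      rw [← h1]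
      push_cast
      rfl
    have a4 : (∑ s : {s : Sym2 W // ¬ s.IsDiag}, (ν s.1 : ℝ)) = size μ := by
      rw [hsz, ← h2]
      push_cast
      rfl
    have a5 : (∑ s : {s : Sym2 V // ¬ s.IsDiag}, (μ s.1 : ℝ) ^ 2) = size μ := by
      rw [← a3]
      apply Finset.sum_congr rfl
      intro s _
      have := (hs s.1).1
      interval_cases hm : μ s.1 <;> norm_num
    have a6 : ∑ w, (dg ν w : ℝ) ^ 2 = ∑ v, (dg μ v : ℝ) ^ 2 := by
      rw [← Equiv.sum_comp e]
      apply Finset.sum_congr rfl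
      intro v _
      rw [he]
    rw [a3, a5] at a1
    rw [a4, a6, ← hcard] at a2
    have a7 := sum_fun hq μ ν h (fun c => ((1 + q) ^ 2 * (c : ℝ) - 2 * q * size μ) ^ 2)
    have a8 := a1.symm.trans (a7.trans a2)
    have a9 : (1 + q) ^ Fintype.card V ≠ 0 := by positivity
    have a10 := mul_left_cancel₀ a9 a8
    have a11 : 4 * q ^ 2 * (size μ : ℝ) =
        4 * q ^ 2 * ∑ s : {s : Sym2 W // ¬ s.IsDiag}, (ν s.1 : ℝ) ^ 2 := by linarith
    have a12 : 4 * q ^ 2 ≠ 0 := by positivity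
    rw [a4]
    exact (mul_left_cancel₀ a12 a11).symm
  intro s
  refine ⟨?_, hloop s⟩
  by_cases hd : s.IsDiag
  · rw [hloop s hd]
    exact Nat.zero_le _
  · have h8 : ∀ t ∈ (univ : Finset {s : Sym2 W // ¬ s.IsDiag}),
        (ν t.1 : ℝ) ≤ (ν t.1 : ℝ) ^ 2 := by
      intro t _
      have h9 : ν t.1 ≤ ν t.1 ^ 2 := by
        rcases Nat.eq_zero_or_pos (ν t.1) with h10 | h10
        · rw [h10]
          norm_num
        · nlinarith
      exact_mod_cast h9
    have h9 := (Finset.sum_eq_sum_iff_of_le h8).1 h7.symm ⟨s, hd⟩ (Finset.mem_univ _)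
    have h10 : ν s = ν s ^ 2 := by exact_mod_cast h9
    nlinarith

end Pool.D131
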