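import Pool.Agent.Lib.MP_d131fa_co.Dn2

/-!
# Dense simple graphs
-/

namespace Pool.D131

open Finset

set_option linter.unusedSectionVars false

variable {V W : Type} [Fintype V] [DecidableEq V] [Fintype W] [DecidableEq W]

theorem sum_inc (v : V) (f : Sym2 V → ℤ) :
    (∑ s : {s : Sym2 V // ¬ s.IsDiag}, (if v ∈ s.1 then 1 else 0) * f s.1) =
      ∑ w ∈ univ.erase v, f s(v, w) := by
  classical
  have h1 : ∀ s : {s : Sym2 V // ¬ s.IsDiag}, (if v ∈ s.1 then 1 else 0) * f s.1 =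
      if v ∈ s.1 then f s.1 else 0 := by
    intro s
    split_ifs <;> ring
  rw [Finset.sum_congr rfl fun s _ => h1 s, ← Finset.sum_filter]
  symm
  refine Finset.sum_bij (fun w hw => (⟨s(v, w), fun h =>
    (Finset.mem_erase.1 hw).1 (Sym2.mk_isDiag_iff.1 h).symm⟩ : {s : Sym2 V // ¬ s.IsDiag}))
    ?_ ?_ ?_ ?_
  · intro w hw
    exact Finset.mem_filter.2 ⟨Finset.mem_univ _, Sym2.mem_mk_left v w⟩
  · intro w hw u hu hwu
    have h2 : s(v, w) = s(v, u) := congrArg Subtype.val hwu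
    rcases Sym2.eq_iff.1 h2 with h3 | h3
    · exact h3.2
    · exact h3.2.trans h3.1
  · rintro ⟨s, hs⟩ hm
    have hvs := (Finset.mem_filter.1 hm).2
    obtain ⟨w, rfl⟩ := hvs
    refine ⟨w, Finset.mem_erase.2 ⟨?_, Finset.mem_univ _⟩, rfl⟩
    intro h
    exact hs (Sym2.mk_isDiag_iff.2 h.symm)
  · intro w hw
    rfl

theorem dg_sum (μ : Sym2 V → ℕ) (v : V) :
    (dg μ v : ℤ) = ∑ w ∈ univ.erase v, (μ s(v, w) : ℤ) := by
  rw [dg_eq, sum_inc v (fun s => (μ s : ℤ))]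

theorem dg_le {μ : Sym2 V → ℕ} (hs : Simple μ) (v : V) : dg μ v ≤ Fintype.card V - 1 := by
  have h1 : (dg μ v : ℤ) ≤ ((Fintype.card V - 1 : ℕ) : ℤ) := by
    rw [dg_sum]
    refine (Finset.sum_le_sum (g := fun _ => (1 : ℤ)) fun w _ => ?_).trans ?_
    · exact_mod_cast (hs s(v, w)).1
    · rw [Finset.sum_const, Finset.card_erase_of_mem (Finset.mem_univ v), Finset.card_univ]
      simp
  exact_mod_cast h1

theorem cut_out (μ : Sym2 V → ℕ) (φ : V → Fin 2) :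
    (cut μ φ : ℤ) = ∑ v, if φ v = 1 then
      ∑ w ∈ univ.erase v, nm φ s(v, w) * (μ s(v, w) : ℤ) else 0 := by
  rw [cut_int, sum_nd]
  have h1 : ∀ v, (if φ v = 1 then ∑ w ∈ univ.erase v, nm φ s(v, w) * (μ s(v, w) : ℤ) else 0) =
      ∑ s : {s : Sym2 V // ¬ s.IsDiag}, (if v ∈ s.1 then (if φ v = 1 then 1 else 0) else 0) *
        (nm φ s.1 * (μ s.1 : ℤ)) := by
    intro v
    rw [← sum_inc v (fun s => nm φ s * (μ s : ℤ))]
    split_ifs with h
    · apply Finset.sum_congr rfl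
      intro s _
      split_ifs <;> rfl
    · symm
      apply Finset.sum_eq_zero
      intro s _
      split_ifs <;> ring
  rw [Finset.sum_congr rfl fun v _ => h1 v, Finset.sum_comm]
  apply Finset.sum_congr rfl
  rintro ⟨s, hs⟩ _
  rw [← Finset.sum_mul]
  obtain ⟨a, b, hab, rfl, h2⟩ := sum_mem hs (fun v => if φ v = 1 then (1 : ℤ) else 0)
  show nm φ s(a, b) * (μ s(a, b) : ℤ) = (∑ v, if v ∈ s(a, b) then (if φ v = 1 then 1 else 0) else 0) *
    (nm φ s(a, b) * (μ s(a, b) : ℤ))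
  rw [h2, nm_mk]
  have h3 : ∀ t : Fin 2, t = 0 ∨ t = 1 := by decide
  have h4 : (0 : Fin 2) ≠ 1 := by decide
  rcases h3 (φ a) with ha | ha <;> rcases h3 (φ b) with hb | hb <;> rw [ha, hb] <;>
    simp [h4, h4.symm]

theorem wt_count (φ : V → Fin 2) :
    (univ.filter fun v => φ v = 1).card = ∑ v, (φ v : ℕ) := by
  rw [Finset.card_filter]
  apply Finset.sum_congr rfl
  intro v _
  generalize φ v = t
  revert t
  decide

theorem cut_lower {μ : Sym2 V → ℕ} (hs : Simple μ) {D : ℕ} (hD : ∀ v, D ≤ dg μ v)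
    (φ : V → Fin 2) :
    ((∑ v, (φ v : ℕ) : ℕ) : ℤ) * (D - (∑ v, (φ v : ℕ) : ℕ) + 1) ≤ cut μ φ := by
  rw [cut_out]
  have h1 : ∀ v, φ v = 1 → (D : ℤ) - (∑ v, (φ v : ℕ) : ℕ) + 1 ≤
      ∑ w ∈ univ.erase v, nm φ s(v, w) * (μ s(v, w) : ℤ) := by
    intro v hv
    have h2 : ∑ w ∈ univ.erase v, ((μ s(v, w) : ℤ) - (if φ w = 1 then 1 else 0)) ≤
        ∑ w ∈ univ.erase v, nm φ s(v, w) * (μ s(v, w) : ℤ) := by
      apply Finset.sum_le_sum
      intro w _
      have h3 := (hs s(v, w)).1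
      have h3' : (μ s(v, w) : ℤ) ≤ 1 := by exact_mod_cast h3
      rw [nm_mk, hv]
      by_cases h4 : φ w = 1
      · rw [if_pos h4, if_pos h4.symm]
        linarith
      · rw [if_neg h4, if_neg (Ne.symm h4)]
        linarith
    rw [Finset.sum_sub_distrib, ← dg_sum] at h2
    have h5 : (∑ w ∈ univ.erase v, if φ w = 1 then (1 : ℤ) else 0) =
        ((∑ v, (φ v : ℕ) : ℕ) : ℤ) - 1 := by
      rw [← wt_count, Finset.card_filter, ← Finset.add_sum_erase _ _ (Finset.mem_univ v), if_pos hv]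
      push_cast
      ring
    have h6 : (D : ℤ) ≤ dg μ v := by exact_mod_cast hD v
    linarith
  have h2 : ((∑ v, (φ v : ℕ) : ℕ) : ℤ) * (D - (∑ v, (φ v : ℕ) : ℕ) + 1) =
      ∑ v, if φ v = 1 then ((D : ℤ) - (∑ v, (φ v : ℕ) : ℕ) + 1) else 0 := by
    rw [← Finset.sum_filter, Finset.sum_const, wt_count, nsmul_eq_mul]
  rw [h2]
  apply Finset.sum_le_sum
  intro v _
  split_ifs with h
  · exact h1 v h
  · exact le_rfl

theorem ec_of_dense {μ : Sym2 V → ℕ} (hs : Simple μ) {D : ℕ} (hD : ∀ v, D ≤ dg μ v)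
    (h3 : 2 * (Fintype.card V - 1) < 3 * D) : EC μ D := by
  have key : ∀ φ : V → Fin 2, 1 ≤ ∑ v, (φ v : ℕ) → 2 * ∑ v, (φ v : ℕ) ≤ Fintype.card V →
      D ≤ cut μ φ := by
    intro φ h4 h5
    have h6 := cut_lower hs hD φ
    revert h4 h5 h6
    generalize ∑ v, (φ v : ℕ) = s
    intro h4 h5 h6
    have h7 : s ≤ D := by omega
    have h8 : (D : ℤ) ≤ (s : ℤ) * (D - s + 1) := by
      have h9 : (1 : ℤ) ≤ s := by exact_mod_cast h4
      have h10 : (s : ℤ) ≤ D := by exact_mod_cast h7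
      nlinarith
    have h11 := h8.trans h6
    exact_mod_cast h11
  rintro φ ⟨a, b, hab⟩
  have h4 := wt_add φ
  have h5 : ∀ (ψ : V → Fin 2) (v : V), ψ v = 1 → 1 ≤ ∑ v, (ψ v : ℕ) := by
    intro ψ v hv
    have h6 : ((ψ v : Fin 2) : ℕ) ≤ ∑ v, (ψ v : ℕ) :=
      Finset.single_le_sum (f := fun v => (ψ v : ℕ)) (fun _ _ => Nat.zero_le _) (Finset.mem_univ v)
    rw [hv] at h6
    exact h6
  have h6 : ∃ v w, φ v = 1 ∧ φ w = 0 := by
    have h7 : ∀ t : Fin 2, t = 0 ∨ t = 1 := by decide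
    rcases h7 (φ a) with ha | ha <;> rcases h7 (φ b) with hb | hb
    · exact absurd (ha.trans hb.symm) hab
    · exact ⟨b, a, hb, ha⟩
    · exact ⟨a, b, ha, hb⟩
    · exact absurd (ha.trans hb.symm) hab
  obtain ⟨v, w, hv, hw⟩ := h6
  rcases Nat.lt_or_ge (Fintype.card V) (2 * ∑ v, (φ v : ℕ)) with h8 | h8
  · rw [← cut_add_one]
    apply key
    · apply h5 _ w
      show φ w + 1 = 1
      rw [hw]
      rfl
    · omega
  · exact key φ (h5 φ v hv) h8

/-- Every simple graph with the same degrees is isomorphic. -/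
def Uni (μ : Sym2 V → ℕ) : Prop :=
  ∀ ν : Sym2 V → ℕ, Simple ν → (∀ v, dg ν v = dg μ v) → ∃ e : V ≃ V, ∀ s, ν (s.map e) = μ s

theorem dense_transfer {q : ℝ} (hq : 1 < q) {μ : Sym2 V → ℕ} (hs : Simple μ)
    (h2 : 2 ≤ Fintype.card V) (hd : ∀ v, 2 * (Fintype.card V - 1) < 3 * dg μ v) (ν : Sym2 W → ℕ)
    (h : ∀ x y : ℝ, Bq q μ x y = Bq q ν x y) :
    Simple ν ∧ ∃ e : V ≃ W, ∀ v, dg ν (e v) = dg μ v := by
  classical
  have hV : Nonempty V := Fintype.card_pos_iff.1 (by omega)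
  obtain ⟨v0, -, hv0⟩ := Finset.exists_min_image univ (dg μ) Finset.univ_nonempty
  have hD : ∀ v, dg μ v0 ≤ dg μ v := fun v => hv0 v (Finset.mem_univ v)
  have hL := ec_of_dense hs hD (hd v0)
  have hL1 : 1 ≤ dg μ v0 := by
    have := hd v0
    omega
  obtain ⟨e, he⟩ := deg_equiv hq hL hL1 h2 (fun v => by
    have h3 := dg_le hs v
    have h4 := hd v0
    omega) ν h
  exact ⟨simple_transfer hq hs ν h e he, e, he⟩

theorem dg_map (e : V ≃ W) (ν : Sym2 W → ℕ) (v : V) : dg (fun s => ν (s.map e)) v = dg ν (e v) := by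
  have h1 : (dg (fun s => ν (s.map e)) v : ℤ) = dg ν (e v) := by
    rw [dg_sum, dg_sum]
    refine Finset.sum_bij (fun w _ => e w) ?_ ?_ ?_ ?_
    · intro w hw
      exact Finset.mem_erase.2 ⟨fun h => (Finset.mem_erase.1 hw).1 (e.injective h),
        Finset.mem_univ _⟩
    · intro a _ b _ hab
      exact e.injective hab
    · intro w hw
      refine ⟨e.symm w, Finset.mem_erase.2 ⟨?_, Finset.mem_univ _⟩, e.apply_symm_apply w⟩
      intro h
      apply (Finset.mem_erase.1 hw).1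
      rw [← h, e.apply_symm_apply]
    · intro w _
      rfl
  exact_mod_cast h1

theorem uni_determined {μ : Sym2 V → ℕ} (hs : Simple μ) (h2 : 2 ≤ Fintype.card V)
    (hd : ∀ v, 2 * (Fintype.card V - 1) < 3 * dg μ v) (hu : Uni μ) : Determined μ := by
  intro q hq W _ _ ν h
  obtain ⟨hs', e, he⟩ := dense_transfer hq hs h2 hd ν h
  obtain ⟨g, hg⟩ := hu (fun s => ν (s.map e)) (by
    intro s
    refine ⟨(hs' _).1, fun hd => (hs' _).2 ((diag_map e s).2 hd)⟩) (fun v => by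
      rw [dg_map, he])
  have h3 : ∀ s : Sym2 V, ¬ s.IsDiag → ν (s.map (g.trans e)) = μ s := by
    intro s _
    rw [← hg s]
    congr 1
    induction s with
    | h a b => rfl
  exact ⟨U_eq (g.trans e) μ ν h3 (size_eq hq μ ν h), size_eq hq μ ν h, g.trans e, h3⟩

end Pool.D131
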