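import Pool.Agent.Lib.MP_d131fa_co.Dn3

/-!
# Complete graphs minus a matching
-/

namespace Pool.D131

open Finset

set_option linter.unusedSectionVars false

variable {V W : Type} [Fintype V] [DecidableEq V] [Fintype W] [DecidableEq W]

/-- The number of vertices that are not adjacent to `v`. -/
theorem card_non {μ : Sym2 V → ℕ} (hs : Simple μ) (v : V) :
    (univ.filter fun w => w ≠ v ∧ μ s(v, w) = 0).card + dg μ v = Fintype.card V - 1 := by
  have h1 : ((dg μ v : ℕ) : ℤ) = (((univ.erase v).filter fun w => μ s(v, w) ≠ 0).card : ℤ) := by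
    rw [dg_sum, Finset.card_filter]
    push_cast
    apply Finset.sum_congr rfl
    intro w _
    have := (hs s(v, w)).1
    by_cases h : μ s(v, w) = 0
    · rw [h, if_neg (fun h => h rfl)]
      rfl
    · rw [if_pos h]
      have h2 : μ s(v, w) = 1 := by omega
      rw [h2]
      rfl
  have h2 : dg μ v = ((univ.erase v).filter fun w => μ s(v, w) ≠ 0).card := by exact_mod_cast h1
  have h3 : (univ.filter fun w => w ≠ v ∧ μ s(v, w) = 0) =
      (univ.erase v).filter fun w => μ s(v, w) = 0 := by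
    ext w
    simp only [Finset.mem_filter, Finset.mem_univ, true_and, Finset.mem_erase, and_true]
  rw [h2, h3, Finset.card_filter_add_card_filter_not, Finset.card_erase_of_mem (Finset.mem_univ v),
    Finset.card_univ]

/-- The involution that exchanges the nonadjacent vertices. -/
theorem exists_inv {μ : Sym2 V → ℕ} (hs : Simple μ) (hd : ∀ v, Fintype.card V ≤ dg μ v + 2) :
    ∃ f : Equiv.Perm V, f ^ 2 = 1 ∧ (∀ v w, v ≠ w → (μ s(v, w) = 0 ↔ w = f v)) ∧
      ∀ v, f v = v ↔ dg μ v + 1 = Fintype.card V := by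
  classical
  have h1 : ∀ v, ∃ u, (∀ w, v ≠ w → (μ s(v, w) = 0 ↔ w = u)) ∧
      (u = v ↔ dg μ v + 1 = Fintype.card V) := by
    intro v
    have h2 := card_non hs v
    have h3 := hd v
    have hpos : 1 ≤ Fintype.card V := Fintype.card_pos_iff.2 ⟨v⟩
    by_cases h4 : dg μ v + 1 = Fintype.card V
    · have h5 : (univ.filter fun w => w ≠ v ∧ μ s(v, w) = 0) = ∅ := by
        rw [← Finset.card_eq_zero]
        omega
      refine ⟨v, fun w hw => ⟨fun h6 => ?_, fun h6 => absurd h6.symm hw⟩, ⟨fun _ => h4, fun _ => rfl⟩⟩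
      have h7 : w ∈ (univ.filter fun w => w ≠ v ∧ μ s(v, w) = 0) :=
        Finset.mem_filter.2 ⟨Finset.mem_univ _, hw.symm, h6⟩
      rw [h5] at h7
      exact absurd h7 (Finset.notMem_empty _)
    · have h5 : (univ.filter fun w => w ≠ v ∧ μ s(v, w) = 0).card = 1 := by omega
      obtain ⟨u, hu⟩ := Finset.card_eq_one.1 h5
      have h6 : ∀ w, (w ≠ v ∧ μ s(v, w) = 0) ↔ w = u := by
        intro w
        have h7 : w ∈ (univ.filter fun w => w ≠ v ∧ μ s(v, w) = 0) ↔ w ∈ ({u} : Finset V) := by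
          rw [hu]
        rw [Finset.mem_filter, Finset.mem_singleton] at h7
        exact ⟨fun h => h7.1 ⟨Finset.mem_univ _, h⟩, fun h => (h7.2 h).2⟩
      refine ⟨u, fun w hw => ⟨fun h7 => (h6 w).1 ⟨hw.symm, h7⟩, fun h7 => ((h6 w).2 h7).2⟩,
        ⟨fun h7 => ?_, fun h7 => absurd h7 h4⟩⟩
      exact absurd h7 ((h6 u).2 rfl).1
  choose f hf1 hf2 using h1
  have hinv : ∀ v, f (f v) = v := by
    intro v
    by_cases h : f v = v
    · rw [h, h]
    · have h2 : μ s(v, f v) = 0 := (hf1 v (f v) (Ne.symm h)).2 rfl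
      rw [Sym2.eq_swap] at h2
      exact ((hf1 (f v) v h).1 h2).symm
  refine ⟨⟨f, f, hinv, hinv⟩, ?_, hf1, hf2⟩
  ext v
  exact hinv v

theorem matching_uni {μ : Sym2 V → ℕ} (hs : Simple μ) (hd : ∀ v, Fintype.card V ≤ dg μ v + 2) :
    Uni μ := by
  classical
  intro ν hs' hdg
  obtain ⟨f, hf1, hf2, hf3⟩ := exists_inv hs hd
  obtain ⟨g, hg1, hg2, hg3⟩ := exists_inv hs' (fun v => by rw [hdg]; exact hd v)
  have hsup : f.support = g.support := by
    ext v
    rw [Equiv.Perm.mem_support, Equiv.Perm.mem_support, Ne, Ne, hf3, hg3, hdg]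
  have hct : f.cycleType = g.cycleType := by
    have h1 := Equiv.Perm.cycleType_of_pow_prime_eq_one hf1
    have h2 := Equiv.Perm.cycleType_of_pow_prime_eq_one hg1
    have h3 := Equiv.Perm.sum_cycleType f
    have h4 := Equiv.Perm.sum_cycleType g
    rw [h1, Multiset.sum_replicate, smul_eq_mul] at h3
    rw [h2, Multiset.sum_replicate, smul_eq_mul, ← hsup] at h4
    have h5 : f.cycleType.card = g.cycleType.card := by omega
    rw [h1, h2, h5]
  obtain ⟨c, hc⟩ := isConj_iff.1 (Equiv.Perm.isConj_of_cycleType_eq hct)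
  have hc' : ∀ v, g (c v) = c (f v) := by
    intro v
    rw [← hc]
    simp
  refine ⟨c, fun s => ?_⟩
  induction s with
  | h a b =>
    show ν s(c a, c b) = μ s(a, b)
    by_cases hab : a = b
    · rw [hab, (hs' _).2 (Sym2.mk_isDiag_iff.2 rfl), (hs _).2 (Sym2.mk_isDiag_iff.2 rfl)]
    · have h1 := hf2 a b hab
      have h2 := hg2 (c a) (c b) (fun h => hab (c.injective h))
      rw [hc', c.injective.eq_iff, ← h1] at h2
      have h3 := (hs s(a, b)).1
      have h4 := (hs' s(c a, c b)).1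
      omega

theorem matching_determined {μ : Sym2 V → ℕ} (hs : Simple μ) (h5 : 5 ≤ Fintype.card V)
    (hd : ∀ v, Fintype.card V ≤ dg μ v + 2) : Determined μ :=
  uni_determined hs (by omega) (fun v => by
    have := hd v
    omega) (matching_uni hs hd)

end Pool.D131
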