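import Pool.Agent.Lib.MP_d131fa_co.Coef

/-!
# Independent multiplicities: the cut values of the colourings with two colours
-/

namespace Pool.D131

open Finset

set_option linter.unusedSectionVars false

variable {V W : Type} [Fintype V] [DecidableEq V] [Fintype W] [DecidableEq W]

/-- There is no linear relation with integer coefficients of absolute value at most `3` between the
multiplicities of the edges that are not loops. -/
def Indep (μ : Sym2 V → ℕ) : Prop :=
  ∀ c : Sym2 V → ℤ, (∀ s, |c s| ≤ 3) → (∑ s, if s.IsDiag then 0 else c s * (μ s : ℤ)) = 0 →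
    ∀ s, ¬ s.IsDiag → μ s ≠ 0 → c s = 0

/-- The graph is connected. -/
def Conn (μ : Sym2 V → ℕ) : Prop := (SimpleGraph.fromEdgeSet {s | μ s ≠ 0}).Connected

/-- Indicator of the pairs with different colours. -/
def nm {C : Type} [DecidableEq C] (φ : V → C) (s : Sym2 V) : ℤ := if (s.map φ).IsDiag then 0 else 1

theorem nm_mk {C : Type} [DecidableEq C] (φ : V → C) (a b : V) :
    nm φ s(a, b) = if φ a = φ b then 0 else 1 := by
  unfold nm
  have h : (Sym2.map φ s(a, b)).IsDiag ↔ φ a = φ b := Sym2.mk_isDiag_iff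
  simp only [h]

theorem cut_int {C : Type} [DecidableEq C] (μ : Sym2 V → ℕ) (φ : V → C) :
    (cut μ φ : ℤ) = ∑ s, if s.IsDiag then 0 else nm φ s * (μ s : ℤ) := by
  unfold cut
  push_cast
  apply Finset.sum_congr rfl
  intro s _
  induction s with
  | h a b =>
    by_cases hab : a = b
    · subst hab
      rw [if_pos, if_pos]
      · exact Sym2.mk_isDiag_iff.2 rfl
      · show (s(φ a, φ a)).IsDiag
        exact Sym2.mk_isDiag_iff.2 rfl
    · rw [if_neg (fun h => hab (Sym2.mk_isDiag_iff.1 h))]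
      unfold nm
      split_ifs
      · simp
      · simp

theorem same {μ : Sym2 V → ℕ} (hi : Indep μ) (φ φ' : V → Fin 2) (h : cut μ φ = cut μ φ')
    (s : Sym2 V) (hs : ¬ s.IsDiag) (h0 : μ s ≠ 0) : nm φ s = nm φ' s := by
  have h1 := hi (fun s => nm φ s - nm φ' s) (fun s => by
    unfold nm; split_ifs <;> norm_num) (by
    have h2 : (cut μ φ : ℤ) - cut μ φ' = 0 := by rw [h]; ring
    rw [cut_int, cut_int, ← Finset.sum_sub_distrib] at h2
    refine Eq.trans ?_ h2
    apply Finset.sum_congr rfl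
    intro s _
    split_ifs
    · ring
    · ring) s hs h0
  have h3 : nm φ s - nm φ' s = 0 := h1
  linarith

theorem fiber {μ : Sym2 V → ℕ} (hi : Indep μ) (hc : Conn μ) (φ φ' : V → Fin 2)
    (h : cut μ φ = cut μ φ') : φ' = φ ∨ φ' = φ + 1 := by
  have h1 : ∀ a b, (SimpleGraph.fromEdgeSet {s | μ s ≠ 0}).Adj a b → φ a + φ' a = φ b + φ' b := by
    intro a b hab
    rw [SimpleGraph.fromEdgeSet_adj] at hab
    have h2 := same hi φ φ' h s(a, b) (fun h => hab.2 (Sym2.mk_isDiag_iff.1 h)) hab.1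
    rw [nm_mk, nm_mk] at h2
    have h3 : φ a = φ b ↔ φ' a = φ' b := by
      constructor
      · intro h4
        rw [if_pos h4] at h2
        by_contra h5
        rw [if_neg h5] at h2
        exact zero_ne_one h2
      · intro h4
        rw [if_pos h4] at h2
        by_contra h5
        rw [if_neg h5] at h2
        exact one_ne_zero h2
    revert h3
    generalize φ a = x
    generalize φ b = y
    generalize φ' a = z
    generalize φ' b = t
    revert x y z t
    decide
  have h2 : ∀ a b, φ a + φ' a = φ b + φ' b := by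
    intro a b
    obtain ⟨p⟩ := hc.preconnected a b
    induction p with
    | nil => rfl
    | cons h _ ih => exact (h1 _ _ h).trans ih
  obtain ⟨a⟩ := hc.nonempty
  have h3 : φ a + φ' a = 0 ∨ φ a + φ' a = 1 := by
    generalize φ a + φ' a = x
    revert x
    decide
  have h5 : ∀ x y : Fin 2, x + y = 0 → y = x := by decide
  have h6 : ∀ x y : Fin 2, x + y = 1 → y = x + 1 := by decide
  rcases h3 with h3 | h3
  · left
    funext b
    exact h5 _ _ ((h2 b a).trans h3)
  · right
    funext b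
    exact h6 _ _ ((h2 b a).trans h3)

theorem wt_add (φ : V → Fin 2) :
    ∑ v, (φ v : ℕ) + ∑ v, ((φ + 1) v : ℕ) = Fintype.card V := by
  rw [← Finset.sum_add_distrib, Finset.sum_congr rfl (g := fun _ => 1)]
  · simp
  · intro v _
    show ((φ v : Fin 2) : ℕ) + ((φ v + 1 : Fin 2) : ℕ) = 1
    generalize φ v = x
    revert x
    decide

theorem cut_add_one (μ : Sym2 V → ℕ) (φ : V → Fin 2) : cut μ (φ + 1) = cut μ φ := by
  unfold cut
  apply Finset.sum_congr rfl
  intro s _
  induction s with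
  | h a b =>
    have h1 : (Sym2.map (φ + 1) s(a, b)).IsDiag ↔ (Sym2.map φ s(a, b)).IsDiag := by
      show (s((φ + 1) a, (φ + 1) b)).IsDiag ↔ (s(φ a, φ b)).IsDiag
      rw [Sym2.mk_isDiag_iff, Sym2.mk_isDiag_iff]
      show φ a + 1 = φ b + 1 ↔ φ a = φ b
      exact add_left_inj 1
    simp only [h1]

theorem ne_add_one [Nonempty V] (φ : V → Fin 2) : φ ≠ φ + 1 := by
  intro h
  obtain ⟨v⟩ := ‹Nonempty V›
  have h1 := congrFun h v
  have h2 : φ v = φ v + 1 := h1
  revert h2
  generalize φ v = x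
  revert x
  decide

theorem fiber_eq {μ : Sym2 V → ℕ} (hi : Indep μ) (hc : Conn μ) (φ : V → Fin 2) :
    (univ.filter fun φ' : V → Fin 2 => cut μ φ' = cut μ φ) = {φ, φ + 1} := by
  ext φ'
  rw [Finset.mem_filter, Finset.mem_insert, Finset.mem_singleton]
  constructor
  · rintro ⟨-, h⟩
    exact fiber hi hc φ φ' h.symm
  · rintro (h | h)
    · rw [h]
      exact ⟨Finset.mem_univ _, rfl⟩
    · rw [h, cut_add_one]
      exact ⟨Finset.mem_univ _, rfl⟩

/-- The fibres of the cut values of `ν` have exactly two elements. -/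
theorem fiber_two {q : ℝ} (hq : 1 < q) {μ : Sym2 V → ℕ} (hi : Indep μ) (hc : Conn μ)
    (ν : Sym2 W → ℕ) (h : ∀ x y : ℝ, Bq q μ x y = Bq q ν x y) (ψ : W → Fin 2) :
    (univ.filter fun ψ' : W → Fin 2 => cut ν ψ' = cut ν ψ) = {ψ, ψ + 1} := by
  classical
  have hcard := card_eq hq μ ν h
  have hV : Nonempty V := hc.nonempty
  have hW : Nonempty W := by
    rw [← Fintype.card_pos_iff, ← hcard]
    exact Fintype.card_pos
  have him : (univ : Finset (V → Fin 2)).image (cut μ) = (univ : Finset (W → Fin 2)).image (cut ν) := by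
    ext c
    simp only [Finset.mem_image, Finset.mem_univ, true_and]
    constructor
    · rintro ⟨φ, rfl⟩
      exact exists_col hq μ ν h 2 φ
    · rintro ⟨ψ, rfl⟩
      exact exists_col hq ν μ (fun x y => (h x y).symm) 2 ψ
  have h1 := Finset.card_eq_sum_card_image (cut μ) (univ : Finset (V → Fin 2))
  have h2 := Finset.card_eq_sum_card_image (cut ν) (univ : Finset (W → Fin 2))
  have h3 : (univ : Finset (V → Fin 2)).card = (univ : Finset (W → Fin 2)).card := by
    rw [Finset.card_univ, Finset.card_univ, Fintype.card_fun, Fintype.card_fun, hcard]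
  rw [h1, h2, ← him] at h3
  have h4 : ∀ c ∈ (univ : Finset (V → Fin 2)).image (cut μ),
      (univ.filter fun φ : V → Fin 2 => cut μ φ = c).card ≤
        (univ.filter fun ψ : W → Fin 2 => cut ν ψ = c).card := by
    intro c hcI
    obtain ⟨φ, -, rfl⟩ := Finset.mem_image.1 hcI
    rw [fiber_eq hi hc φ, Finset.card_pair (ne_add_one φ)]
    obtain ⟨ψ, hψ⟩ := exists_col hq μ ν h 2 φ
    refine le_trans (le_of_eq (Finset.card_pair (ne_add_one ψ)).symm) ?_
    apply Finset.card_le_card
    intro ψ' hψ'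
    rw [Finset.mem_filter]
    refine ⟨Finset.mem_univ _, ?_⟩
    rcases Finset.mem_insert.1 hψ' with h5 | h5
    · rw [h5, hψ]
    · rw [Finset.mem_singleton.1 h5, cut_add_one, hψ]
  have h5 := (Finset.sum_eq_sum_iff_of_le h4).1 h3
  have h6 : cut ν ψ ∈ (univ : Finset (V → Fin 2)).image (cut μ) := by
    rw [him]
    exact Finset.mem_image_of_mem _ (Finset.mem_univ _)
  have h7 := h5 _ h6
  obtain ⟨φ, -, hφ⟩ := Finset.mem_image.1 h6
  rw [← hφ, fiber_eq hi hc φ, Finset.card_pair (ne_add_one φ), hφ] at h7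
  symm
  apply Finset.eq_of_subset_of_card_le
  · intro ψ' hψ'
    rw [Finset.mem_filter]
    refine ⟨Finset.mem_univ _, ?_⟩
    rcases Finset.mem_insert.1 hψ' with h5 | h5
    · rw [h5]
    · rw [Finset.mem_singleton.1 h5, cut_add_one]
  · rw [← h7, Finset.card_pair (ne_add_one ψ)]

/-- The numbers of vertices of colour `1` agree, up to complements. -/
theorem wt_eq {q : ℝ} (hq : 1 < q) {μ : Sym2 V → ℕ} (hi : Indep μ) (hc : Conn μ)
    (ν : Sym2 W → ℕ) (h : ∀ x y : ℝ, Bq q μ x y = Bq q ν x y) (φ : V → Fin 2) (ψ : W → Fin 2)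
    (hφ : cut ν ψ = cut μ φ) :
    ∑ w, (ψ w : ℕ) = ∑ v, (φ v : ℕ) ∨ ∑ w, ((ψ + 1) w : ℕ) = ∑ v, (φ v : ℕ) := by
  have hcard := card_eq hq μ ν h
  have hV : Nonempty V := hc.nonempty
  have hW : Nonempty W := by
    rw [← Fintype.card_pos_iff, ← hcard]
    exact Fintype.card_pos
  have h1 := coef hq μ ν h 2 (cut μ φ)
  unfold wcol at h1
  rw [← Finset.sum_filter, ← Finset.sum_filter, fiber_eq hi hc φ, ← hφ,
    fiber_two hq hi hc ν h ψ, Finset.sum_pair (ne_add_one φ), Finset.sum_pair (ne_add_one ψ)] at h1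
  have h2 := wt_add φ
  have h3 := wt_add ψ
  revert h1 h2 h3
  rw [← hcard]
  generalize ∑ v, (φ v : ℕ) = a
  generalize ∑ v, ((φ + 1) v : ℕ) = b
  generalize ∑ v, (ψ v : ℕ) = c
  generalize ∑ v, ((ψ + 1) v : ℕ) = d
  intro h1 h2 h3
  have h4 : (q ^ c - q ^ a) * (q ^ d - q ^ a) = 0 := by
    have h5 : q ^ c * q ^ d = q ^ a * q ^ b := by
      rw [← pow_add, ← pow_add]
      congr 1
      omega
    have h6 : (q ^ c - q ^ a) * (q ^ d - q ^ a) =
        q ^ c * q ^ d - q ^ a * q ^ b + q ^ a * (q ^ a + q ^ b - (q ^ c + q ^ d)) := by ring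
    rw [h6, h5, h1]
    ring
  rcases mul_eq_zero.1 h4 with h5 | h5
  · left
    exact pow_right_injective₀ (by linarith) (by linarith) (sub_eq_zero.1 h5)
  · right
    exact pow_right_injective₀ (by linarith) (by linarith) (sub_eq_zero.1 h5)

end Pool.D131
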