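import Pool.Agent.Lib.MP_d131fa_co.Gen

/-!
# Independent multiplicities: reconstruction of the graph
-/

namespace Pool.D131

open Finset

set_option linter.unusedSectionVars false

variable {V W : Type} [Fintype V] [DecidableEq V] [Fintype W] [DecidableEq W]

/-- The colouring with `a` of colour `1` and all other vertices of colour `0`. -/
def one (a : V) : V → Fin 2 := Pi.single a 1

theorem one_apply (a x : V) : one a x = if x = a then 1 else 0 := by
  unfold one
  rw [Pi.single_apply]

theorem wt_one (a : V) : ∑ v, ((one a v : Fin 2) : ℕ) = 1 := by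
  rw [Finset.sum_eq_single a]
  · rw [one_apply, if_pos rfl]
    rfl
  · intro b _ hb
    rw [one_apply, if_neg hb]
    rfl
  · intro h
    exact absurd (Finset.mem_univ a) h

theorem one_of_wt (φ : V → Fin 2) (h : ∑ v, (φ v : ℕ) = 1) : ∃ a, φ = one a := by
  have h1 : ∃ a, φ a ≠ 0 := by
    by_contra hn
    push Not at hn
    rw [Finset.sum_eq_zero] at h
    · exact zero_ne_one h
    · intro v _
      rw [hn v]
      rfl
  obtain ⟨a, ha⟩ := h1
  refine ⟨a, ?_⟩
  have h2 : φ a = 1 := by
    revert ha
    generalize φ a = x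
    revert x
    decide
  rw [← Finset.add_sum_erase _ _ (Finset.mem_univ a), h2] at h
  have h3 : ∑ v ∈ univ.erase a, (φ v : ℕ) = 0 := by
    have h4 : (((1 : Fin 2)) : ℕ) = 1 := rfl
    omega
  funext b
  rw [one_apply]
  by_cases hb : b = a
  · rw [if_pos hb, hb, h2]
  · rw [if_neg hb]
    have h5 := Finset.sum_eq_zero_iff.1 h3 b (Finset.mem_erase.2 ⟨hb, Finset.mem_univ b⟩)
    exact Fin.ext h5

theorem one_inj {a b : V} (h : one a = one b) : a = b := by
  by_contra hn
  have h1 := congrFun h a
  rw [one_apply, one_apply, if_pos rfl, if_neg hn] at h1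
  exact one_ne_zero h1

/-- The colouring with `a` of colour `1`, `b` of colour `2` and all other vertices of colour `0`. -/
def two (a b : V) : V → Fin 3 := fun x => if x = a then 1 else if x = b then 2 else 0

theorem nm_three {a b : V} (hab : a ≠ b) (s : Sym2 V) :
    2 * nm (two a b) s = nm (one a) s + nm (one b) s + nm (one a + one b) s := by
  induction s with
  | h x y =>
    simp only [nm_mk, two, Pi.add_apply, one_apply]
    by_cases h1 : x = a <;> by_cases h2 : x = b <;> by_cases h3 : y = a <;> by_cases h4 : y = b <;>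
      simp_all

theorem nm_pair {a b : V} (hab : a ≠ b) (s : Sym2 V) :
    nm (one a) s + nm (one b) s = nm (one a + one b) s + 2 * (if s = s(a, b) then 1 else 0) := by
  induction s with
  | h x y =>
    simp only [nm_mk, Pi.add_apply, one_apply, Sym2.eq_iff]
    by_cases h1 : x = a <;> by_cases h2 : x = b <;> by_cases h3 : y = a <;> by_cases h4 : y = b <;>
      simp_all

theorem cut_three (κ : Sym2 V → ℕ) {a b : V} (hab : a ≠ b) :
    2 * (cut κ (two a b) : ℤ) = cut κ (one a) + cut κ (one b) + cut κ (one a + one b) := by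
  rw [cut_int, cut_int, cut_int, cut_int, Finset.mul_sum, ← Finset.sum_add_distrib,
    ← Finset.sum_add_distrib]
  apply Finset.sum_congr rfl
  intro s _
  split_ifs
  · ring
  · have h := nm_three hab s
    linear_combination (κ s : ℤ) * h

theorem cut_pair (κ : Sym2 V → ℕ) {a b : V} (hab : a ≠ b) :
    (cut κ (one a) : ℤ) + cut κ (one b) = cut κ (one a + one b) + 2 * κ s(a, b) := by
  have h1 : ∑ s : Sym2 V, (if s.IsDiag then 0 else (2 * (if s = s(a, b) then 1 else 0)) * (κ s : ℤ)) =
      2 * κ s(a, b) := by
    rw [Finset.sum_eq_single s(a, b)]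
    · rw [if_neg (fun h => hab (Sym2.mk_isDiag_iff.1 h)), if_pos rfl, mul_one]
    · intro s _ hs
      split_ifs
      · rfl
      · ring
    · intro h
      exact absurd (Finset.mem_univ _) h
  rw [← h1, cut_int, cut_int, cut_int, ← Finset.sum_add_distrib, ← Finset.sum_add_distrib]
  apply Finset.sum_congr rfl
  intro s _
  split_ifs with h2 h3
  · ring
  · have h := nm_pair hab s
    rw [if_pos h3] at h
    linear_combination (κ s : ℤ) * h
  · have h := nm_pair hab s
    rw [if_neg h3] at h
    linear_combination (κ s : ℤ) * h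

theorem card_two (h : Fintype.card V = 2) (κ : Sym2 V → ℕ) (a b : V) :
    cut κ (one a) = cut κ (one b) := by
  by_cases hab : a = b
  · rw [hab]
  have h1 : ({a, b} : Finset V) = univ := by
    apply Finset.eq_univ_of_card
    rw [Finset.card_pair hab, h]
  have h2 : one b = one a + 1 := by
    funext x
    show one b x = one a x + 1
    have h3 : x ∈ ({a, b} : Finset V) := by
      rw [h1]
      exact Finset.mem_univ x
    rw [one_apply, one_apply]
    rcases Finset.mem_insert.1 h3 with h4 | h4
    · rw [h4, if_neg hab, if_pos rfl]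
      rfl
    · rw [Finset.mem_singleton.1 h4, if_pos rfl, if_neg (Ne.symm hab)]
      rfl
  rw [h2, cut_add_one]

theorem exists_equiv {q : ℝ} (hq : 1 < q) {μ : Sym2 V → ℕ} (hi : Indep μ) (hc : Conn μ)
    (ν : Sym2 W → ℕ) (h : ∀ x y : ℝ, Bq q μ x y = Bq q ν x y) :
    ∃ e : V ≃ W, ∀ v, cut ν (one (e v)) = cut μ (one v) := by
  classical
  have hcard := card_eq hq μ ν h
  have h1 : ∀ v, ∃ w, cut ν (one w) = cut μ (one v) := by
    intro v
    obtain ⟨ψ, hψ⟩ := exists_col hq μ ν h 2 (one v)
    rcases wt_eq hq hi hc ν h (one v) ψ hψ with h2 | h2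
    · rw [wt_one] at h2
      obtain ⟨w, rfl⟩ := one_of_wt ψ h2
      exact ⟨w, hψ⟩
    · rw [wt_one] at h2
      obtain ⟨w, hw⟩ := one_of_wt (ψ + 1) h2
      refine ⟨w, ?_⟩
      rw [← hw, cut_add_one, hψ]
  choose π hπ using h1
  by_cases hinj : Function.Injective π
  · have hbij : Function.Bijective π :=
      (Fintype.bijective_iff_injective_and_card π).2 ⟨hinj, hcard⟩
    exact ⟨Equiv.ofBijective π hbij, hπ⟩
  · unfold Function.Injective at hinj
    push Not at hinj
    obtain ⟨a, b, hab, hne⟩ := hinj
    have h2 : cut μ (one a) = cut μ (one b) := by rw [← hπ a, ← hπ b, hab]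
    have h3 : Fintype.card V = 2 := by
      rcases fiber hi hc (one a) (one b) h2 with h4 | h4
      · exact absurd (one_inj h4) (Ne.symm hne)
      · have h5 := wt_add (one a)
        rw [← h4, wt_one, wt_one] at h5
        exact h5.symm
    refine ⟨Fintype.equivOfCardEq hcard, fun v => ?_⟩
    rw [card_two (hcard ▸ h3) ν _ (π v), hπ v]

/-- The graph is determined by its q-dichromate, up to the position of the loops. -/
theorem exists_iso {q : ℝ} (hq : 1 < q) {μ : Sym2 V → ℕ} (hi : Indep μ) (hc : Conn μ)
    (ν : Sym2 W → ℕ) (h : ∀ x y : ℝ, Bq q μ x y = Bq q ν x y) :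
    ∃ e : V ≃ W, ∀ s : Sym2 V, ¬ s.IsDiag → ν (s.map e) = μ s := by
  obtain ⟨e, he⟩ := exists_equiv hq hi hc ν h
  refine ⟨e, fun s hs => ?_⟩
  induction s with
  | h k l =>
    have hkl : k ≠ l := fun h => hs (Sym2.mk_isDiag_iff.2 h)
    have hekl : e k ≠ e l := fun h => hkl (e.injective h)
    show ν s(e k, e l) = μ s(k, l)
    obtain ⟨φ, hφ⟩ := exists_col hq ν μ (fun x y => (h x y).symm) 3 (two (e k) (e l))
    obtain ⟨S, hS⟩ := exists_col hq ν μ (fun x y => (h x y).symm) 2 (one (e k) + one (e l))
    have h1 := cut_three ν hekl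
    rw [← hφ, he, he, ← hS] at h1
    have h2 : ∀ s : Sym2 V, ¬ s.IsDiag → μ s ≠ 0 →
        2 * nm φ s - nm (one k) s - nm (one l) s - nm S s = 0 := by
      refine hi (fun s => 2 * nm φ s - nm (one k) s - nm (one l) s - nm S s) ?_ ?_
      · intro s
        unfold nm
        split_ifs <;> norm_num
      · have h3 : 2 * (cut μ φ : ℤ) - cut μ (one k) - cut μ (one l) - cut μ S = 0 := by
          linarith
        rw [cut_int, cut_int, cut_int, cut_int, Finset.mul_sum, ← Finset.sum_sub_distrib,
          ← Finset.sum_sub_distrib, ← Finset.sum_sub_distrib] at h3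
        refine Eq.trans ?_ h3
        apply Finset.sum_congr rfl
        intro s _
        split_ifs
        · ring
        · ring
    have h4 : cut μ S = cut μ (one k + one l) := by
      have h5 : (cut μ S : ℤ) = cut μ (one k + one l) := by
        rw [cut_int, cut_int]
        apply Finset.sum_congr rfl
        intro s _
        split_ifs with h6
        · rfl
        · by_cases h0 : μ s = 0
          · rw [h0]
            simp
          · have h7 := h2 s h6 h0
            have h8 := nm_pair hkl s
            have h9 : ∀ {C : Type} [DecidableEq C] (f : V → C), nm f s = 0 ∨ nm f s = 1 := by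
              intro C _ f
              unfold nm
              split_ifs
              · exact Or.inl rfl
              · exact Or.inr rfl
            congr 1
            rcases h9 S with ha | ha <;> rcases h9 (one k + one l) with hb | hb <;>
              rw [ha, hb] <;> split_ifs at h8 <;> omega
      exact_mod_cast h5
    have h10 := cut_pair ν hekl
    have h11 := cut_pair μ hkl
    rw [he, he, ← hS, h4] at h10
    have h12 : (2 : ℤ) * ν s(e k, e l) = 2 * μ s(k, l) := by linarith
    have h13 : (ν s(e k, e l) : ℤ) = μ s(k, l) := by linarith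
    exact_mod_cast h13

end Pool.D131
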