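import Pool.Agent.Lib.MP_d131fa_co.Rec

/-!
# Connectedness and the cuts of size one
-/

namespace Pool.D131

open Finset

set_option linter.unusedSectionVars false

variable {V W : Type} [Fintype V] [DecidableEq V] [Fintype W] [DecidableEq W]

theorem mono_of_cut_zero {C : Type} [DecidableEq C] {μ : Sym2 V → ℕ} {φ : V → C}
    (h : cut μ φ = 0) {a b : V} (hab : μ s(a, b) ≠ 0) : φ a = φ b := by
  unfold cut at h
  have h1 := Finset.sum_eq_zero_iff.1 h s(a, b) (Finset.mem_univ _)
  by_contra hn
  rw [if_neg] at h1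
  · exact hab h1
  · intro h2
    have h3 : (s(φ a, φ b)).IsDiag := h2
    exact hn (Sym2.mk_isDiag_iff.1 h3)

theorem const_of_cut_zero {C : Type} [DecidableEq C] {μ : Sym2 V → ℕ} (hc : Conn μ) {φ : V → C}
    (h : cut μ φ = 0) (a b : V) : φ a = φ b := by
  obtain ⟨p⟩ := hc.preconnected a b
  induction p with
  | nil => rfl
  | cons h1 _ ih =>
    rw [SimpleGraph.fromEdgeSet_adj] at h1
    exact (mono_of_cut_zero h h1.1).trans ih

theorem wt_zero : ∑ v : V, (((0 : V → Fin 2) v : Fin 2) : ℕ) = 0 := by
  apply Finset.sum_eq_zero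
  intro v _
  rfl

theorem wt_one' : ∑ v : V, (((1 : V → Fin 2) v : Fin 2) : ℕ) = Fintype.card V := by
  have h1 : ∀ v : V, (((1 : V → Fin 2) v : Fin 2) : ℕ) = 1 := fun v => rfl
  rw [Finset.sum_congr rfl fun v _ => h1 v]
  simp

theorem cut_const {C : Type} [DecidableEq C] (μ : Sym2 V → ℕ) {φ : V → C}
    (h : ∀ a b, φ a = φ b) : cut μ φ = 0 := by
  unfold cut
  apply Finset.sum_eq_zero
  intro s _
  rw [if_pos]
  induction s with
  | h a b =>
    show (s(φ a, φ b)).IsDiag
    exact Sym2.mk_isDiag_iff.2 (h a b)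

theorem conn_of {q : ℝ} (hq : 1 < q) {μ : Sym2 V → ℕ} (hc : Conn μ) (ν : Sym2 W → ℕ)
    (h : ∀ x y : ℝ, Bq q μ x y = Bq q ν x y) : Conn ν := by
  classical
  have hcard := card_eq hq μ ν h
  have hV : Nonempty V := hc.nonempty
  have hW : Nonempty W := by
    rw [← Fintype.card_pos_iff, ← hcard]
    exact Fintype.card_pos
  have h01 : (0 : V → Fin 2) ≠ 1 := by
    intro h1
    obtain ⟨v⟩ := hV
    exact zero_ne_one (congrFun h1 v)
  have h01' : (0 : W → Fin 2) ≠ 1 := by
    intro h1
    obtain ⟨v⟩ := hW
    exact zero_ne_one (congrFun h1 v)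
  have h1 : wcol q μ 2 0 = 1 + q ^ Fintype.card V := by
    unfold wcol
    rw [← Finset.sum_filter]
    have h2 : (univ.filter fun φ : V → Fin 2 => cut μ φ = 0) = {0, 1} := by
      ext φ
      rw [Finset.mem_filter, Finset.mem_insert, Finset.mem_singleton]
      constructor
      · rintro ⟨-, h3⟩
        obtain ⟨v⟩ := hV
        have h4 : φ v = 0 ∨ φ v = 1 := by
          generalize φ v = x
          revert x
          decide
        rcases h4 with h4 | h4
        · left
          funext w
          exact (const_of_cut_zero hc h3 w v).trans h4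
        · right
          funext w
          exact (const_of_cut_zero hc h3 w v).trans h4
      · rintro (h3 | h3)
        · rw [h3]
          exact ⟨Finset.mem_univ _, cut_const μ fun a b => rfl⟩
        · rw [h3]
          exact ⟨Finset.mem_univ _, cut_const μ fun a b => rfl⟩
    rw [h2, Finset.sum_pair h01, wt_zero, wt_one', pow_zero]
  rw [coef hq μ ν h] at h1
  unfold Conn
  refine { preconnected := ?_, nonempty := hW }
  intro a b
  by_contra hab
  let ψ : W → Fin 2 := fun w =>
    if (SimpleGraph.fromEdgeSet {s | ν s ≠ 0}).Reachable a w then 1 else 0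
  have ha : ψ a = 1 := if_pos (SimpleGraph.Reachable.refl a)
  have hb : ψ b = 0 := if_neg hab
  have h2 : cut ν ψ = 0 := by
    unfold cut
    apply Finset.sum_eq_zero
    intro s _
    induction s with
    | h c d =>
      by_cases h3 : ν s(c, d) = 0
      · rw [h3]
        simp
      rw [if_pos]
      show (s(ψ c, ψ d)).IsDiag
      rw [Sym2.mk_isDiag_iff]
      by_cases hcd : c = d
      · rw [hcd]
      have h4 : (SimpleGraph.fromEdgeSet {s | ν s ≠ 0}).Adj c d := by
        rw [SimpleGraph.fromEdgeSet_adj]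
        exact ⟨h3, hcd⟩
      have h5 : (SimpleGraph.fromEdgeSet {s | ν s ≠ 0}).Reachable a c ↔
          (SimpleGraph.fromEdgeSet {s | ν s ≠ 0}).Reachable a d :=
        ⟨fun h => h.trans h4.reachable, fun h => h.trans h4.symm.reachable⟩
      show (if _ then _ else _) = (if _ then _ else _)
      simp only [h5]
  have h3 : ψ ≠ 0 := by
    intro h
    rw [h] at ha
    exact zero_ne_one ha
  have h4 : ψ ≠ 1 := by
    intro h
    rw [h] at hb
    exact one_ne_zero hb
  have h5 : ∑ φ ∈ ({0, 1, ψ} : Finset (W → Fin 2)), q ^ (∑ v, (φ v : ℕ)) ≤ wcol q ν 2 0 := by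
    unfold wcol
    rw [← Finset.sum_filter]
    apply Finset.sum_le_sum_of_subset_of_nonneg
    · intro φ hφ
      rw [Finset.mem_filter]
      refine ⟨Finset.mem_univ _, ?_⟩
      simp only [Finset.mem_insert, Finset.mem_singleton] at hφ
      rcases hφ with h | h | h
      · rw [h]
        exact cut_const ν fun a b => rfl
      · rw [h]
        exact cut_const ν fun a b => rfl
      · rw [h, h2]
    · intro φ _ _
      positivity
  rw [Finset.sum_insert, Finset.sum_pair (Ne.symm h4), wt_zero, wt_one', pow_zero, h1, hcard] at h5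
  · have h6 : 0 < q ^ (∑ v, (ψ v : ℕ)) := by positivity
    linarith
  · simp only [Finset.mem_insert, Finset.mem_singleton]
    rintro (h | h)
    · exact h01' h
    · exact h3 h.symm

/-- A colouring with cut value one of a connected graph takes two values. -/
theorem two_values {C : Type} [DecidableEq C] {μ : Sym2 V → ℕ} (hc : Conn μ) {φ : V → C}
    (h : cut μ φ = 1) : ∃ a b, φ a ≠ φ b ∧ ∀ v, φ v = φ a ∨ φ v = φ b := by
  unfold cut at h
  obtain ⟨s0, -, hs0⟩ := Finset.exists_ne_zero_of_sum_ne_zero (by rw [h]; exact one_ne_zero)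
  induction s0 with
  | h a b =>
    have hd : ¬ (Sym2.map φ s(a, b)).IsDiag := fun h1 => hs0 (if_pos h1)
    have hab : φ a ≠ φ b := by
      intro h1
      apply hd
      show (s(φ a, φ b)).IsDiag
      exact Sym2.mk_isDiag_iff.2 h1
    rw [if_neg hd] at hs0
    rw [← Finset.add_sum_erase _ _ (Finset.mem_univ s(a, b)), if_neg hd] at h
    have h1 : ∑ s ∈ univ.erase s(a, b), (if (Sym2.map φ s).IsDiag then 0 else μ s) = 0 := by
      have : μ s(a, b) ≠ 0 := hs0
      omega
    refine ⟨a, b, hab, fun v => ?_⟩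
    have h2 : ∀ u w, (SimpleGraph.fromEdgeSet {s | μ s ≠ 0}).Adj u w →
        (φ u = φ a ∨ φ u = φ b) → (φ w = φ a ∨ φ w = φ b) := by
      intro u w huw hu
      rw [SimpleGraph.fromEdgeSet_adj] at huw
      by_cases h3 : s(u, w) = s(a, b)
      · rcases Sym2.eq_iff.1 h3 with h4 | h4
        · right
          rw [h4.2]
        · left
          rw [h4.2]
      · have h4 := Finset.sum_eq_zero_iff.1 h1 s(u, w)
          (Finset.mem_erase.2 ⟨h3, Finset.mem_univ _⟩)
        have h5 : φ u = φ w := by
          by_contra hn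
          rw [if_neg] at h4
          · exact huw.1 h4
          · intro h6
            have h7 : (s(φ u, φ w)).IsDiag := h6
            exact hn (Sym2.mk_isDiag_iff.1 h7)
        rw [← h5]
        exact hu
    obtain ⟨p⟩ := hc.preconnected a v
    have h3 : ∀ u w, (SimpleGraph.fromEdgeSet {s | μ s ≠ 0}).Walk u w →
        (φ u = φ a ∨ φ u = φ b) → (φ w = φ a ∨ φ w = φ b) := by
      intro u w p
      induction p with
      | nil => exact fun h => h
      | cons h4 _ ih => exact fun h => ih (h2 _ _ h4 h)
    exact h3 _ _ p (Or.inl rfl)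

end Pool.D131
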