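import Pool.Agent.Lib.MP_d131fa_co.Sp1

/-!
# The numbers of vertex sets of given size with one boundary edge are determined
-/

namespace Pool.D131

open Finset

set_option linter.unusedSectionVars false

variable {V W : Type} [Fintype V] [DecidableEq V] [Fintype W] [DecidableEq W]

/-- The last colour on the vertices of colour `1`, the colour `i` on the others. -/
def ext1 {x : ℕ} (φ : V → Fin 2) (i : Fin x) : V → Fin (x + 1) :=
  fun v => if φ v = 1 then Fin.last x else i.castSucc

theorem ext1_eq {x : ℕ} (φ : V → Fin 2) (i : Fin x) (a b : V) :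
    ext1 φ i a = ext1 φ i b ↔ φ a = φ b := by
  have h1 : ∀ t : Fin 2, t = 0 ∨ t = 1 := by decide
  have h2 : i.castSucc ≠ Fin.last x := (Fin.castSucc_lt_last i).ne
  unfold ext1
  rcases h1 (φ a) with ha | ha <;> rcases h1 (φ b) with hb | hb <;> rw [ha, hb] <;>
    simp [h2, h2.symm]

theorem cut_ext1 {x : ℕ} (μ : Sym2 V → ℕ) (φ : V → Fin 2) (i : Fin x) :
    cut μ (ext1 φ i) = cut μ φ := by
  unfold cut
  apply Finset.sum_congr rfl
  intro s _
  induction s with
  | h a b =>
    have h1 : (Sym2.map (ext1 φ i) s(a, b)).IsDiag ↔ (Sym2.map φ s(a, b)).IsDiag := by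
      show (s(ext1 φ i a, ext1 φ i b)).IsDiag ↔ (s(φ a, φ b)).IsDiag
      rw [Sym2.mk_isDiag_iff, Sym2.mk_isDiag_iff]
      exact ext1_eq φ i a b
    simp only [h1]

theorem wt_ext1 {x : ℕ} (φ : V → Fin 2) (i : Fin x) :
    ∑ v, (ext1 φ i v : ℕ) = x * (∑ v, (φ v : ℕ)) + i * ∑ v, ((φ + 1) v : ℕ) := by
  rw [Finset.mul_sum, Finset.mul_sum, ← Finset.sum_add_distrib]
  apply Finset.sum_congr rfl
  intro v _
  have h1 : ∀ t : Fin 2, t = 0 ∨ t = 1 := by decide
  have h2 : (φ + 1) v = φ v + 1 := rfl
  rw [h2]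
  unfold ext1
  rcases h1 (φ v) with h | h
  · rw [h, if_neg (by decide)]
    simp
  · rw [h, if_pos rfl]
    simp

theorem cut_castSucc {x : ℕ} (μ : Sym2 V → ℕ) (φ : V → Fin x) :
    cut μ (fun v => (φ v).castSucc) = cut μ φ := by
  unfold cut
  apply Finset.sum_congr rfl
  intro s _
  induction s with
  | h a b =>
    have h1 : (Sym2.map (fun v => (φ v).castSucc) s(a, b)).IsDiag ↔ (Sym2.map φ s(a, b)).IsDiag := by
      show (s((φ a).castSucc, (φ b).castSucc)).IsDiag ↔ (s(φ a, φ b)).IsDiag
      rw [Sym2.mk_isDiag_iff, Sym2.mk_isDiag_iff]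
      exact (Fin.castSucc_injective x).eq_iff
    simp only [h1]

theorem wcol_succ (q : ℝ) {μ : Sym2 V → ℕ} (hc : Conn μ) (x : ℕ) :
    wcol q μ (x + 1) 1 = wcol q μ x 1 +
      ∑ φ ∈ (univ : Finset (V → Fin 2)).filter (fun φ => cut μ φ = 1),
        ∑ i : Fin x, q ^ (x * (∑ v, (φ v : ℕ)) + i * ∑ v, ((φ + 1) v : ℕ)) := by
  classical
  unfold wcol
  rw [← Finset.sum_filter, ← Finset.sum_filter,
    ← Finset.sum_filter_add_sum_filter_not (univ.filter fun φ : V → Fin (x + 1) => cut μ φ = 1)
      (fun φ => ∀ v, φ v ≠ Fin.last x)]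
  congr 1
  · symm
    refine Finset.sum_bij (fun φ _ => fun v => (φ v).castSucc) ?_ ?_ ?_ ?_
    · intro φ hφ
      rw [Finset.mem_filter, Finset.mem_filter]
      refine ⟨⟨Finset.mem_univ _, ?_⟩, fun v => (Fin.castSucc_lt_last _).ne⟩
      rw [cut_castSucc]
      exact (Finset.mem_filter.1 hφ).2
    · intro φ _ ψ _ h
      funext v
      exact Fin.castSucc_injective x (congrFun h v)
    · intro φ hφ
      rw [Finset.mem_filter, Finset.mem_filter] at hφ
      refine ⟨fun v => (φ v).castPred (hφ.2 v), ?_, ?_⟩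
      · rw [Finset.mem_filter]
        refine ⟨Finset.mem_univ _, ?_⟩
        rw [← cut_castSucc]
        have h1 : (fun v => ((φ v).castPred (hφ.2 v)).castSucc) = φ := by
          funext v
          exact Fin.castSucc_castPred _ _
        rw [h1]
        exact hφ.1.2
      · funext v
        exact Fin.castSucc_castPred _ _
    · intro φ _
      rfl
  · rw [← Finset.sum_product']
    symm
    refine Finset.sum_bij (fun p _ => ext1 p.1 p.2) ?_ ?_ ?_ ?_
    · rintro ⟨φ, i⟩ hp
      rw [Finset.mem_product, Finset.mem_filter] at hp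
      rw [Finset.mem_filter, Finset.mem_filter]
      refine ⟨⟨Finset.mem_univ _, ?_⟩, ?_⟩
      · rw [cut_ext1]
        exact hp.1.2
      · push Not
        by_contra hn
        push Not at hn
        have h1 : cut μ φ = 0 := by
          apply cut_const
          intro a b
          rw [← ext1_eq φ i a b]
          have h2 : ∀ v, φ v = 0 := by
            intro v
            have h3 := hn v
            unfold ext1 at h3
            by_contra h4
            have h5 : φ v = 1 := by
              revert h4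
              generalize φ v = t
              revert t
              decide
            exact h3 (if_pos h5)
          rw [ext1_eq, h2, h2]
        have h2 : cut μ φ = 1 := hp.1.2
        omega
    · rintro ⟨φ, i⟩ hp ⟨ψ, j⟩ _ h
      have h1 : ∀ v, ext1 φ i v = ext1 ψ j v := fun v => congrFun h v
      have h2 : φ = ψ := by
        funext v
        have h3 := h1 v
        unfold ext1 at h3
        have h4 : ∀ t : Fin 2, t = 0 ∨ t = 1 := by decide
        have hi : i.castSucc ≠ Fin.last x := (Fin.castSucc_lt_last i).ne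
        have hj : j.castSucc ≠ Fin.last x := (Fin.castSucc_lt_last j).ne
        rcases h4 (φ v) with ha | ha <;> rcases h4 (ψ v) with hb | hb <;> rw [ha, hb] <;>
          rw [ha, hb] at h3
        · rw [if_neg (by decide), if_pos rfl] at h3
          exact absurd h3 hi
        · rw [if_pos rfl, if_neg (by decide)] at h3
          exact absurd h3.symm hj
      subst h2
      have h5 : ∃ v, φ v = 0 := by
        by_contra hn
        push Not at hn
        have h6 : cut μ φ = 0 := by
          apply cut_const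
          intro a b
          have h7 : ∀ t : Fin 2, t ≠ 0 → t = 1 := by decide
          rw [h7 _ (hn a), h7 _ (hn b)]
        rw [Finset.mem_product, Finset.mem_filter] at hp
        have h8 : cut μ φ = 1 := hp.1.2
        omega
      obtain ⟨v, hv⟩ := h5
      have h6 := h1 v
      unfold ext1 at h6
      rw [hv, if_neg (by decide), if_neg (by decide)] at h6
      have h7 := Fin.castSucc_injective x h6
      rw [h7]
    · intro φ hφ
      rw [Finset.mem_filter, Finset.mem_filter] at hφ
      obtain ⟨⟨-, h1⟩, h2⟩ := hφ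
      push Not at h2
      obtain ⟨v1, hv1⟩ := h2
      obtain ⟨a, b, hab, h3⟩ := two_values hc h1
      have h4 : ∃ c, φ c ≠ Fin.last x ∧ ∀ v, φ v = Fin.last x ∨ φ v = φ c := by
        rcases h3 v1 with h5 | h5
        · refine ⟨b, ?_, ?_⟩
          · rw [← hv1, h5]
            exact Ne.symm hab
          · intro v
            rw [← hv1, h5]
            exact h3 v
        · refine ⟨a, ?_, ?_⟩
          · rw [← hv1, h5]
            exact hab
          · intro v
            rw [← hv1, h5]
            exact (h3 v).symm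
      obtain ⟨c, hc1, hc2⟩ := h4
      have h6 : ext1 (fun v => if φ v = Fin.last x then 1 else 0) ((φ c).castPred hc1) = φ := by
        funext v
        unfold ext1
        beta_reduce
        by_cases h7 : φ v = Fin.last x
        · rw [if_pos h7, if_pos rfl, h7]
        · rw [if_neg h7, if_neg (by decide), Fin.castSucc_castPred]
          exact ((hc2 v).resolve_left h7).symm
      refine ⟨(fun v => if φ v = Fin.last x then 1 else 0, (φ c).castPred hc1), ?_, h6⟩
      rw [Finset.mem_product, Finset.mem_filter]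
      refine ⟨⟨Finset.mem_univ _, ?_⟩, Finset.mem_univ _⟩
      rw [← cut_ext1 μ _ ((φ c).castPred hc1), h6]
      exact h1
    · rintro ⟨φ, i⟩ _
      show q ^ (x * (∑ v, (φ v : ℕ)) + i * ∑ v, ((φ + 1) v : ℕ)) = q ^ (∑ v, (ext1 φ i v : ℕ))
      rw [wt_ext1]

/-- The number of vertex sets of size `s` with one boundary edge. -/
def c1 (μ : Sym2 V → ℕ) (s : ℕ) : ℕ :=
  ((univ : Finset (V → Fin 2)).filter fun φ : V → Fin 2 => cut μ φ = 1 ∧ ∑ v, (φ v : ℕ) = s).card

theorem wt_lt {μ : Sym2 V → ℕ} {φ : V → Fin 2} (h : cut μ φ = 1) :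
    0 < ∑ v, ((φ + 1) v : ℕ) := by
  by_contra hn
  have h1 : ∑ v, ((φ + 1) v : ℕ) = 0 := by omega
  have h2 : cut μ (φ + 1) = 0 := by
    apply cut_const
    intro a b
    have h3 := Finset.sum_eq_zero_iff.1 h1 a (Finset.mem_univ _)
    have h4 := Finset.sum_eq_zero_iff.1 h1 b (Finset.mem_univ _)
    exact Fin.ext (h3.trans h4.symm)
  rw [cut_add_one] at h2
  omega

/-- The polynomial whose value at `q ^ x` is the difference of the weights at `x + 1` and `x`. -/
noncomputable def rpol (q : ℝ) (μ : Sym2 V → ℕ) : Polynomial ℝ :=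
  ∑ φ ∈ (univ : Finset (V → Fin 2)).filter (fun φ => cut μ φ = 1),
    Polynomial.C (1 / (q ^ (∑ v, ((φ + 1) v : ℕ)) - 1)) *
      (Polynomial.X ^ (Fintype.card V) - Polynomial.X ^ (∑ v, (φ v : ℕ)))

theorem rpol_eval {q : ℝ} (hq : 1 < q) {μ : Sym2 V → ℕ} (hc : Conn μ) (x : ℕ) :
    (rpol q μ).eval (q ^ x) = wcol q μ (x + 1) 1 - wcol q μ x 1 := by
  rw [wcol_succ q hc, add_sub_cancel_left]
  unfold rpol
  rw [Polynomial.eval_finsetSum]
  apply Finset.sum_congr rfl
  intro φ hφ
  have h1 := wt_lt (Finset.mem_filter.1 hφ).2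
  have h2 := wt_add φ
  simp only [Polynomial.eval_mul, Polynomial.eval_C, Polynomial.eval_sub, Polynomial.eval_pow,
    Polynomial.eval_X]
  revert h1 h2
  generalize ∑ v, ((φ + 1) v : ℕ) = t
  generalize ∑ v, (φ v : ℕ) = s
  intro h1 h2
  have hqt : q ^ t ≠ 1 := (one_lt_pow₀ hq h1.ne').ne'
  have h3 : ∑ i : Fin x, q ^ (x * s + i * t) = q ^ (x * s) * ∑ i ∈ range x, (q ^ t) ^ i := by
    rw [Finset.sum_range, Finset.mul_sum]
    apply Finset.sum_congr rfl
    intro i _
    rw [pow_add, ← pow_mul, mul_comm t (i : ℕ)]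
  rw [h3, geom_sum_eq hqt, ← h2]
  have h4 : q ^ t - 1 ≠ 0 := sub_ne_zero.2 hqt
  field_simp
  rw [← pow_mul, ← pow_mul, ← pow_mul]
  rw [mul_sub, ← pow_add]
  ring_nf

theorem rpol_coeff {q : ℝ} (μ : Sym2 V → ℕ) {s : ℕ} (hs : s < Fintype.card V) :
    (rpol q μ).coeff s = - ((c1 μ s : ℝ) * (1 / (q ^ (Fintype.card V - s) - 1))) := by
  unfold rpol
  rw [Polynomial.finsetSum_coeff]
  have h1 : ∀ φ : V → Fin 2, (Polynomial.C (1 / (q ^ (∑ v, ((φ + 1) v : ℕ)) - 1)) *
      (Polynomial.X ^ (Fintype.card V) - Polynomial.X ^ (∑ v, (φ v : ℕ)))).coeff s =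
      if ∑ v, (φ v : ℕ) = s then - (1 / (q ^ (Fintype.card V - s) - 1)) else 0 := by
    intro φ
    rw [Polynomial.coeff_C_mul, Polynomial.coeff_sub, Polynomial.coeff_X_pow,
      Polynomial.coeff_X_pow, if_neg (by omega)]
    have h2 := wt_add φ
    split_ifs with h3 h4 h4
    · have h5 : Fintype.card V - s = ∑ v, ((φ + 1) v : ℕ) := by omega
      rw [h5]
      ring
    · omega
    · omega
    · ring
  rw [Finset.sum_congr rfl fun φ _ => h1 φ, ← Finset.sum_filter, Finset.filter_filter,
    Finset.sum_const]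
  unfold c1
  rw [nsmul_eq_mul]
  ring

/-- The numbers `c1` agree. -/
theorem c1_eq {q : ℝ} (hq : 1 < q) {μ : Sym2 V → ℕ} (hc : Conn μ) (ν : Sym2 W → ℕ)
    (h : ∀ x y : ℝ, Bq q μ x y = Bq q ν x y) {s : ℕ} (hs : s < Fintype.card V) :
    c1 μ s = c1 ν s := by
  have hcard := card_eq hq μ ν h
  have hc' := conn_of hq hc ν h
  have h1 : rpol q μ = rpol q ν := by
    apply Polynomial.eq_of_infinite_eval_eq
    have h2 : (Set.range fun x : ℕ => q ^ x).Infinite :=
      Set.infinite_range_of_injective (pow_right_injective₀ (by linarith) (by linarith))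
    refine h2.mono ?_
    rintro _ ⟨x, rfl⟩
    show (rpol q μ).eval (q ^ x) = (rpol q ν).eval (q ^ x)
    rw [rpol_eval hq hc, rpol_eval hq hc', coef hq μ ν h, coef hq μ ν h]
  have h2 := congrArg (fun p => p.coeff s) h1
  have h3 : (rpol q μ).coeff s = (rpol q ν).coeff s := h2
  rw [rpol_coeff μ hs, rpol_coeff ν (hcard ▸ hs), ← hcard] at h3
  have h4 : (1 / (q ^ (Fintype.card V - s) - 1)) ≠ 0 := by
    apply one_div_ne_zero
    apply sub_ne_zero.2
    exact (one_lt_pow₀ hq (by omega)).ne'
  have h5 := mul_right_cancel₀ h4 (neg_injective h3)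
  exact_mod_cast h5

end Pool.D131
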