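import Pool.Agent.Lib.MP_d131fa_co.Sp2

/-!
# The second moment of the cut value and the sum of the squares of the degrees
-/

namespace Pool.D131

open Finset

set_option linter.unusedSectionVars false

variable {V W : Type} [Fintype V] [DecidableEq V] [Fintype W] [DecidableEq W]

/-- The centred variable. -/
noncomputable def e1 (q : ℝ) (t : Fin 2) : ℝ := if t = 0 then -q else 1

/-- The moments of the centred variable. -/
noncomputable def mom (q : ℝ) (k : ℕ) : ℝ := ∑ t : Fin 2, q ^ (t : ℕ) * e1 q t ^ k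

theorem mom_one (q : ℝ) : mom q 1 = 0 := by
  unfold mom e1
  rw [Fin.sum_univ_two]
  simp

theorem mom_two_mul (q : ℝ) (k : ℕ) (hk : k ≤ 1) : mom q (k + k) = q ^ k * (1 + q) := by
  unfold mom e1
  rw [Fin.sum_univ_two]
  interval_cases k
  · simp
  · simp
    ring

theorem sum_mom (q : ℝ) (k : V → ℕ) :
    ∑ φ : V → Fin 2, q ^ (∑ v, (φ v : ℕ)) * ∏ v, e1 q (φ v) ^ k v = ∏ v, mom q (k v) := by
  have h := Finset.prod_univ_sum (fun _ : V => (univ : Finset (Fin 2)))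
    (fun v t => q ^ (t : ℕ) * e1 q t ^ k v)
  rw [Fintype.piFinset_univ] at h
  unfold mom
  rw [h]
  apply Finset.sum_congr rfl
  intro φ _
  rw [Finset.prod_mul_distrib, Finset.prod_pow_eq_pow_sum]

/-- The exponents of the orthogonal family indexed by the vertices and the pairs. -/
def kk : V ⊕ {s : Sym2 V // ¬ s.IsDiag} → V → ℕ
  | Sum.inl a => fun v => if v = a then 1 else 0
  | Sum.inr s => fun v => if v ∈ s.1 then 1 else 0

theorem kk_le (i : V ⊕ {s : Sym2 V // ¬ s.IsDiag}) (v : V) : kk i v ≤ 1 := by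
  rcases i with a | s
  · show (if v = a then 1 else 0) ≤ 1
    split_ifs <;> norm_num
  · show (if v ∈ s.1 then 1 else 0) ≤ 1
    split_ifs <;> norm_num

theorem kk_inj {i j : V ⊕ {s : Sym2 V // ¬ s.IsDiag}} (h : ∀ v, kk i v = kk j v) : i = j := by
  have key : ∀ (a : V) (s : {s : Sym2 V // ¬ s.IsDiag}),
      ¬ ∀ v, (if v = a then 1 else 0) = (if v ∈ s.1 then 1 else 0 : ℕ) := by
    rintro a ⟨s, hs⟩ h
    induction s with
    | h x y =>
      have hxy : x ≠ y := fun h => hs (Sym2.mk_isDiag_iff.2 h)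
      have h1 := h x
      have h2 := h y
      rw [if_pos (Sym2.mem_mk_left x y)] at h1
      rw [if_pos (Sym2.mem_mk_right x y)] at h2
      by_cases hx : x = a
      · by_cases hy : y = a
        · exact hxy (hx.trans hy.symm)
        · rw [if_neg hy] at h2
          exact zero_ne_one h2
      · rw [if_neg hx] at h1
        exact zero_ne_one h1
  rcases i with a | s <;> rcases j with b | t
  · have h1 : (if a = a then 1 else 0) = (if a = b then 1 else 0 : ℕ) := h a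
    rw [if_pos rfl] at h1
    by_cases hab : a = b
    · rw [hab]
    · rw [if_neg hab] at h1
      exact absurd h1 one_ne_zero
  · exact absurd h (key a t)
  · exact absurd (fun v => (h v).symm) (key b s)
  · congr 1
    apply Subtype.ext
    apply Sym2.ext
    intro v
    have h1 : (if v ∈ s.1 then 1 else 0) = (if v ∈ t.1 then 1 else 0 : ℕ) := h v
    constructor
    · intro h2
      rw [if_pos h2] at h1
      by_contra h3
      rw [if_neg h3] at h1
      exact one_ne_zero h1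
    · intro h2
      rw [if_pos h2] at h1
      by_contra h3
      rw [if_neg h3] at h1
      exact zero_ne_one h1

/-- The orthogonal family. -/
noncomputable def eps (q : ℝ) (i : V ⊕ {s : Sym2 V // ¬ s.IsDiag}) (φ : V → Fin 2) : ℝ :=
  ∏ v, e1 q (φ v) ^ kk i v

theorem sum_eps (q : ℝ) (i j : V ⊕ {s : Sym2 V // ¬ s.IsDiag}) :
    ∑ φ : V → Fin 2, q ^ (∑ v, (φ v : ℕ)) * (eps q i φ * eps q j φ) =
      if i = j then q ^ (∑ v, kk i v) * (1 + q) ^ Fintype.card V else 0 := by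
  have h1 : ∀ φ : V → Fin 2, eps q i φ * eps q j φ = ∏ v, e1 q (φ v) ^ (kk i v + kk j v) := by
    intro φ
    unfold eps
    rw [← Finset.prod_mul_distrib]
    apply Finset.prod_congr rfl
    intro v _
    rw [pow_add]
  rw [Finset.sum_congr rfl fun φ _ => by rw [h1 φ], sum_mom]
  split_ifs with hij
  · subst hij
    rw [Finset.prod_congr rfl fun v _ => mom_two_mul q (kk i v) (kk_le i v),
      Finset.prod_mul_distrib, Finset.prod_pow_eq_pow_sum, Finset.prod_const, Finset.card_univ]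
  · have h2 : ∃ v, kk i v ≠ kk j v := by
      by_contra hn
      push Not at hn
      exact hij (kk_inj hn)
    obtain ⟨v, hv⟩ := h2
    apply Finset.prod_eq_zero (Finset.mem_univ v)
    have h3 : kk i v + kk j v = 1 := by
      have := kk_le i v
      have := kk_le j v
      omega
    rw [h3, mom_one]

theorem sum_sq (q : ℝ) (a : V ⊕ {s : Sym2 V // ¬ s.IsDiag} → ℝ) :
    ∑ φ : V → Fin 2, q ^ (∑ v, (φ v : ℕ)) * (∑ i, a i * eps q i φ) ^ 2 =
      ∑ i, a i ^ 2 * (q ^ (∑ v, kk i v) * (1 + q) ^ Fintype.card V) := by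
  have h1 : ∀ φ : V → Fin 2, q ^ (∑ v, (φ v : ℕ)) * (∑ i, a i * eps q i φ) ^ 2 =
      ∑ i, ∑ j, a i * a j * (q ^ (∑ v, (φ v : ℕ)) * (eps q i φ * eps q j φ)) := by
    intro φ
    rw [sq, Finset.sum_mul_sum, Finset.mul_sum]
    apply Finset.sum_congr rfl
    intro i _
    rw [Finset.mul_sum]
    apply Finset.sum_congr rfl
    intro j _
    ring
  rw [Finset.sum_congr rfl fun φ _ => h1 φ, Finset.sum_comm]
  apply Finset.sum_congr rfl
  intro i _
  rw [Finset.sum_comm]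
  have h2 : ∀ j, ∑ φ : V → Fin 2, a i * a j *
      (q ^ (∑ v, (φ v : ℕ)) * (eps q i φ * eps q j φ)) =
      if i = j then a i * a j * (q ^ (∑ v, kk i v) * (1 + q) ^ Fintype.card V) else 0 := by
    intro j
    rw [← Finset.mul_sum, sum_eps]
    split_ifs
    · rfl
    · ring
  rw [Finset.sum_congr rfl fun j _ => h2 j, Finset.sum_ite_eq, if_pos (Finset.mem_univ _)]
  ring

theorem sum_nd {R : Type} [AddCommMonoid R] (f : Sym2 V → R) :
    (∑ s : Sym2 V, if s.IsDiag then 0 else f s) = ∑ s : {s : Sym2 V // ¬ s.IsDiag}, f s.1 := by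
  have h6 : ∀ s : Sym2 V, (if s.IsDiag then 0 else f s) = if ¬ s.IsDiag then f s else 0 := by
    intro s
    split_ifs <;> rfl
  rw [Finset.sum_congr rfl fun s _ => h6 s, ← Finset.sum_filter]
  exact Finset.sum_subtype _ (by simp) f

/-- The degree (loops are not counted). -/
def dg (μ : Sym2 V → ℕ) (v : V) : ℕ := cut μ (one v)

theorem nm_one (v : V) {s : Sym2 V} (hs : ¬ s.IsDiag) :
    nm (one v) s = if v ∈ s then 1 else 0 := by
  induction s with
  | h x y =>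
    have hxy : x ≠ y := fun h => hs (Sym2.mk_isDiag_iff.2 h)
    rw [nm_mk, one_apply, one_apply]
    by_cases h1 : x = v <;> by_cases h2 : y = v <;> simp_all [Sym2.mem_iff, eq_comm]

theorem dg_eq (μ : Sym2 V → ℕ) (v : V) :
    (dg μ v : ℤ) = ∑ s : {s : Sym2 V // ¬ s.IsDiag}, (if v ∈ s.1 then 1 else 0) * (μ s.1 : ℤ) := by
  unfold dg
  rw [cut_int, sum_nd]
  apply Finset.sum_congr rfl
  intro s _
  rw [nm_one v s.2]

theorem sum_mem {R : Type} [AddCommMonoid R] {s : Sym2 V} (hs : ¬ s.IsDiag) (f : V → R) :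
    ∃ a b, a ≠ b ∧ s = s(a, b) ∧ (∑ v, if v ∈ s then f v else 0) = f a + f b := by
  induction s with
  | h x y =>
    have hxy : x ≠ y := fun h => hs (Sym2.mk_isDiag_iff.2 h)
    refine ⟨x, y, hxy, rfl, ?_⟩
    rw [← Finset.sum_filter]
    have h1 : (univ.filter fun v => v ∈ s(x, y)) = {x, y} := by
      ext v
      simp
    rw [h1, Finset.sum_pair hxy]

theorem sum_dg (μ : Sym2 V → ℕ) :
    (∑ v, (dg μ v : ℤ)) = 2 * ∑ s : {s : Sym2 V // ¬ s.IsDiag}, (μ s.1 : ℤ) := by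
  rw [Finset.sum_congr rfl fun v _ => dg_eq μ v, Finset.sum_comm, Finset.mul_sum]
  apply Finset.sum_congr rfl
  intro s _
  rw [← Finset.sum_mul]
  obtain ⟨a, b, _, _, h⟩ := sum_mem s.2 (fun _ => (1 : ℤ))
  rw [h]
  ring

theorem nm_e1 {q : ℝ} (φ : V → Fin 2) (a b : V) :
    (1 + q) ^ 2 * (nm φ s(a, b) : ℝ) =
      2 * q + (1 - q) * (e1 q (φ a) + e1 q (φ b)) - 2 * (e1 q (φ a) * e1 q (φ b)) := by
  rw [nm_mk]
  have h1 : ∀ t : Fin 2, t = 0 ∨ t = 1 := by decide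
  have h2 : (1 : Fin 2) ≠ 0 := by decide
  unfold e1
  rcases h1 (φ a) with ha | ha <;> rcases h1 (φ b) with hb | hb <;> rw [ha, hb] <;>
    simp [h2] <;> ring

theorem eps_inr (q : ℝ) (φ : V → Fin 2) {a b : V} (hab : a ≠ b)
    (hs : ¬ (s(a, b) : Sym2 V).IsDiag) :
    eps q (Sum.inr ⟨s(a, b), hs⟩) φ = e1 q (φ a) * e1 q (φ b) := by
  unfold eps
  have h1 : ∀ v, e1 q (φ v) ^ kk (Sum.inr ⟨s(a, b), hs⟩) v =
      if v ∈ s(a, b) then e1 q (φ v) else 1 := by
    intro v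
    have h2 : kk (Sum.inr ⟨s(a, b), hs⟩) v = if v ∈ s(a, b) then 1 else 0 := rfl
    rw [h2]
    split_ifs
    · rw [pow_one]
    · rw [pow_zero]
  rw [Finset.prod_congr rfl fun v _ => h1 v, ← Finset.prod_filter]
  have h3 : (univ.filter fun v => v ∈ s(a, b)) = {a, b} := by
    ext v
    simp
  rw [h3, Finset.prod_pair hab]

theorem eps_inl (q : ℝ) (φ : V → Fin 2) (a : V) : eps q (Sum.inl a) φ = e1 q (φ a) := by
  unfold eps
  rw [Finset.prod_eq_single a]
  · have h2 : kk (Sum.inl a : V ⊕ {s : Sym2 V // ¬ s.IsDiag}) a = 1 := if_pos rfl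
    rw [h2, pow_one]
  · intro b _ hb
    have h2 : kk (Sum.inl a : V ⊕ {s : Sym2 V // ¬ s.IsDiag}) b = 0 := if_neg hb
    rw [h2, pow_zero]
  · intro h
    exact absurd (Finset.mem_univ a) h

/-- The coefficients of the cut value. -/
noncomputable def acoef (q : ℝ) (μ : Sym2 V → ℕ) : V ⊕ {s : Sym2 V // ¬ s.IsDiag} → ℝ
  | Sum.inl v => (1 - q) * dg μ v
  | Sum.inr s => -2 * μ s.1

theorem cut_expand (q : ℝ) (μ : Sym2 V → ℕ) (φ : V → Fin 2) :
    (1 + q) ^ 2 * (cut μ φ : ℝ) - 2 * q * ∑ s : {s : Sym2 V // ¬ s.IsDiag}, (μ s.1 : ℝ) =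
      ∑ i, acoef q μ i * eps q i φ := by
  have h0 : (cut μ φ : ℝ) = ∑ s : {s : Sym2 V // ¬ s.IsDiag}, (nm φ s.1 : ℝ) * (μ s.1 : ℝ) := by
    have h1 := cut_int μ φ
    rw [sum_nd] at h1
    have h2 : (((cut μ φ : ℤ)) : ℝ) =
        ((∑ s : {s : Sym2 V // ¬ s.IsDiag}, nm φ s.1 * (μ s.1 : ℤ) : ℤ) : ℝ) := by rw [h1]
    push_cast at h2
    exact h2
  rw [Fintype.sum_sum_type, h0]
  have h3 : ∀ v, (dg μ v : ℝ) =
      ∑ s : {s : Sym2 V // ¬ s.IsDiag}, if v ∈ s.1 then (μ s.1 : ℝ) else 0 := by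
    intro v
    have h4 := dg_eq μ v
    have h5 : (((dg μ v : ℤ)) : ℝ) = ((∑ s : {s : Sym2 V // ¬ s.IsDiag},
      (if v ∈ s.1 then 1 else 0) * (μ s.1 : ℤ) : ℤ) : ℝ) := by rw [h4]
    push_cast at h5
    rw [h5]
    apply Finset.sum_congr rfl
    intro s _
    split_ifs <;> ring
  have h6 : ∑ v, acoef q μ (Sum.inl v) * eps q (Sum.inl v) φ =
      ∑ s : {s : Sym2 V // ¬ s.IsDiag}, (1 - q) * (μ s.1 : ℝ) *
        ∑ v, if v ∈ s.1 then e1 q (φ v) else 0 := by
    have h7 : ∀ v, acoef q μ (Sum.inl v) * eps q (Sum.inl v) φ =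
        ∑ s : {s : Sym2 V // ¬ s.IsDiag}, (1 - q) * (μ s.1 : ℝ) *
          (if v ∈ s.1 then e1 q (φ v) else 0) := by
      intro v
      have h8 : acoef q μ (Sum.inl v) = (1 - q) * dg μ v := rfl
      rw [h8, eps_inl, h3 v, Finset.mul_sum, Finset.sum_mul]
      apply Finset.sum_congr rfl
      intro s _
      split_ifs <;> ring
    rw [Finset.sum_congr rfl fun v _ => h7 v, Finset.sum_comm]
    apply Finset.sum_congr rfl
    intro s _
    rw [Finset.mul_sum]
  rw [h6, Finset.mul_sum, Finset.mul_sum, ← Finset.sum_sub_distrib, ← Finset.sum_add_distrib]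
  apply Finset.sum_congr rfl
  rintro ⟨s, hs⟩ _
  have h9 : acoef q μ (Sum.inr ⟨s, hs⟩) = -2 * μ s := rfl
  rw [h9]
  obtain ⟨a, b, hab, rfl, h10⟩ := sum_mem hs (fun v => e1 q (φ v))
  rw [h10, eps_inr q φ hab hs]
  have h11 := nm_e1 (q := q) φ a b
  show (1 + q) ^ 2 * ((nm φ s(a, b) : ℝ) * (μ s(a, b) : ℝ)) - 2 * q * (μ s(a, b) : ℝ) = _
  linear_combination (μ s(a, b) : ℝ) * h11

theorem second_moment (q : ℝ) (μ : Sym2 V → ℕ) :
    ∑ φ : V → Fin 2, q ^ (∑ v, (φ v : ℕ)) * ((1 + q) ^ 2 * (cut μ φ : ℝ) -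
        2 * q * ∑ s : {s : Sym2 V // ¬ s.IsDiag}, (μ s.1 : ℝ)) ^ 2 =
      (1 + q) ^ Fintype.card V * (q * (1 - q) ^ 2 * ∑ v, (dg μ v : ℝ) ^ 2 +
        4 * q ^ 2 * ∑ s : {s : Sym2 V // ¬ s.IsDiag}, (μ s.1 : ℝ) ^ 2) := by
  rw [Finset.sum_congr rfl fun φ _ => by rw [cut_expand q μ φ], sum_sq, Fintype.sum_sum_type,
    mul_add, Finset.mul_sum, Finset.mul_sum, Finset.mul_sum, Finset.mul_sum]
  congr 1
  · apply Finset.sum_congr rfl
    intro v _
    have h1 : ∑ w, kk (Sum.inl v : V ⊕ {s : Sym2 V // ¬ s.IsDiag}) w = 1 := by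
      show ∑ w, (if w = v then 1 else 0) = 1
      rw [Finset.sum_ite_eq', if_pos (Finset.mem_univ _)]
    have h2 : acoef q μ (Sum.inl v) = (1 - q) * dg μ v := rfl
    rw [h1, h2]
    ring
  · apply Finset.sum_congr rfl
    rintro ⟨s, hs⟩ _
    have h1 : ∑ w, kk (Sum.inr ⟨s, hs⟩ : V ⊕ {s : Sym2 V // ¬ s.IsDiag}) w = 2 := by
      show ∑ w, (if w ∈ s then 1 else 0) = 2
      obtain ⟨a, b, _, _, h⟩ := sum_mem hs (fun _ => (1 : ℕ))
      rw [h]
    have h2 : acoef q μ (Sum.inr ⟨s, hs⟩) = -2 * μ s := rfl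
    rw [h1, h2]
    ring

end Pool.D131
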