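import Pool.Agent.Lib.MP_d131fa_co.Sp3

/-!
# Trees: the degrees
-/

namespace Pool.D131

open Finset

set_option linter.unusedSectionVars false

variable {V W : Type} [Fintype V] [DecidableEq V] [Fintype W] [DecidableEq W]

/-- The graph is a tree. -/
def IsTree (μ : Sym2 V → ℕ) : Prop := Conn μ ∧ size μ + 1 = Fintype.card V

/-- A tree has no parallel edges and no loops. -/
theorem tree_mult {μ : Sym2 V → ℕ} (h : IsTree μ) (s : Sym2 V) :
    μ s = if ¬ s.IsDiag ∧ μ s ≠ 0 then 1 else 0 := by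
  classical
  have h1 := h.1.card_vert_le_card_edgeSet_add_one
  rw [Nat.card_eq_fintype_card, ← h.2] at h1
  have h2 : Nat.card (SimpleGraph.fromEdgeSet {s | μ s ≠ 0}).edgeSet =
      ∑ s : Sym2 V, if ¬ s.IsDiag ∧ μ s ≠ 0 then 1 else 0 := by
    rw [Nat.card_eq_fintype_card, ← Finset.card_filter, Fintype.card_subtype]
    congr 1
    ext t
    rw [Finset.mem_filter, Finset.mem_filter, SimpleGraph.edgeSet_fromEdgeSet]
    constructor
    · rintro ⟨h3, h4, h5⟩
      exact ⟨h3, h5, h4⟩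
    · rintro ⟨h3, h5, h4⟩
      exact ⟨h3, h4, h5⟩
  rw [h2] at h1
  have h3 : ∀ s ∈ (univ : Finset (Sym2 V)), (if ¬ s.IsDiag ∧ μ s ≠ 0 then 1 else 0) ≤ μ s := by
    intro s _
    split_ifs with h4
    · omega
    · exact Nat.zero_le _
  have h4 : ∑ s : Sym2 V, (if ¬ s.IsDiag ∧ μ s ≠ 0 then 1 else 0) = ∑ s : Sym2 V, μ s := by
    apply le_antisymm (Finset.sum_le_sum h3)
    have h5 : size μ = ∑ s : Sym2 V, μ s := rfl
    omega
  exact ((Finset.sum_eq_sum_iff_of_le h3).1 h4 s (Finset.mem_univ _)).symm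

theorem tree_le {μ : Sym2 V → ℕ} (h : IsTree μ) (s : Sym2 V) : μ s ≤ 1 := by
  rw [tree_mult h s]
  split_ifs <;> norm_num

theorem tree_sq {μ : Sym2 V → ℕ} (h : IsTree μ) :
    (∑ s : {s : Sym2 V // ¬ s.IsDiag}, (μ s.1 : ℝ)) = size μ ∧
      (∑ s : {s : Sym2 V // ¬ s.IsDiag}, (μ s.1 : ℝ) ^ 2) = size μ ∧
      (∑ s : {s : Sym2 V // ¬ s.IsDiag}, (μ s.1 : ℤ)) = size μ := by
  have h1 : (∑ s : {s : Sym2 V // ¬ s.IsDiag}, μ s.1) = size μ := by
    rw [← sum_nd μ]
    unfold size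
    apply Finset.sum_congr rfl
    intro s _
    by_cases hs : s.IsDiag
    · rw [if_pos hs, tree_mult h s, if_neg (fun h => h.1 hs)]
    · rw [if_neg hs]
  have h2 : ∀ s : {s : Sym2 V // ¬ s.IsDiag}, (μ s.1 : ℝ) ^ 2 = μ s.1 := by
    intro s
    have h3 := tree_le h s.1
    interval_cases hm : μ s.1 <;> norm_num
  refine ⟨?_, ?_, ?_⟩
  · rw [← h1]
    push_cast
    rfl
  · rw [Finset.sum_congr rfl fun s _ => h2 s, ← h1]
    push_cast
    rfl
  · rw [← h1]
    push_cast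
    rfl

theorem tree_of {q : ℝ} (hq : 1 < q) {μ : Sym2 V → ℕ} (ht : IsTree μ) (ν : Sym2 W → ℕ)
    (h : ∀ x y : ℝ, Bq q μ x y = Bq q ν x y) : IsTree ν :=
  ⟨conn_of hq ht.1 ν h, by rw [← size_eq hq μ ν h, ht.2, card_eq hq μ ν h]⟩

/-- Sums over the colourings with two colours of functions of the cut value are determined. -/
theorem sum_fun {q : ℝ} (hq : 1 < q) (μ : Sym2 V → ℕ) (ν : Sym2 W → ℕ)
    (h : ∀ x y : ℝ, Bq q μ x y = Bq q ν x y) (g : ℕ → ℝ) :
    ∑ φ : V → Fin 2, q ^ (∑ v, (φ v : ℕ)) * g (cut μ φ) =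
      ∑ φ : W → Fin 2, q ^ (∑ v, (φ v : ℕ)) * g (cut ν φ) := by
  have key : ∀ {X : Type} [Fintype X] [DecidableEq X] (κ : Sym2 X → ℕ), size κ = size μ →
      ∑ φ : X → Fin 2, q ^ (∑ v, (φ v : ℕ)) * g (cut κ φ) =
        ∑ c ∈ range (size μ + 1), wcol q κ 2 c * g c := by
    intro X _ _ κ hκ
    have h1 : ∀ φ : X → Fin 2, q ^ (∑ v, (φ v : ℕ)) * g (cut κ φ) =
        ∑ c ∈ range (size μ + 1), (if cut κ φ = c then q ^ (∑ v, (φ v : ℕ)) else 0) * g c := by
      intro φ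
      rw [Finset.sum_eq_single (cut κ φ)]
      · rw [if_pos rfl]
      · intro c _ hc
        rw [if_neg (Ne.symm hc), zero_mul]
      · intro hn
        have h2 := cut_le κ φ
        rw [Finset.mem_range] at hn
        omega
    rw [Finset.sum_congr rfl fun φ _ => h1 φ, Finset.sum_comm]
    apply Finset.sum_congr rfl
    intro c _
    rw [← Finset.sum_mul]
    rfl
  rw [key μ rfl, key ν (size_eq hq μ ν h).symm]
  apply Finset.sum_congr rfl
  intro c _
  rw [coef hq μ ν h]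

/-- The sums of the squares of the degrees agree. -/
theorem sq_eq {q : ℝ} (hq : 1 < q) {μ : Sym2 V → ℕ} (ht : IsTree μ) (ν : Sym2 W → ℕ)
    (h : ∀ x y : ℝ, Bq q μ x y = Bq q ν x y) : ∑ v, dg μ v ^ 2 = ∑ v, dg ν v ^ 2 := by
  have ht' := tree_of hq ht ν h
  have hs := size_eq hq μ ν h
  have hcard := card_eq hq μ ν h
  have h1 := second_moment q μ
  have h2 := second_moment q ν
  obtain ⟨ha, hb, -⟩ := tree_sq ht
  obtain ⟨ha', hb', -⟩ := tree_sq ht'
  rw [ha, hb] at h1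
  rw [ha', hb', ← hs, ← hcard] at h2
  have h3 := sum_fun hq μ ν h (fun c => ((1 + q) ^ 2 * (c : ℝ) - 2 * q * size μ) ^ 2)
  have h4 : (1 + q) ^ Fintype.card V * (q * (1 - q) ^ 2 * ∑ v, (dg μ v : ℝ) ^ 2 +
        4 * q ^ 2 * size μ) = (1 + q) ^ Fintype.card V * (q * (1 - q) ^ 2 * ∑ v, (dg ν v : ℝ) ^ 2 +
        4 * q ^ 2 * size μ) := by
    rw [← h1, ← h2]
    exact h3
  have h5 : (1 + q) ^ Fintype.card V ≠ 0 := by positivity
  have h6 := mul_left_cancel₀ h5 h4
  have h7 : q * (1 - q) ^ 2 ≠ 0 := by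
    apply mul_ne_zero (by linarith)
    apply pow_ne_zero
    linarith
  have h8 : q * (1 - q) ^ 2 * ∑ v, (dg μ v : ℝ) ^ 2 = q * (1 - q) ^ 2 * ∑ v, (dg ν v : ℝ) ^ 2 := by
    linarith
  have h9 := mul_left_cancel₀ h7 h8
  exact_mod_cast h9

/-- The number of leaves. -/
theorem c1_one (μ : Sym2 V → ℕ) : c1 μ 1 = (univ.filter fun v => dg μ v = 1).card := by
  unfold c1
  symm
  refine Finset.card_bij (fun v _ => one v) ?_ ?_ ?_
  · intro v hv
    rw [Finset.mem_filter] at hv ⊢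
    exact ⟨Finset.mem_univ _, hv.2, wt_one v⟩
  · intro a _ b _ hab
    exact one_inj hab
  · intro φ hφ
    rw [Finset.mem_filter] at hφ
    obtain ⟨a, rfl⟩ := one_of_wt φ hφ.2.2
    exact ⟨a, Finset.mem_filter.2 ⟨Finset.mem_univ _, hφ.2.1⟩, rfl⟩

/-- In a connected graph with at least two vertices the degrees are positive. -/
theorem dg_pos {μ : Sym2 V → ℕ} (hc : Conn μ) (h2 : 2 ≤ Fintype.card V) (v : V) : 1 ≤ dg μ v := by
  by_contra hn
  have h1 : cut μ (one v) = 0 := by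
    unfold dg at hn
    omega
  have h3 : ∃ w, w ≠ v := by
    have h4 : Nontrivial V := Fintype.one_lt_card_iff_nontrivial.1 h2
    exact exists_ne v
  obtain ⟨w, hw⟩ := h3
  have h4 := const_of_cut_zero hc h1 w v
  rw [one_apply, one_apply, if_neg hw, if_pos rfl] at h4
  exact zero_ne_one h4

/-- The excess `S` and its second moment `T`. -/
def exS (μ : Sym2 V → ℕ) : ℕ := ∑ v, (dg μ v - 2)

/-- The second moment of the excess. -/
def exT (μ : Sym2 V → ℕ) : ℕ := ∑ v, (dg μ v - 2) * (dg μ v - 2 + 1)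

theorem exS_eq {μ : Sym2 V → ℕ} (hc : Conn μ) (h2 : 2 ≤ Fintype.card V) :
    ∑ v, dg μ v + c1 μ 1 = 2 * Fintype.card V + exS μ := by
  rw [c1_one, Finset.card_filter]
  unfold exS
  have h3 : 2 * Fintype.card V = ∑ _v : V, 2 := by simp [mul_comm]
  rw [h3, ← Finset.sum_add_distrib, ← Finset.sum_add_distrib]
  apply Finset.sum_congr rfl
  intro v _
  have h4 := dg_pos hc h2 v
  split_ifs with h5
  · omega
  · omega

theorem exT_eq {μ : Sym2 V → ℕ} (hc : Conn μ) (h2 : 2 ≤ Fintype.card V) :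
    ∑ v, dg μ v ^ 2 + 2 * Fintype.card V = 3 * ∑ v, dg μ v + exT μ := by
  unfold exT
  have h3 : 2 * Fintype.card V = ∑ _v : V, 2 := by simp [mul_comm]
  rw [h3, Finset.mul_sum, ← Finset.sum_add_distrib, ← Finset.sum_add_distrib]
  apply Finset.sum_congr rfl
  intro v _
  have h4 := dg_pos hc h2 v
  rcases Nat.lt_or_ge (dg μ v) 2 with h5 | h5
  · have h6 : dg μ v = 1 := by omega
    rw [h6]
    norm_num
  · obtain ⟨k, hk⟩ := Nat.exists_eq_add_of_le h5
    rw [hk]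
    have h7 : 2 + k - 2 = k := by omega
    rw [h7]
    ring

/-- At most one vertex of degree at least three, except possibly `c`. -/
theorem exists_center {q : ℝ} (hq : 1 < q) {μ : Sym2 V → ℕ} (ht : IsTree μ) {c : V}
    (hcen : ∀ v, v ≠ c → dg μ v ≤ 2) (ν : Sym2 W → ℕ)
    (h : ∀ x y : ℝ, Bq q μ x y = Bq q ν x y) : ∃ c', ∀ w, w ≠ c' → dg ν w ≤ 2 := by
  classical
  have ht' := tree_of hq ht ν h
  have hs := size_eq hq μ ν h
  have hcard := card_eq hq μ ν h
  obtain ⟨w0⟩ := ht'.1.nonempty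
  rcases Nat.lt_or_ge (Fintype.card V) 2 with h2 | h2
  · refine ⟨w0, fun w hw => absurd ?_ hw⟩
    rw [hcard] at h2
    have h3 : Subsingleton W := Fintype.card_le_one_iff_subsingleton.1 (by omega)
    exact Subsingleton.elim _ _
  have hsum : ∑ v, dg μ v = ∑ v, dg ν v := by
    have h3 := sum_dg μ
    have h4 := sum_dg ν
    rw [(tree_sq ht).2.2] at h3
    rw [(tree_sq ht').2.2, ← hs, ← h3] at h4
    exact_mod_cast h4.symm
  have hS : exS μ = exS ν := by
    have h3 := exS_eq ht.1 h2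
    have h4 := exS_eq ht'.1 (hcard ▸ h2)
    rw [c1_eq hq ht.1 ν h (by omega), hcard, hsum] at h3
    omega
  have hT : exT μ = exT ν := by
    have h3 := exT_eq ht.1 h2
    have h4 := exT_eq ht'.1 (hcard ▸ h2)
    rw [sq_eq hq ht ν h, hcard, hsum] at h3
    omega
  have h5 : exT μ = exS μ * (exS μ + 1) := by
    unfold exT exS
    have h6 : ∀ f : V → ℕ, (∀ v, v ≠ c → f v = 0) → ∑ v, f v = f c := by
      intro f hf
      apply Finset.sum_eq_single c
      · intro b _ hb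
        exact hf b hb
      · intro hn
        exact absurd (Finset.mem_univ c) hn
    rw [h6, h6]
    · intro v hv
      have := hcen v hv
      omega
    · intro v hv
      have := hcen v hv
      have h7 : dg μ v - 2 = 0 := by omega
      rw [h7, zero_mul]
  rw [hS, hT] at h5
  by_contra hn
  push Not at hn
  obtain ⟨a, -, ha⟩ := hn w0
  obtain ⟨b, hba, hb⟩ := hn a
  have h6 : exS ν = (dg ν a - 2) + ((dg ν b - 2) + ∑ v ∈ (univ.erase a).erase b, (dg ν v - 2)) := by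
    unfold exS
    rw [← Finset.add_sum_erase _ _ (Finset.mem_univ a),
      ← Finset.add_sum_erase (univ.erase a) _ (Finset.mem_erase.2 ⟨hba, Finset.mem_univ b⟩)]
  have h7 : exT ν = (dg ν a - 2) * (dg ν a - 2 + 1) + ((dg ν b - 2) * (dg ν b - 2 + 1) +
      ∑ v ∈ (univ.erase a).erase b, (dg ν v - 2) * (dg ν v - 2 + 1)) := by
    unfold exT
    rw [← Finset.add_sum_erase _ _ (Finset.mem_univ a),
      ← Finset.add_sum_erase (univ.erase a) _ (Finset.mem_erase.2 ⟨hba, Finset.mem_univ b⟩)]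
  have h8 : ∑ v ∈ (univ.erase a).erase b, (dg ν v - 2) * (dg ν v - 2 + 1) ≤
      (∑ v ∈ (univ.erase a).erase b, (dg ν v - 2)) *
        (∑ v ∈ (univ.erase a).erase b, (dg ν v - 2) + 1) := by
    rw [Finset.sum_mul]
    apply Finset.sum_le_sum
    intro v hv
    apply Nat.mul_le_mul_left
    apply Nat.add_le_add_right
    exact Finset.single_le_sum (f := fun v => dg ν v - 2) (fun _ _ => Nat.zero_le _) hv
  rw [h7, h6] at h5
  revert h5 h8
  have ha' : 1 ≤ dg ν a - 2 := by omega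
  have hb' : 1 ≤ dg ν b - 2 := by omega
  revert ha' hb'
  generalize dg ν a - 2 = x
  generalize dg ν b - 2 = y
  generalize ∑ v ∈ (univ.erase a).erase b, (dg ν v - 2) = z
  generalize ∑ v ∈ (univ.erase a).erase b, (dg ν v - 2) * (dg ν v - 2 + 1) = t
  intro hx hy h5 h8
  nlinarith [Nat.mul_le_mul hx hy, Nat.zero_le (x * z), Nat.zero_le (y * z)]

end Pool.D131

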