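import Pool.Agent.Lib.MP_d131fa_co.Sp4

/-!
# Trees with a centre: the parent function
-/

namespace Pool.D131

open Finset

set_option linter.unusedSectionVars false

variable {V W : Type} [Fintype V] [DecidableEq V] [Fintype W] [DecidableEq W]

/-- A parent function `p` and the distance `d` to the centre `c`; outside the centre every vertex
has at most one child. -/
structure Sp (c : V) (p : V → V) (d : V → ℕ) : Prop where
  /-- the centre is fixed -/
  pc : p c = c
  /-- the centre is the vertex at distance `0` -/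
  d0 : ∀ v, d v = 0 ↔ v = c
  /-- the parent is closer -/
  dp : ∀ v, d (p v) = d v - 1
  /-- at most one child -/
  inj : ∀ v w, v ≠ c → w ≠ c → p v = p w → p v ≠ c → v = w

/-- A centred tree has a parent function, whose pairs are the edges. -/
theorem exists_parent {κ : Sym2 V → ℕ} (ht : IsTree κ) {c : V}
    (hcen : ∀ v, v ≠ c → dg κ v ≤ 2) :
    ∃ (p : V → V) (d : V → ℕ), Sp c p d ∧
      (∀ a b, a ≠ b → (κ s(a, b) ≠ 0 ↔ (a ≠ c ∧ p a = b) ∨ (b ≠ c ∧ p b = a))) ∧
      ∀ φ : V → Fin 2, cut κ φ = (univ.filter fun v => v ≠ c ∧ φ v ≠ φ (p v)).card := by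
  classical
  let G := SimpleGraph.fromEdgeSet {s | κ s ≠ 0}
  have hG : G.Connected := ht.1
  have h1 : ∀ v, ∃ u, (v = c → u = c) ∧ (v ≠ c → G.Adj v u) ∧ G.dist u c = G.dist v c - 1 := by
    intro v
    by_cases hv : v = c
    · refine ⟨c, fun _ => rfl, fun h => absurd hv h, ?_⟩
      rw [hv, SimpleGraph.dist_self]
    · obtain ⟨w, hw⟩ := (hG.preconnected v c).exists_walk_length_eq_dist
      cases w with
      | nil => exact absurd rfl hv
      | cons h w' =>
        rename_i u
        refine ⟨u, fun h' => absurd h' hv, fun _ => h, ?_⟩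
        rw [SimpleGraph.Walk.length_cons] at hw
        have h2 := SimpleGraph.dist_le w'
        have h3 := hG.dist_triangle (u := v) (v := u) (w := c)
        have h4 : G.dist v u = 1 := SimpleGraph.dist_eq_one_iff_adj.2 h
        omega
  choose p hp1 hp2 hp3 using h1
  let d : V → ℕ := fun v => G.dist v c
  have hd0 : ∀ v, d v = 0 ↔ v = c := fun v => hG.dist_eq_zero_iff
  have hdp : ∀ v, d (p v) = d v - 1 := hp3
  have hne : ∀ v, v ≠ c → p v ≠ v := by
    intro v hv h
    have h2 := hdp v
    rw [h] at h2
    have h3 : d v ≠ 0 := fun h => hv ((hd0 v).1 h)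
    omega
  -- the map to the edges is injective
  have hinj : ∀ v w, v ≠ c → w ≠ c → s(v, p v) = s(w, p w) → v = w := by
    intro v w hv hw h
    rcases Sym2.eq_iff.1 h with h2 | h2
    · exact h2.1
    · exfalso
      have h3 := hdp v
      have h4 := hdp w
      rw [h2.2] at h3
      rw [← h2.1] at h4
      have h5 : d v ≠ 0 := fun h => hv ((hd0 v).1 h)
      have h6 : d w ≠ 0 := fun h => hw ((hd0 w).1 h)
      omega
  have hadj : ∀ v, v ≠ c → κ s(v, p v) ≠ 0 ∧ v ≠ p v := by
    intro v hv
    have h2 := hp2 v hv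
    rw [SimpleGraph.fromEdgeSet_adj] at h2
    exact h2
  let E : Finset (Sym2 V) := univ.filter fun s => κ s ≠ 0
  have hnd : ∀ s, κ s ≠ 0 → ¬ s.IsDiag := by
    intro s hs hd
    apply hs
    rw [tree_mult ht s, if_neg (fun h => h.1 hd)]
  have hone : ∀ s, κ s ≠ 0 → κ s = 1 := by
    intro s hs
    rw [tree_mult ht s, if_pos ⟨hnd s hs, hs⟩]
  have hEcard : E.card = size κ := by
    rw [Finset.card_filter]
    unfold size
    apply Finset.sum_congr rfl
    intro s _
    by_cases hs : κ s = 0
    · rw [if_neg (fun h => h hs), hs]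
    · rw [if_pos hs, hone s hs]
  have hE : (univ.filter fun v : V => v ≠ c).image (fun v => s(v, p v)) = E := by
    apply Finset.eq_of_subset_of_card_le
    · intro s hs
      obtain ⟨v, hv, rfl⟩ := Finset.mem_image.1 hs
      exact Finset.mem_filter.2 ⟨Finset.mem_univ _, (hadj v (Finset.mem_filter.1 hv).2).1⟩
    · rw [Finset.card_image_of_injOn, hEcard]
      · have h2 : (univ.filter fun v : V => v ≠ c) = univ.erase c := by
          ext v
          simp
        rw [h2, Finset.card_erase_of_mem (Finset.mem_univ c), Finset.card_univ, ← ht.2]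
        omega
      · intro v hv w hw h
        exact hinj v w (Finset.mem_filter.1 hv).2 (Finset.mem_filter.1 hw).2 h
  have hcut : ∀ φ : V → Fin 2, cut κ φ =
      (univ.filter fun v => v ≠ c ∧ φ v ≠ φ (p v)).card := by
    intro φ
    have h2 : cut κ φ = ∑ s ∈ E, if (s.map φ).IsDiag then 0 else 1 := by
      unfold cut
      rw [Finset.sum_filter]
      apply Finset.sum_congr rfl
      intro s _
      by_cases hs : κ s = 0
      · simp [hs]
      · have h3 : (if κ s ≠ 0 then (if (s.map φ).IsDiag then 0 else 1) else 0) =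
            if (s.map φ).IsDiag then 0 else 1 := if_pos hs
        rw [h3, hone s hs]
    rw [h2, ← hE, Finset.sum_image (fun v hv w hw h =>
      hinj v w (Finset.mem_filter.1 hv).2 (Finset.mem_filter.1 hw).2 h), ← Finset.filter_filter,
      Finset.card_filter]
    apply Finset.sum_congr rfl
    intro v _
    have h3 : (Sym2.map φ s(v, p v)).IsDiag ↔ φ v = φ (p v) := Sym2.mk_isDiag_iff
    by_cases h4 : φ v = φ (p v)
    · rw [if_pos (h3.2 h4), if_neg (fun h => h h4)]
    · rw [if_neg (fun h => h4 (h3.1 h)), if_pos h4]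
  refine ⟨p, d, ⟨hp1 c rfl, hd0, hdp, ?_⟩, ?_, hcut⟩
  · intro v w hv hw hpv hpc
    by_contra hvw
    have h2 := hcen (p v) hpc
    have h3 : ({p v, v, w} : Finset V) ⊆
        univ.filter fun u => u ≠ c ∧ one (p v) u ≠ one (p v) (p u) := by
      intro u hu
      rw [Finset.mem_filter]
      refine ⟨Finset.mem_univ _, ?_⟩
      rw [one_apply, one_apply]
      simp only [Finset.mem_insert, Finset.mem_singleton] at hu
      rcases hu with hu | hu | hu
      · subst hu
        rw [if_pos rfl, if_neg (hne _ hpc)]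
        exact ⟨hpc, one_ne_zero⟩
      · subst hu
        rw [if_neg (Ne.symm (hne _ hv)), if_pos rfl]
        exact ⟨hv, zero_ne_one⟩
      · subst hu
        rw [hpv, if_neg (Ne.symm (hne _ hw)), if_pos rfl]
        exact ⟨hw, zero_ne_one⟩
    have h4 := Finset.card_le_card h3
    rw [← hcut] at h4
    have h5 : ({p v, v, w} : Finset V).card = 3 := by
      rw [Finset.card_insert_of_notMem, Finset.card_pair hvw]
      simp only [Finset.mem_insert, Finset.mem_singleton]
      rintro (h | h)
      · exact hne v hv h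
      · rw [hpv] at h
        exact hne w hw h
    unfold dg at h2
    omega
  · intro a b hab
    constructor
    · intro h2
      have h3 : s(a, b) ∈ E := Finset.mem_filter.2 ⟨Finset.mem_univ _, h2⟩
      rw [← hE] at h3
      obtain ⟨v, hv, h4⟩ := Finset.mem_image.1 h3
      have hv' := (Finset.mem_filter.1 hv).2
      rcases Sym2.eq_iff.1 h4 with ⟨h5, h6⟩ | ⟨h5, h6⟩
      · left
        rw [← h5, ← h6]
        exact ⟨hv', rfl⟩
      · right
        rw [← h5, ← h6]
        exact ⟨hv', rfl⟩
    · rintro (⟨h2, h3⟩ | ⟨h2, h3⟩)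
      · rw [← h3]
        exact (hadj a h2).1
      · rw [← h3, Sym2.eq_swap]
        exact (hadj b h2).1

end Pool.D131
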