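import Pool.Agent.Lib.MP_d131fa_co.Sp5

/-!
# Trees with a centre: legs and cuts of size one
-/

namespace Pool.D131

open Finset

set_option linter.unusedSectionVars false

variable {V W : Type} [Fintype V] [DecidableEq V] [Fintype W] [DecidableEq W]

/-- The vertex at distance `1` below which `v` lies. -/
def rt (p : V → V) (d : V → ℕ) (v : V) : V := p^[d v - 1] v

/-- The number of vertices of the leg of `i`. -/
def len (c : V) (p : V → V) (d : V → ℕ) (i : V) : ℕ :=
  (univ.filter fun w => w ≠ c ∧ rt p d w = i).card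

variable {c : V} {p : V → V} {d : V → ℕ}

theorem Sp.iter_d (h : Sp c p d) (k : ℕ) (v : V) : d (p^[k] v) = d v - k := by
  induction k with
  | zero => rfl
  | succ k ih =>
    rw [Function.iterate_succ_apply', h.dp, ih]
    omega

theorem Sp.pos (h : Sp c p d) {v : V} (hv : v ≠ c) : 1 ≤ d v := by
  by_contra hn
  exact hv ((h.d0 v).1 (by omega))

theorem Sp.ne (h : Sp c p d) {v : V} (hv : 1 ≤ d v) : v ≠ c := by
  intro hn
  have := (h.d0 v).2 hn
  omega

theorem Sp.rt_iter (h : Sp c p d) (k : ℕ) (v : V) (hk : k < d v) :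
    rt p d (p^[k] v) = rt p d v := by
  unfold rt
  rw [h.iter_d, ← Function.iterate_add_apply]
  congr 1
  omega

theorem Sp.rt_p (h : Sp c p d) {v : V} (hv : 2 ≤ d v) : rt p d (p v) = rt p d v :=
  h.rt_iter 1 v (by omega)

theorem Sp.d_rt (h : Sp c p d) {v : V} (hv : v ≠ c) : d (rt p d v) = 1 := by
  unfold rt
  rw [h.iter_d]
  have := h.pos hv
  omega

theorem Sp.rt_self (_h : Sp c p d) {v : V} (hv : d v = 1) : rt p d v = v := by
  unfold rt
  rw [hv]
  rfl

theorem Sp.eq_of (h : Sp c p d) {v w : V} (hv : v ≠ c) (hr : rt p d v = rt p d w)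
    (hd : d v = d w) : v = w := by
  have h1 := h.pos hv
  have key : ∀ j, j ≤ d v - 1 → p^[d v - 1 - j] v = p^[d v - 1 - j] w := by
    intro j
    induction j with
    | zero =>
      intro _
      unfold rt at hr
      rw [← hd] at hr
      exact hr
    | succ j ih =>
      intro hj
      have h2 := ih (by omega)
      have h3 : d v - 1 - j = (d v - 1 - (j + 1)) + 1 := by omega
      rw [h3, Function.iterate_succ_apply', Function.iterate_succ_apply'] at h2
      apply h.inj _ _ _ _ h2
      · apply h.ne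
        rw [h.dp, h.iter_d]
        omega
      · apply h.ne
        rw [h.iter_d]
        omega
      · apply h.ne
        rw [h.iter_d]
        omega
  have h2 := key (d v - 1) le_rfl
  rw [Nat.sub_self] at h2
  exact h2

/-- A set of positive numbers that is closed downwards is an interval. -/
theorem icc_of_closed (D : Finset ℕ) (h1 : ∀ x ∈ D, 1 ≤ x)
    (h2 : ∀ x ∈ D, ∀ k, 1 ≤ k → k ≤ x → k ∈ D) : D = Finset.Icc 1 D.card := by
  rcases D.eq_empty_or_nonempty with h | h
  · rw [h]
    rfl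
  · have h3 : D = Finset.Icc 1 (D.max' h) := by
      ext k
      rw [Finset.mem_Icc]
      constructor
      · intro hk
        exact ⟨h1 k hk, D.le_max' k hk⟩
      · rintro ⟨hk1, hk2⟩
        exact h2 _ (D.max'_mem h) k hk1 hk2
    have h4 : D.card = D.max' h := by
      have h5 := congrArg Finset.card h3
      rw [Nat.card_Icc] at h5
      omega
    rw [h4]
    exact h3

/-- The distances in a leg are the numbers from one to the length. -/
theorem Sp.image_d (h : Sp c p d) (i : V) :
    (univ.filter fun w => w ≠ c ∧ rt p d w = i).image d = Finset.Icc 1 (len c p d i) := by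
  have h1 : ((univ.filter fun w => w ≠ c ∧ rt p d w = i).image d).card = len c p d i := by
    rw [Finset.card_image_of_injOn]
    · rfl
    · intro v hv w hw hd
      have hv' := (Finset.mem_filter.1 hv).2
      have hw' := (Finset.mem_filter.1 hw).2
      exact h.eq_of hv'.1 (hv'.2.trans hw'.2.symm) hd
  rw [← h1]
  apply icc_of_closed
  · intro x hx
    obtain ⟨w, hw, rfl⟩ := Finset.mem_image.1 hx
    exact h.pos (Finset.mem_filter.1 hw).2.1
  · intro x hx k hk1 hk2
    obtain ⟨w, hw, rfl⟩ := Finset.mem_image.1 hx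
    have hw' := (Finset.mem_filter.1 hw).2
    rw [Finset.mem_image]
    refine ⟨p^[d w - k] w, Finset.mem_filter.2 ⟨Finset.mem_univ _, ?_, ?_⟩, ?_⟩
    · apply h.ne
      rw [h.iter_d]
      omega
    · rw [h.rt_iter _ _ (by omega)]
      exact hw'.2
    · rw [h.iter_d]
      omega

theorem Sp.d_le (h : Sp c p d) {v : V} (hv : v ≠ c) : d v ≤ len c p d (rt p d v) := by
  have h1 : d v ∈ (univ.filter fun w => w ≠ c ∧ rt p d w = rt p d v).image d :=
    Finset.mem_image_of_mem d (Finset.mem_filter.2 ⟨Finset.mem_univ _, hv, rfl⟩)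
  rw [h.image_d, Finset.mem_Icc] at h1
  exact h1.2

theorem Sp.exists_of (h : Sp c p d) {i : V} {k : ℕ} (h1 : 1 ≤ k) (h2 : k ≤ len c p d i) :
    ∃ u, u ≠ c ∧ rt p d u = i ∧ d u = k := by
  have h3 : k ∈ (univ.filter fun w => w ≠ c ∧ rt p d w = i).image d := by
    rw [h.image_d, Finset.mem_Icc]
    exact ⟨h1, h2⟩
  obtain ⟨u, hu, hd⟩ := Finset.mem_image.1 h3
  have hu' := (Finset.mem_filter.1 hu).2
  exact ⟨u, hu'.1, hu'.2, hd⟩

/-- The colouring of the part of the leg below `v`. -/
def bl (c : V) (p : V → V) (d : V → ℕ) (v : V) : V → Fin 2 :=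
  fun w => if w ≠ c ∧ rt p d w = rt p d v ∧ d v ≤ d w then 1 else 0

theorem Sp.bl_flip (h : Sp c p d) {v w : V} (hv : v ≠ c) (hw : w ≠ c) :
    bl c p d v w ≠ bl c p d v (p w) ↔ w = v := by
  have hdw := h.pos hw
  have hdv := h.pos hv
  constructor
  · intro h1
    by_contra hn
    apply h1
    unfold bl
    by_cases h2 : d w = 1
    · have h3 : p w = c := by
        rw [← h.d0, h.dp, h2]
      have h4 : ¬ (p w ≠ c ∧ rt p d (p w) = rt p d v ∧ d v ≤ d (p w)) := fun h => h.1 h3
      rw [if_neg h4, if_neg]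
      rintro ⟨-, h5, h6⟩
      apply hn
      exact h.eq_of hw h5 (by omega)
    · have h3 := h.rt_p (v := w) (by omega)
      have h4 : p w ≠ c := by
        apply h.ne
        rw [h.dp]
        omega
      have h5 : (w ≠ c ∧ rt p d w = rt p d v ∧ d v ≤ d w) ↔
          (p w ≠ c ∧ rt p d (p w) = rt p d v ∧ d v ≤ d (p w)) := by
        rw [h3, h.dp]
        constructor
        · rintro ⟨-, h6, h7⟩
          refine ⟨h4, h6, ?_⟩
          by_contra h8
          apply hn
          exact h.eq_of hw h6 (by omega)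
        · rintro ⟨-, h6, h7⟩
          exact ⟨hw, h6, by omega⟩
      simp only [h5]
  · intro h1
    subst h1
    unfold bl
    rw [if_pos ⟨hw, rfl, le_rfl⟩, if_neg]
    · exact one_ne_zero
    · rintro ⟨h2, h3, h4⟩
      rw [h.dp] at h4
      omega

theorem Sp.ext (h : Sp c p d) (φ ψ : V → Fin 2) (h0 : φ c = ψ c)
    (hf : ∀ w, w ≠ c → (φ w ≠ φ (p w) ↔ ψ w ≠ ψ (p w))) : φ = ψ := by
  have key : ∀ k w, d w = k → φ w = ψ w := by
    intro k
    induction k with
    | zero =>
      intro w hw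
      rw [(h.d0 w).1 hw, h0]
    | succ k ih =>
      intro w hw
      have hwc : w ≠ c := h.ne (by omega)
      have h1 := ih (p w) (by rw [h.dp, hw]; rfl)
      have h2 := hf w hwc
      rw [h1] at h2
      revert h2
      generalize φ w = x
      generalize ψ w = y
      generalize ψ (p w) = z
      revert x y z
      decide
  funext w
  exact key _ w rfl

/-- The size of the part of the leg below `v`. -/
def bb (c : V) (p : V → V) (d : V → ℕ) (v : V) : ℕ := len c p d (rt p d v) + 1 - d v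

theorem Sp.wt_bl (h : Sp c p d) {v : V} (hv : v ≠ c) :
    ∑ w, (bl c p d v w : ℕ) = bb c p d v := by
  have h1 : ∀ w, (bl c p d v w : ℕ) =
      if w ≠ c ∧ rt p d w = rt p d v ∧ d v ≤ d w then 1 else 0 := by
    intro w
    unfold bl
    split_ifs <;> rfl
  rw [Finset.sum_congr rfl fun w _ => h1 w, ← Finset.card_filter]
  have h2 : (univ.filter fun w => w ≠ c ∧ rt p d w = rt p d v ∧ d v ≤ d w).card =
      ((univ.filter fun w => w ≠ c ∧ rt p d w = rt p d v ∧ d v ≤ d w).image d).card := by
    rw [Finset.card_image_of_injOn]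
    intro u hu w hw hd
    have hu' := (Finset.mem_filter.1 hu).2
    have hw' := (Finset.mem_filter.1 hw).2
    exact h.eq_of hu'.1 (hu'.2.1.trans hw'.2.1.symm) hd
  have h3 : (univ.filter fun w => w ≠ c ∧ rt p d w = rt p d v ∧ d v ≤ d w).image d =
      Finset.Icc (d v) (len c p d (rt p d v)) := by
    ext k
    rw [Finset.mem_image, Finset.mem_Icc]
    constructor
    · rintro ⟨w, hw, rfl⟩
      have hw' := (Finset.mem_filter.1 hw).2
      refine ⟨hw'.2.2, ?_⟩
      rw [← hw'.2.1]
      exact h.d_le hw'.1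
    · rintro ⟨hk1, hk2⟩
      obtain ⟨u, hu1, hu2, hu3⟩ := h.exists_of (i := rt p d v) (k := k)
        (le_trans (h.pos hv) hk1) hk2
      exact ⟨u, Finset.mem_filter.2 ⟨Finset.mem_univ _, hu1, hu2, by rw [hu3]; exact hk1⟩, hu3⟩
  rw [h2, h3, Nat.card_Icc]
  rfl

/-- The number of vertices with `s` vertices below. -/
def lam (c : V) (p : V → V) (d : V → ℕ) (s : ℕ) : ℕ :=
  (univ.filter fun v => v ≠ c ∧ bb c p d v = s).card

theorem Sp.c0_eq (h : Sp c p d) {κ : Sym2 V → ℕ}
    (hcut : ∀ φ : V → Fin 2, cut κ φ = (univ.filter fun v => v ≠ c ∧ φ v ≠ φ (p v)).card)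
    (s : ℕ) :
    (univ.filter fun φ : V → Fin 2 => φ c = 0 ∧ cut κ φ = 1 ∧ ∑ v, (φ v : ℕ) = s).card =
      lam c p d s := by
  unfold lam
  symm
  have hbc : ∀ v, bl c p d v c = 0 := fun v => if_neg (fun h => h.1 rfl)
  refine Finset.card_bij (fun v _ => bl c p d v) ?_ ?_ ?_
  · intro v hv
    have hv' := (Finset.mem_filter.1 hv).2
    rw [Finset.mem_filter]
    refine ⟨Finset.mem_univ _, hbc v, ?_, ?_⟩
    · rw [hcut]
      have h1 : (univ.filter fun w => w ≠ c ∧ bl c p d v w ≠ bl c p d v (p w)) = {v} := by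
        ext w
        rw [Finset.mem_filter, Finset.mem_singleton]
        constructor
        · rintro ⟨-, h2, h3⟩
          exact (h.bl_flip hv'.1 h2).1 h3
        · rintro rfl
          exact ⟨Finset.mem_univ _, hv'.1, (h.bl_flip hv'.1 hv'.1).2 rfl⟩
      rw [h1, Finset.card_singleton]
    · rw [h.wt_bl hv'.1]
      exact hv'.2
  · intro v hv w hw hvw
    have hv' := (Finset.mem_filter.1 hv).2
    have hw' := (Finset.mem_filter.1 hw).2
    have h1 := (h.bl_flip hv'.1 hv'.1).2 rfl
    have h2 : bl c p d v = bl c p d w := hvw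
    rw [h2] at h1
    exact (h.bl_flip hw'.1 hv'.1).1 h1
  · intro φ hφ
    obtain ⟨-, h1, h2, h3⟩ := Finset.mem_filter.1 hφ
    rw [hcut, Finset.card_eq_one] at h2
    obtain ⟨v, hv⟩ := h2
    have hvm : v ∈ (univ.filter fun w => w ≠ c ∧ φ w ≠ φ (p w)) := by
      rw [hv]
      exact Finset.mem_singleton_self v
    have hv' := (Finset.mem_filter.1 hvm).2
    have h4 : bl c p d v = φ := by
      apply h.ext
      · rw [hbc, h1]
      · intro w hw
        rw [h.bl_flip hv'.1 hw]
        constructor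
        · rintro rfl
          exact hv'.2
        · intro h5
          have h6 : w ∈ (univ.filter fun w => w ≠ c ∧ φ w ≠ φ (p w)) :=
            Finset.mem_filter.2 ⟨Finset.mem_univ _, hw, h5⟩
          rw [hv] at h6
          exact Finset.mem_singleton.1 h6
    refine ⟨v, Finset.mem_filter.2 ⟨Finset.mem_univ _, hv'.1, ?_⟩, h4⟩
    rw [← h.wt_bl hv'.1, h4]
    exact h3

/-- The numbers `c1` in terms of the legs. -/
theorem Sp.c1_lam (h : Sp c p d) {κ : Sym2 V → ℕ}
    (hcut : ∀ φ : V → Fin 2, cut κ φ = (univ.filter fun v => v ≠ c ∧ φ v ≠ φ (p v)).card)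
    {s : ℕ} (hs : s ≤ Fintype.card V) :
    c1 κ s = lam c p d s + lam c p d (Fintype.card V - s) := by
  rw [← h.c0_eq hcut, ← h.c0_eq hcut]
  unfold c1
  rw [← Finset.card_filter_add_card_filter_not (fun φ : V → Fin 2 => φ c = 0)]
  congr 1
  · congr 1
    ext φ
    simp only [Finset.mem_filter, Finset.mem_univ, true_and]
    constructor
    · rintro ⟨⟨h1, h2⟩, h3⟩
      exact ⟨h3, h1, h2⟩
    · rintro ⟨h3, h1, h2⟩
      exact ⟨⟨h1, h2⟩, h3⟩
  · have hinv : ∀ φ : V → Fin 2, φ + 1 + 1 = φ := by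
      intro φ
      funext v
      show φ v + 1 + 1 = φ v
      generalize φ v = x
      revert x
      decide
    refine Finset.card_bij (fun φ _ => φ + 1) ?_ ?_ ?_
    · intro φ hφ
      rw [Finset.mem_filter, Finset.mem_filter] at hφ
      obtain ⟨⟨-, h1, h2⟩, h3⟩ := hφ
      rw [Finset.mem_filter]
      refine ⟨Finset.mem_univ _, ?_, ?_, ?_⟩
      · show φ c + 1 = 0
        revert h3
        generalize φ c = x
        revert x
        decide
      · rw [cut_add_one]
        exact h1
      · have := wt_add φ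
        omega
    · intro φ _ ψ _ hφψ
      have h1 : φ + 1 = ψ + 1 := hφψ
      rw [← hinv φ, ← hinv ψ, h1]
    · intro φ hφ
      rw [Finset.mem_filter] at hφ
      obtain ⟨-, h1, h2, h3⟩ := hφ
      refine ⟨φ + 1, ?_, hinv φ⟩
      rw [Finset.mem_filter, Finset.mem_filter]
      refine ⟨⟨Finset.mem_univ _, ?_, ?_⟩, ?_⟩
      · rw [cut_add_one]
        exact h2
      · have := wt_add φ
        omega
      · show ¬ (φ c + 1 = 0)
        rw [h1]
        decide

theorem Sp.lam_eq (h : Sp c p d) {s : ℕ} (hs : 1 ≤ s) :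
    lam c p d s = (univ.filter fun i => d i = 1 ∧ s ≤ len c p d i).card := by
  unfold lam
  refine Finset.card_bij (fun v _ => rt p d v) ?_ ?_ ?_
  · intro v hv
    have hv' := (Finset.mem_filter.1 hv).2
    rw [Finset.mem_filter]
    refine ⟨Finset.mem_univ _, h.d_rt hv'.1, ?_⟩
    have h1 := h.pos hv'.1
    have h2 := hv'.2
    unfold bb at h2
    omega
  · intro v hv w hw hvw
    have hv' := (Finset.mem_filter.1 hv).2
    have hw' := (Finset.mem_filter.1 hw).2
    have h1 : rt p d v = rt p d w := hvw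
    apply h.eq_of hv'.1 h1
    have h2 := h.d_le hv'.1
    have h3 := h.d_le hw'.1
    have h4 := hv'.2
    have h5 := hw'.2
    unfold bb at h4 h5
    rw [h1] at h2 h4
    omega
  · intro i hi
    obtain ⟨-, h1, h2⟩ := Finset.mem_filter.1 hi
    obtain ⟨u, hu1, hu2, hu3⟩ := h.exists_of (i := i) (k := len c p d i + 1 - s)
      (by omega) (by omega)
    refine ⟨u, Finset.mem_filter.2 ⟨Finset.mem_univ _, hu1, ?_⟩, hu2⟩
    unfold bb
    rw [hu2, hu3]
    omega

theorem Sp.lam_anti (h : Sp c p d) {s t : ℕ} (hs : 1 ≤ s) (hst : s ≤ t) :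
    lam c p d t ≤ lam c p d s := by
  rw [h.lam_eq hs, h.lam_eq (le_trans hs hst)]
  apply Finset.card_le_card
  intro i hi
  obtain ⟨-, h1, h2⟩ := Finset.mem_filter.1 hi
  exact Finset.mem_filter.2 ⟨Finset.mem_univ _, h1, le_trans hst h2⟩

theorem Sp.len_le (_h : Sp c p d) (i : V) : len c p d i ≤ Fintype.card V - 1 := by
  unfold len
  have h1 : (univ.filter fun w => w ≠ c ∧ rt p d w = i) ⊆ univ.erase c := by
    intro w hw
    exact Finset.mem_erase.2 ⟨(Finset.mem_filter.1 hw).2.1, Finset.mem_univ _⟩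
  refine (Finset.card_le_card h1).trans ?_
  rw [Finset.card_erase_of_mem (Finset.mem_univ c), Finset.card_univ]

theorem Sp.lam_sum (h : Sp c p d) :
    ∑ s ∈ Finset.Icc 1 (Fintype.card V - 1), lam c p d s = Fintype.card V - 1 := by
  have h1 : ∀ v ∈ (univ.erase c : Finset V), bb c p d v ∈ Finset.Icc 1 (Fintype.card V - 1) := by
    intro v hv
    have hv' := (Finset.mem_erase.1 hv).1
    rw [Finset.mem_Icc]
    have h2 := h.d_le hv'
    have h3 := h.pos hv'
    have h4 := h.len_le (rt p d v)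
    unfold bb
    omega
  have h2 := Finset.card_eq_sum_card_fiberwise h1
  rw [Finset.card_erase_of_mem (Finset.mem_univ c), Finset.card_univ] at h2
  refine Eq.trans ?_ h2.symm
  apply Finset.sum_congr rfl
  intro s _
  unfold lam
  congr 1
  ext v
  simp

theorem Sp.lam_zero (h : Sp c p d) {s : ℕ} (hs : Fintype.card V ≤ s) (hV : 1 ≤ Fintype.card V) :
    lam c p d s = 0 := by
  rw [h.lam_eq (le_trans hV hs), Finset.card_eq_zero, Finset.filter_eq_empty_iff]
  rintro i - ⟨-, h1⟩
  have h2 := h.len_le i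
  omega

theorem Sp.fiber_card (h : Sp c p d) {s : ℕ} (hs : 1 ≤ s) :
    (univ.filter fun i => d i = 1 ∧ len c p d i = s).card + lam c p d (s + 1) = lam c p d s := by
  rw [h.lam_eq hs, h.lam_eq (by omega), ← Finset.card_union_of_disjoint]
  · congr 1
    ext i
    simp only [Finset.mem_union, Finset.mem_filter, Finset.mem_univ, true_and]
    constructor
    · rintro (⟨h1, h2⟩ | ⟨h1, h2⟩)
      · exact ⟨h1, h2.ge⟩
      · exact ⟨h1, by omega⟩
    · rintro ⟨h1, h2⟩
      rcases Nat.lt_or_ge s (len c p d i) with h3 | h3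
      · exact Or.inr ⟨h1, h3⟩
      · exact Or.inl ⟨h1, le_antisymm h3 h2⟩
  · rw [Finset.disjoint_left]
    intro i h1 h2
    have h3 := (Finset.mem_filter.1 h1).2
    have h4 := (Finset.mem_filter.1 h2).2
    omega

theorem Sp.len_pos (h : Sp c p d) {i : V} (hi : d i = 1) : 1 ≤ len c p d i := by
  have h1 := h.d_le (h.ne hi.ge)
  rw [h.rt_self hi, hi] at h1
  exact h1

/-- The number of legs is the degree of the centre. -/
theorem Sp.lam_one (h : Sp c p d) {κ : Sym2 V → ℕ}
    (hcut : ∀ φ : V → Fin 2, cut κ φ = (univ.filter fun v => v ≠ c ∧ φ v ≠ φ (p v)).card) :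
    lam c p d 1 = dg κ c := by
  unfold dg
  rw [h.lam_eq le_rfl, hcut]
  congr 1
  ext i
  simp only [Finset.mem_filter, Finset.mem_univ, true_and]
  rw [one_apply, one_apply]
  constructor
  · rintro ⟨h1, -⟩
    have h2 : i ≠ c := h.ne h1.ge
    have h3 : p i = c := by
      rw [← h.d0, h.dp, h1]
    rw [if_neg h2, if_pos h3]
    exact ⟨h2, zero_ne_one⟩
  · rintro ⟨h1, h2⟩
    rw [if_neg h1] at h2
    have h3 : p i = c := by
      by_contra hn
      rw [if_neg hn] at h2
      exact h2 rfl
    have h4 := h.dp i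
    rw [(h.d0 (p i)).2 h3] at h4
    have h5 := h.pos h1
    have h6 : d i = 1 := by omega
    exact ⟨h6, h.len_pos h6⟩

end Pool.D131
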