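import Pool.Agent.Lib.MP_d131fa_co.Sp6

/-!
# The numbers of legs of each length are determined
-/

namespace Pool.D131

open Finset

/-- Lower bound for the sum of a nonincreasing sequence with given values. -/
theorem sum_lower {n : ℕ} {f : ℕ → ℕ} (hf : ∀ s t, 1 ≤ s → s ≤ t → f t ≤ f s) {l t k : ℕ}
    (hl : l ≤ n) (hl1 : 1 ≤ l → 1 ≤ f l) (ht : t ≤ l) (ht1 : 1 ≤ t → 2 ≤ f t) (hk : k ≤ t)
    (hk1 : 1 ≤ k → 3 ≤ f k) : l + t + k ≤ ∑ s ∈ Finset.Icc 1 n, f s := by
  have h1 : ∀ m, m ≤ n → ∑ s ∈ Finset.Icc 1 n, (if s ≤ m then 1 else 0) = m := by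
    intro m hm
    rw [← Finset.card_filter]
    have h2 : (Finset.Icc 1 n).filter (fun s => s ≤ m) = Finset.Icc 1 m := by
      ext s
      simp only [Finset.mem_filter, Finset.mem_Icc]
      omega
    rw [h2, Nat.card_Icc]
    omega
  have h2 : ∑ s ∈ Finset.Icc 1 n, ((if s ≤ l then 1 else 0) + (if s ≤ t then 1 else 0) +
      (if s ≤ k then 1 else 0)) ≤ ∑ s ∈ Finset.Icc 1 n, f s := by
    apply Finset.sum_le_sum
    intro s hs
    rw [Finset.mem_Icc] at hs
    split_ifs with h3 h4 h5 h5 h4 h5 h5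
    · have := hf s k hs.1 h5
      have := hk1 (by omega)
      omega
    · have := hf s t hs.1 h4
      have := ht1 (by omega)
      omega
    · omega
    · have := hf s l hs.1 h3
      have := hl1 (by omega)
      omega
    · omega
    · omega
    · omega
    · omega
  rw [Finset.sum_add_distrib, Finset.sum_add_distrib, h1 l hl, h1 t (by omega),
    h1 k (by omega)] at h2
  exact h2

/-- One of the two sequences cannot be longer. -/
theorem lam_aux {n : ℕ} {f g : ℕ → ℕ}
    (hf : ∀ s t, 1 ≤ s → s ≤ t → f t ≤ f s) (hg : ∀ s t, 1 ≤ s → s ≤ t → g t ≤ g s)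
    (hfs : ∑ s ∈ Finset.Icc 1 (n - 1), f s = n - 1)
    (hfz : f n = 0) (_hgz : g n = 0)
    (hfg : ∀ s, 1 ≤ s → s ≤ n - 1 → f s + f (n - s) = g s + g (n - s))
    (h1 : f 1 = g 1) (h3 : 3 ≤ f 1) {s : ℕ} (hs1 : 1 ≤ s) (hsn : s ≤ n - 1) (hs2 : n < 2 * s)
    (hs : g s < f s) : False := by
  -- the last `l` with `f l ≠ 0`
  have hex : ∃ l, s ≤ l ∧ l ≤ n - 1 ∧ 1 ≤ f l ∧ f (l + 1) = 0 := by
    by_contra hn
    push Not at hn
    have key : ∀ j, s + j ≤ n → 1 ≤ f (s + j) := by
      intro j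
      induction j with
      | zero =>
        intro _
        show 1 ≤ f s
        omega
      | succ j ih =>
        intro hj
        have h4 := ih (by omega)
        have h5 := hn (s + j) (by omega) (by omega) h4
        rw [← add_assoc]
        omega
    have h4 := key (n - s) (by omega)
    have h5 : s + (n - s) = n := by omega
    rw [h5, hfz] at h4
    omega
  obtain ⟨l, hl1, hl2, hl3, hl4⟩ := hex
  have hfs1 : f s ≤ 1 := by
    by_contra hn
    have := sum_lower (n := n - 1) hf (l := s) (t := s) (k := 0) hsn (fun _ => by omega) le_rfl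
      (fun _ => by omega) (Nat.zero_le _) (fun h => by omega)
    omega
  have hgs : g s = 0 := by omega
  have hgl : g l = 0 := by
    have := hg s l hs1 hl1
    omega
  have hfl : f l = 1 := by
    have := hf s l hs1 hl1
    omega
  have hfnl : f (n - l) ≤ 1 := by
    by_contra hn
    have := sum_lower (n := n - 1) hf (l := l) (t := n - l) (k := 0) hl2 (fun _ => hl3)
      (by omega) (fun _ => by omega) (Nat.zero_le _) (fun h => by omega)
    omega
  have hfnl' : 1 ≤ f (n - l) := by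
    have := hf (n - l) l (by omega) (by omega)
    omega
  have h4 := hfg l (by omega) hl2
  have hgnl : g (n - l) = 2 := by omega
  rcases Nat.lt_or_ge (l + 1) n with h5 | h5
  · have h6 := hfg (l + 1) (by omega) (by omega)
    have hgl1 : g (l + 1) = 0 := by
      have := hg s (l + 1) hs1 (by omega)
      omega
    rw [hl4, hgl1] at h6
    have h7 := hg (n - (l + 1)) (n - l) (by omega) (by omega)
    have h8 : 2 ≤ f (n - (l + 1)) := by omega
    have := sum_lower (n := n - 1) hf (l := l) (t := n - (l + 1)) (k := 1) hl2 (fun _ => hl3)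
      (by omega) (fun _ => h8) (by omega) (fun _ => h3)
    omega
  · have h6 : n - l = 1 := by omega
    rw [h6] at hgnl
    omega

/-- The two sequences are equal. -/
theorem lam_unique {n : ℕ} {f g : ℕ → ℕ}
    (hf : ∀ s t, 1 ≤ s → s ≤ t → f t ≤ f s) (hg : ∀ s t, 1 ≤ s → s ≤ t → g t ≤ g s)
    (hfs : ∑ s ∈ Finset.Icc 1 (n - 1), f s = n - 1)
    (hgs : ∑ s ∈ Finset.Icc 1 (n - 1), g s = n - 1)
    (hfz : ∀ s, n ≤ s → f s = 0) (hgz : ∀ s, n ≤ s → g s = 0)
    (hfg : ∀ s, 1 ≤ s → s ≤ n - 1 → f s + f (n - s) = g s + g (n - s))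
    (h1 : f 1 = g 1) (h3 : f 1 = 1 ∨ 3 ≤ f 1) {s : ℕ} (hs1 : 1 ≤ s) : f s = g s := by
  rcases Nat.lt_or_ge s n with hsn | hsn
  swap
  · rw [hfz s hsn, hgz s hsn]
  rcases h3 with h3 | h3
  · have key : ∀ h : ℕ → ℕ, (∀ s t, 1 ≤ s → s ≤ t → h t ≤ h s) →
        ∑ s ∈ Finset.Icc 1 (n - 1), h s = n - 1 → h 1 = 1 → h s = 1 := by
      intro h hh hsum h1
      have h4 : ∀ t ∈ Finset.Icc 1 (n - 1), h t ≤ 1 := by
        intro t ht
        rw [Finset.mem_Icc] at ht
        have := hh 1 t le_rfl ht.1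
        omega
      have h5 : ∑ t ∈ Finset.Icc 1 (n - 1), h t = ∑ _t ∈ Finset.Icc 1 (n - 1), 1 := by
        rw [hsum]
        simp
      exact (Finset.sum_eq_sum_iff_of_le h4).1 h5 s (Finset.mem_Icc.2 ⟨hs1, by omega⟩)
    rw [key f hf hfs h3, key g hg hgs (by omega)]
  · -- above the middle
    have hup : ∀ t, 1 ≤ t → t ≤ n - 1 → n < 2 * t → f t = g t := by
      intro t ht1 ht2 ht3
      by_contra hne
      rcases Nat.lt_or_gt_of_ne hne with h4 | h4
      · exact lam_aux hg hf hgs (hgz n le_rfl) (hfz n le_rfl)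
          (fun s hs1 hs2 => (hfg s hs1 hs2).symm) h1.symm (by omega) ht1 ht2 ht3 h4
      · exact lam_aux hf hg hfs (hfz n le_rfl) (hgz n le_rfl) hfg h1 h3 ht1 ht2 ht3 h4
    have h4 := hfg s hs1 (by omega)
    rcases Nat.lt_trichotomy (2 * s) n with h5 | h5 | h5
    · have h6 := hup (n - s) (by omega) (by omega) (by omega)
      omega
    · have h6 : n - s = s := by omega
      rw [h6] at h4
      omega
    · exact hup s hs1 (by omega) h5

end Pool.D131
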